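import Mathlib

/-!
# Real chains and cross ratios
-/

namespace Pool.Agent.H1Tv

/-- A strictly increasing real sequence `u 0 < ... < u m` with all cross ratios below `C`
is short. -/
theorem real_chain (C : ℝ) (hC : 0 < C) (m : ℕ) (u : ℕ → ℝ)
    (hu : ∀ i j, i < j → j ≤ m → u i < u j)
    (h : ∀ i j l q, i < j → j < l → l < q → q ≤ m →
      (u l - u i) * (u q - u j) < C * ((u j - u i) * (u q - u l))) :
    (m : ℝ) < 2 * C + 5 := by
  by_contra hcon
  push Not at hcon
  have hm5 : 5 < m := by
    have : (5 : ℝ) < m := by linarith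
    exact_mod_cast this
  set L := u (m - 1) - u 1 with hL
  have hLpos : 0 < L := by
    have := hu 1 (m - 1) (by omega) (by omega)
    rw [hL]; linarith
  -- every gap is large
  have gap : ∀ i, 2 ≤ i → i + 3 ≤ m → L < 2 * C * (u (i + 1) - u i) := by
    intro i hi hi'
    have hg : 0 < u (i + 1) - u i := by
      have := hu i (i + 1) (by omega) (by omega); linarith
    have h1 := h i (i + 1) (m - 1) m (by omega) (by omega) (by omega) le_rfl
    have h2 := h 0 1 i (i + 1) (by omega) (by omega) (by omega) (by omega)
    have e1 : u (m - 1) < u m := hu _ _ (by omega) le_rfl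
    have e2 : u (i + 1) < u (m - 1) := hu _ _ (by omega) (by omega)
    have e3 : u 0 < u 1 := hu _ _ (by omega) (by omega)
    have e4 : u 1 < u i := hu _ _ (by omega) (by omega)
    have k1 : u (m - 1) - u i < C * (u (i + 1) - u i) := by
      have hp : 0 < u m - u (m - 1) := by linarith
      have : (u (m - 1) - u i) * (u m - u (m - 1)) < C * (u (i + 1) - u i) * (u m - u (m - 1)) := by
        calc (u (m - 1) - u i) * (u m - u (m - 1)) ≤ (u (m - 1) - u i) * (u m - u (i + 1)) := by
              apply mul_le_mul_of_nonneg_left <;> linarith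
          _ < C * ((u (i + 1) - u i) * (u m - u (m - 1))) := h1
          _ = _ := by ring
      exact lt_of_mul_lt_mul_right this hp.le
    have k2 : u (i + 1) - u 1 < C * (u (i + 1) - u i) := by
      have hp : 0 < u 1 - u 0 := by linarith
      have : (u (i + 1) - u 1) * (u 1 - u 0) < C * (u (i + 1) - u i) * (u 1 - u 0) := by
        calc (u (i + 1) - u 1) * (u 1 - u 0) ≤ (u i - u 0) * (u (i + 1) - u 1) := by
              rw [mul_comm]
              apply mul_le_mul_of_nonneg_right <;> linarith
          _ < C * ((u 1 - u 0) * (u (i + 1) - u i)) := h2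
          _ = _ := by ring
      exact lt_of_mul_lt_mul_right this hp.le
    rw [hL]
    nlinarith
  -- sum of the gaps
  have hsum : ∀ i, i + 4 ≤ m → (i : ℝ) * L ≤ 2 * C * (u (i + 2) - u 2) := by
    intro i
    induction i with
    | zero => intro _; simp
    | succ i ih =>
      intro hi
      have h1 := ih (by omega)
      have h2 := gap (i + 2) (by omega) (by omega)
      push_cast
      have : i + 1 + 2 = i + 2 + 1 := by ring
      rw [this]
      nlinarith
  have h3 := hsum (m - 4) (by omega)
  have h4 : u (m - 4 + 2) - u 2 < L := by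
    have a1 : u (m - 4 + 2) < u (m - 1) := hu _ _ (by omega) (by omega)
    have a2 : u 1 < u 2 := hu _ _ (by omega) (by omega)
    rw [hL]; linarith
  have h5 : ((m - 4 : ℕ) : ℝ) = (m : ℝ) - 4 := by
    rw [Nat.cast_sub (by omega)]; norm_num
  rw [h5] at h3
  have h6 : ((m : ℝ) - 4) * L < 2 * C * L := by
    calc ((m : ℝ) - 4) * L ≤ 2 * C * (u (m - 4 + 2) - u 2) := h3
      _ < 2 * C * L := by
        apply mul_lt_mul_of_pos_left h4; linarith
  have h7 : (m : ℝ) - 4 < 2 * C := lt_of_mul_lt_mul_right h6 hLpos.le
  linarith

/-- The bracket version: a bracket satisfying the three-term Plücker relation. -/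
theorem bracket_chain (C : ℝ) (hC : 0 < C) (m : ℕ) (b : ℕ → ℕ → ℝ)
    (pl : ∀ i j l q, i < j → j < l → l < q → q ≤ m + 1 →
      b i j * b l q - b i l * b j q + b i q * b j l = 0)
    (hb : ∀ i j, i < j → j ≤ m + 1 → 0 < b i j)
    (h : ∀ i j l q, i < j → j < l → l < q → q ≤ m + 1 →
      b i l * b j q < C * (b i j * b l q)) :
    (m : ℝ) < 2 * C + 5 := by
  by_contra hcon
  push Not at hcon
  have hm5 : 5 ≤ m := by
    have : (5 : ℝ) ≤ m := by linarith
    exact_mod_cast this
  -- coordinates: origin `0`, infinity `m + 1`
  set u : ℕ → ℝ := fun i => if i = 0 then 0 else b 0 i / b i (m + 1) with hu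
  have hβ : ∀ i, i ≤ m → 0 < b i (m + 1) := fun i hi => hb i (m + 1) (by omega) le_rfl
  have hκ : 0 < b 0 (m + 1) := hβ 0 (by omega)
  have diff : ∀ i j, i < j → j ≤ m →
      (u j - u i) * (b i (m + 1) * b j (m + 1)) = b 0 (m + 1) * b i j := by
    intro i j hij hj
    have hi0 := hβ i (by omega)
    have hj0 := hβ j hj
    rcases Nat.eq_zero_or_pos i with rfl | hi
    · have : j ≠ 0 := by omega
      simp only [hu, this, if_true, if_false, if_neg]
      field_simp
      ring
    · have h1 : j ≠ 0 := by omega
      have h2 : i ≠ 0 := by omega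
      have h3 := pl 0 i j (m + 1) hi hij (by omega) le_rfl
      simp only [hu, h1, h2, if_false]
      field_simp
      linarith
  have hmono : ∀ i j, i < j → j ≤ m → u i < u j := by
    intro i j hij hj
    have h1 := diff i j hij hj
    have h2 : 0 < b 0 (m + 1) * b i j := mul_pos hκ (hb i j hij (by omega))
    rw [← h1] at h2
    have h3 : 0 < b i (m + 1) * b j (m + 1) := mul_pos (hβ i (by omega)) (hβ j hj)
    have := (pos_iff_pos_of_mul_pos h2).2 h3
    linarith
  have := real_chain C hC m u hmono ?_
  · linarith
  · intro i j l q hij hjl hlq hq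
    have h0 := h i j l q hij hjl hlq (by omega)
    have e1 := diff i l (by omega) (by omega)
    have e2 := diff j q (by omega) hq
    have e3 := diff i j hij (by omega)
    have e4 := diff l q hlq hq
    set W := b i (m + 1) * b j (m + 1) * b l (m + 1) * b q (m + 1) with hW
    have hWpos : 0 < W := by
      have a1 := hβ i (by omega)
      have a2 := hβ j (by omega)
      have a3 := hβ l (by omega)
      have a4 := hβ q hq
      positivity
    have f1 : (u l - u i) * (u q - u j) * W = b 0 (m + 1) * b 0 (m + 1) * (b i l * b j q) := by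
      have : (u l - u i) * (u q - u j) * W =
          ((u l - u i) * (b i (m + 1) * b l (m + 1))) * ((u q - u j) * (b j (m + 1) * b q (m + 1))) := by
        rw [hW]; ring
      rw [this, e1, e2]; ring
    have f2 : C * ((u j - u i) * (u q - u l)) * W =
        b 0 (m + 1) * b 0 (m + 1) * (C * (b i j * b l q)) := by
      have : C * ((u j - u i) * (u q - u l)) * W =
          C * (((u j - u i) * (b i (m + 1) * b j (m + 1))) *
            ((u q - u l) * (b l (m + 1) * b q (m + 1)))) := by
        rw [hW]; ring
      rw [this, e3, e4]; ring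
    have f3 : (u l - u i) * (u q - u j) * W < C * ((u j - u i) * (u q - u l)) * W := by
      rw [f1, f2]
      apply mul_lt_mul_of_pos_left h0
      positivity
    exact lt_of_mul_lt_mul_right f3 hWpos.le

end Pool.Agent.H1Tv
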