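import Pool.Agent.H1Tv.Homog

/-!
# Clusters: affine functions that are almost concentrated on groups of points
-/

namespace Pool.Agent.H1Tv

open Function

/-- No `d + 1` points of `S` lie on a common affine hyperplane of `ℝ^d`. -/
def GeneralPosition (d : ℕ) (S : Finset (Fin d → ℝ)) : Prop :=
  ∀ T ⊆ S, T.card = d + 1 →
    ¬ ∃ (f : (Fin d → ℝ) →ₗ[ℝ] ℝ) (c : ℝ), f ≠ 0 ∧ ∀ x ∈ T, f x = c

/-- homogeneous coordinates -/
def hat {d : ℕ} (x : Fin d → ℝ) : Fin (d + 1) → ℝ := Fin.cons 1 x

theorem det_ne_zero {d : ℕ} {S : Finset (Fin d → ℝ)} (hS : GeneralPosition d S)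
    (s : Fin (d + 1) → (Fin d → ℝ)) (hs : ∀ t, s t ∈ S) (hinj : Injective s) :
    Matrix.detRowAlternating (fun t => hat (s t)) ≠ (0 : ℝ) := by
  classical
  intro h0
  have h1 : (Matrix.of (fun t => hat (s t))).det = 0 := h0
  obtain ⟨w, hw, hw0⟩ := Matrix.exists_mulVec_eq_zero_iff.2 h1
  set f : (Fin d → ℝ) →ₗ[ℝ] ℝ := ∑ i : Fin d, w i.succ • LinearMap.proj i with hf
  have hfx : ∀ x, f x = ∑ i : Fin d, w i.succ * x i := by
    intro x; simp [hf]
  have hrow : ∀ t, w 0 + f (s t) = 0 := by
    intro t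
    have := congrFun hw0 t
    simp only [Matrix.mulVec, dotProduct, Matrix.of_apply, Pi.zero_apply] at this
    rw [Fin.sum_univ_succ] at this
    simp only [hat, Fin.cons_zero, Fin.cons_succ, one_mul] at this
    rw [hfx, ← this]
    congr 1
    apply Finset.sum_congr rfl
    intro i _; ring
  by_cases hf0 : f = 0
  · apply hw
    have hw00 : w 0 = 0 := by
      have := hrow 0
      rw [hf0] at this
      simpa using this
    funext k
    refine Fin.cases ?_ ?_ k
    · simpa using hw00
    · intro i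
      have := hfx (Pi.single i 1)
      rw [hf0] at this
      simpa [Pi.single_apply] using this.symm
  · refine hS (Finset.univ.image s) ?_ ?_ ⟨f, - w 0, hf0, ?_⟩
    · intro x hx
      rw [Finset.mem_image] at hx
      obtain ⟨t, _, rfl⟩ := hx
      exact hs t
    · rw [Finset.card_image_of_injective _ hinj]; simp
    · intro x hx
      rw [Finset.mem_image] at hx
      obtain ⟨t, _, rfl⟩ := hx
      linarith [hrow t]

/-- The scaling lemma. -/
theorem scaling (d M : ℕ) (hM : 1 ≤ M) (ε : ℝ) (hε : 0 < ε) (hε1 : ε ≤ 1) (H : ℕ → ℕ → ℝ)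
    (hpos : ∀ k r, k ≤ d → r < (d + 1) * M → 0 < H k r)
    (hcr : ∀ k r r', k < d → r < r' → r' < (d + 1) * M →
      (1 / ε ^ 2) * (H (k + 1) r * H k r') ≤ H (k + 1) r' * H k r) :
    ∃ lam : ℕ → ℝ, (∀ k, k ≤ d → 0 < lam k) ∧ ∀ j, j ≤ d → ∀ r, j * M ≤ r → r < (j + 1) * M →
      ∀ i, i ≤ d → i ≠ j → lam i * H i r ≤ ε * (lam j * H j r) := by
  have hC1 : 1 ≤ 1 / ε ^ 2 := by
    rw [le_div_iff₀ (by positivity)]
    nlinarith
  set lam : ℕ → ℝ := fun k => ∏ i ∈ Finset.range k, (ε * (H i ((i + 1) * M - 1) /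
    H (i + 1) ((i + 1) * M - 1))) with hlam
  have hsucc : ∀ k, lam (k + 1) = lam k * (ε * (H k ((k + 1) * M - 1) /
    H (k + 1) ((k + 1) * M - 1))) := by
    intro k; simp only [hlam]; rw [Finset.prod_range_succ]
  have hrk : ∀ k, k < d → (k + 1) * M - 1 < (d + 1) * M := by
    intro k hk
    have : (k + 1) * M ≤ (d + 1) * M := Nat.mul_le_mul_right _ (by omega)
    have h0 : 0 < (k + 1) * M := by positivity
    omega
  have hlpos : ∀ k, k ≤ d → 0 < lam k := by
    intro k hk
    induction k with
    | zero => simp [hlam]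
    | succ k ih =>
      rw [hsucc]
      have h1 := hpos k ((k + 1) * M - 1) (by omega) (hrk k (by omega))
      have h2 := hpos (k + 1) ((k + 1) * M - 1) hk (hrk k (by omega))
      have h3 := ih (by omega)
      positivity
  -- (A)
  have hA : ∀ k, k < d → ∀ r, r ≤ (k + 1) * M - 1 →
      lam (k + 1) * H (k + 1) r ≤ ε * (lam k * H k r) := by
    intro k hk r hr
    have h1 := hpos k ((k + 1) * M - 1) (by omega) (hrk k (by omega))
    have h2 := hpos (k + 1) ((k + 1) * M - 1) hk (hrk k (by omega))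
    have h3 := hlpos k (by omega)
    have hrlt : r < (d + 1) * M := lt_of_le_of_lt hr (hrk k hk)
    have h4 : H (k + 1) r * H k ((k + 1) * M - 1) ≤ H (k + 1) ((k + 1) * M - 1) * H k r := by
      rcases Nat.lt_or_eq_of_le hr with h | h
      · have h5 := hcr k r ((k + 1) * M - 1) hk h (hrk k hk)
        have h6 : 0 < H (k + 1) r * H k ((k + 1) * M - 1) :=
          mul_pos (hpos _ _ hk hrlt) h1
        nlinarith
      · rw [h]
    rw [hsucc]
    have : lam k * (ε * (H k ((k + 1) * M - 1) / H (k + 1) ((k + 1) * M - 1))) * H (k + 1) r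
        = ε * lam k * ((H (k + 1) r * H k ((k + 1) * M - 1)) / H (k + 1) ((k + 1) * M - 1)) := by
      ring
    rw [this]
    have h7 : (H (k + 1) r * H k ((k + 1) * M - 1)) / H (k + 1) ((k + 1) * M - 1) ≤ H k r := by
      rw [div_le_iff₀ h2]
      linarith
    calc ε * lam k * ((H (k + 1) r * H k ((k + 1) * M - 1)) / H (k + 1) ((k + 1) * M - 1))
        ≤ ε * lam k * H k r := by
          apply mul_le_mul_of_nonneg_left h7; positivity
      _ = _ := by ring
  -- (B)
  have hB : ∀ k, k < d → ∀ r, (k + 1) * M - 1 < r → r < (d + 1) * M →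
      lam k * H k r ≤ ε * (lam (k + 1) * H (k + 1) r) := by
    intro k hk r hr hrlt
    have h1 := hpos k ((k + 1) * M - 1) (by omega) (hrk k (by omega))
    have h2 := hpos (k + 1) ((k + 1) * M - 1) hk (hrk k (by omega))
    have h3 := hlpos k (by omega)
    have h5 := hcr k ((k + 1) * M - 1) r hk hr hrlt
    rw [hsucc]
    have : ε * (lam k * (ε * (H k ((k + 1) * M - 1) / H (k + 1) ((k + 1) * M - 1))) * H (k + 1) r)
        = lam k * (ε ^ 2 * ((H (k + 1) r * H k ((k + 1) * M - 1)) /
          H (k + 1) ((k + 1) * M - 1))) := by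
      ring
    rw [this]
    apply mul_le_mul_of_nonneg_left _ h3.le
    have h6 : (1 / ε ^ 2) * H k r ≤ (H (k + 1) r * H k ((k + 1) * M - 1)) /
        H (k + 1) ((k + 1) * M - 1) := by
      rw [le_div_iff₀ h2]
      calc 1 / ε ^ 2 * H k r * H (k + 1) ((k + 1) * M - 1)
          = 1 / ε ^ 2 * (H (k + 1) ((k + 1) * M - 1) * H k r) := by ring
        _ ≤ _ := h5
    calc H k r = ε ^ 2 * ((1 / ε ^ 2) * H k r) := by field_simp
      _ ≤ _ := by apply mul_le_mul_of_nonneg_left h6; positivity
  refine ⟨lam, hlpos, ?_⟩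
  intro j hj r hr1 hr2
  have hrlt : r < (d + 1) * M := lt_of_lt_of_le hr2 (Nat.mul_le_mul_right _ (by omega))
  have hjr : 0 ≤ lam j * H j r := (mul_pos (hlpos j hj) (hpos j r hj hrlt)).le
  -- above
  have up : ∀ a, j + 1 + a ≤ d → lam (j + 1 + a) * H (j + 1 + a) r ≤ ε * (lam j * H j r) := by
    intro a
    induction a with
    | zero =>
      intro ha
      exact hA j (by omega) r (by omega)
    | succ a ih =>
      intro ha
      have h1 := ih (by omega)
      have h2 := hA (j + 1 + a) (by omega) r (by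
        have : (j + 1) * M ≤ (j + 1 + a + 1) * M := Nat.mul_le_mul_right _ (by omega)
        omega)
      have h3 : 0 ≤ lam (j + 1 + a) * H (j + 1 + a) r :=
        (mul_pos (hlpos _ (by omega)) (hpos _ r (by omega) hrlt)).le
      calc lam (j + 1 + (a + 1)) * H (j + 1 + (a + 1)) r
          ≤ ε * (lam (j + 1 + a) * H (j + 1 + a) r) := h2
        _ ≤ 1 * (lam (j + 1 + a) * H (j + 1 + a) r) := by
          apply mul_le_mul_of_nonneg_right hε1 h3
        _ ≤ _ := by rw [one_mul]; exact h1
  have down : ∀ a, a + 1 ≤ j → lam (j - 1 - a) * H (j - 1 - a) r ≤ ε * (lam j * H j r) := by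
    intro a
    induction a with
    | zero =>
      intro ha
      have h1 := hB (j - 1) (by omega) r (by
        have : (j - 1 + 1) * M = j * M := by congr 1; omega
        rw [this]
        have : 0 < j * M := by
          apply Nat.mul_pos <;> omega
        omega) hrlt
      have : j - 1 + 1 = j := by omega
      rw [this] at h1
      simpa using h1
    | succ a ih =>
      intro ha
      have h1 := ih (by omega)
      have h2 := hB (j - 1 - (a + 1)) (by omega) r (by
        have h4 : (j - 1 - (a + 1) + 1) * M ≤ j * M := Nat.mul_le_mul_right _ (by omega)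
        have h5 : 0 < (j - 1 - (a + 1) + 1) * M := by positivity
        omega) hrlt
      have h6 : j - 1 - (a + 1) + 1 = j - 1 - a := by omega
      rw [h6] at h2
      have h3 : 0 ≤ lam (j - 1 - a) * H (j - 1 - a) r :=
        (mul_pos (hlpos _ (by omega)) (hpos _ r (by omega) hrlt)).le
      calc lam (j - 1 - (a + 1)) * H (j - 1 - (a + 1)) r
          ≤ ε * (lam (j - 1 - a) * H (j - 1 - a) r) := h2
        _ ≤ 1 * (lam (j - 1 - a) * H (j - 1 - a) r) := by
          apply mul_le_mul_of_nonneg_right hε1 h3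
        _ ≤ _ := by rw [one_mul]; exact h1
  intro i hi hij
  rcases lt_or_gt_of_ne hij with h | h
  · have := down (j - 1 - i) (by omega)
    have e : j - 1 - (j - 1 - i) = i := by omega
    rwa [e] at this
  · have := up (i - (j + 1)) (by omega)
    have e : j + 1 + (i - (j + 1)) = i := by omega
    rwa [e] at this

/-- the determinant of the points with indices `e 0, ..., e (k-1)`, `a`, and the last ones -/
noncomputable def HH {d : ℕ} (Φ : (Fin (d + 1) → ℝ) [⋀^Fin (d + 1)]→ₗ[ℝ] ℝ)
    (p : ℕ → (Fin (d + 1) → ℝ)) (e : ℕ → ℕ) (L k a : ℕ) : ℝ :=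
  Φ (fun t : Fin (d + 1) => p (if (t : ℕ) < k then e t else if (t : ℕ) = k then a
    else e (L + t - 1)))

theorem clusters (d M : ℕ) (hM : 1 ≤ M) (ε : ℝ) (hε : 0 < ε) (hε1 : ε ≤ 1) :
    ∃ N : ℕ, ∀ S : Finset (Fin d → ℝ), GeneralPosition d S → N ≤ S.card →
      ∃ (G : ℕ → Finset (Fin d → ℝ)) (h : ℕ → ((Fin (d + 1) → ℝ) →ₗ[ℝ] ℝ)),
        (∀ j, j ≤ d → G j ⊆ S ∧ (G j).card = M) ∧
        (∀ i j, i ≤ d → j ≤ d → i ≠ j → Disjoint (G i) (G j)) ∧
        ∀ j, j ≤ d → ∀ s ∈ G j, 0 < h j (hat s) ∧
          ∀ i, i ≤ d → i ≠ j → 0 ≤ h i (hat s) ∧ h i (hat s) ≤ ε * h j (hat s) := by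
  classical
  have hCpos : (0 : ℝ) < 1 / ε ^ 2 := by positivity
  set L : ℕ := d + (d + 1) * M with hL
  obtain ⟨N1, hN1⟩ := homog d (1 / ε ^ 2) hCpos d le_rfl (L + d)
  obtain ⟨N2, hN2⟩ := ramsey_seq (d + 1) N1
  refine ⟨N2, fun S hS hcard => ?_⟩
  -- enumerate the points
  set pts : ℕ → (Fin d → ℝ) := fun i => if h : i < S.card then (S.equivFin.symm ⟨i, h⟩ : S) else 0
    with hpts
  have hmem : ∀ i, i < S.card → pts i ∈ S := by
    intro i hi
    simp only [hpts, hi, dif_pos]
    exact (S.equivFin.symm ⟨i, hi⟩).2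
  have hinj : ∀ i j, i < S.card → j < S.card → pts i = pts j → i = j := by
    intro i j hi hj hij
    simp only [hpts, hi, hj, dif_pos] at hij
    have := S.equivFin.symm.injective (Subtype.ext hij)
    simpa using this
  set p : ℕ → (Fin (d + 1) → ℝ) := fun i => hat (pts i) with hp
  set Ψ : (Fin (d + 1) → ℝ) [⋀^Fin (d + 1)]→ₗ[ℝ] ℝ := Matrix.detRowAlternating with hΨ
  have hne : ∀ f, Inc (d + 1) (Finset.range S.card) f →
      Ψ (fun t : Fin (d + 1) => p (f t)) ≠ 0 := by
    intro f hf
    apply det_ne_zero hS (fun t : Fin (d + 1) => pts (f t))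
    · intro t
      exact hmem _ (Finset.mem_range.1 (hf.2 t t.2))
    · intro a b hab
      have ha := Finset.mem_range.1 (hf.2 a a.2)
      have hb := Finset.mem_range.1 (hf.2 b b.2)
      have := hinj _ _ ha hb hab
      rcases lt_trichotomy a b with h | h | h
      · exact absurd this (hf.1 a b h b.2).ne
      · exact h
      · exact absurd this.symm (hf.1 b a h a.2).ne
  obtain ⟨X, hX, hXc, hXs⟩ := hN2 (fun f => 0 < Ψ (fun t : Fin (d + 1) => p (f t)))
    (fun f g h => by
      have : (fun t : Fin (d + 1) => p (f t)) = (fun t : Fin (d + 1) => p (g t)) := by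
        funext t; rw [h t t.2]
      simp only [this]) (Finset.range S.card) (by simpa using hcard)
  obtain ⟨Φ, hΦ⟩ : ∃ Φ : (Fin (d + 1) → ℝ) [⋀^Fin (d + 1)]→ₗ[ℝ] ℝ,
      ∀ f, Inc (d + 1) X f → 0 < Φ (fun t : Fin (d + 1) => p (f t)) := by
    rcases hXs with h | h
    · exact ⟨Ψ, h⟩
    · refine ⟨-Ψ, fun f hf => ?_⟩
      have h1 := h f hf
      have h2 := hne f (hf.mono hX)
      rw [AlternatingMap.neg_apply]
      rw [not_lt] at h1
      have := lt_of_le_of_ne h1 h2
      linarith
  obtain ⟨Z, hZ, hZc, hQ⟩ := hN1 Φ p X hXc.ge hΦ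
  obtain ⟨e, he⟩ := exists_enum Z
  rw [hZc] at he
  have hZS : ∀ i, i < L + d → e i < S.card := fun i hi =>
    Finset.mem_range.1 (hX (hZ (he.2 i hi)))
  -- positivity of the functions
  have hHpos : ∀ k r, k ≤ d → r < (d + 1) * M → 0 < HH Φ p e L k (e (d + r)) := by
    intro k r hk hr
    unfold HH
    refine hΦ (fun t => if t < k then e t else if t = k then e (d + r) else e (L + t - 1)) ?_
    apply Inc.mono hZ
    constructor
    · intro a b hab hb
      simp only
      split_ifs <;> first | omega | (apply he.1 <;> omega)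
    · intro a ha
      simp only
      split_ifs <;> (apply he.2; omega)
  -- cross ratios
  have hcr : ∀ k r r', k < d → r < r' → r' < (d + 1) * M →
      (1 / ε ^ 2) * (HH Φ p e L (k + 1) (e (d + r)) * HH Φ p e L k (e (d + r'))) ≤
        HH Φ p e L (k + 1) (e (d + r')) * HH Φ p e L k (e (d + r)) := by
    intro k r r' hk hr hr'
    set f : ℕ → ℕ := fun t => if t ≤ k then e t else if t = k + 1 then e (d + r)
      else if t = k + 2 then e (d + r') else e (L + t - 3) with hf
    have hInc : Inc (d + 3) Z f := by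
      constructor
      · intro a b hab hb
        simp only [hf]
        split_ifs <;> first | omega | (apply he.1 <;> omega)
      · intro a ha
        simp only [hf]
        split_ifs <;> (apply he.2; omega)
    have h := hQ k hk hk f hInc
    unfold QQ at h
    have f0 : f k = e k := by simp [hf]
    have f1 : f (k + 1) = e (d + r) := by simp [hf]
    have f2 : f (k + 2) = e (d + r') := by simp [hf]
    have f3 : f (k + 3) = e (L + k) := by
      have a1 : ¬ k + 3 ≤ k := by omega
      have a2 : ¬ k + 3 = k + 1 := by omega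
      have a3 : ¬ k + 3 = k + 2 := by omega
      simp only [hf, a1, a2, a3, if_false]
      congr 1
    have g1 : ∀ x, BB Φ p (ctx k f) k hk (f k) x = HH Φ p e L (k + 1) x := by
      intro x
      unfold HH
      refine BB_eq Φ p (ctx k f) k hk _ _
        (fun t => if t < k + 1 then e t else if t = k + 1 then x else e (L + t - 1)) ?_ ?_ ?_
      · simp [hf]
      · simp
      · intro t ht h1 h2
        simp only [ctx, hf]
        rcases lt_or_gt_of_ne h1 with h | h
        · have a1 : t < k + 1 := by omega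
          have a2 : t ≤ k := by omega
          simp [h, a1, a2]
        · have a1 : ¬ t < k + 1 := by omega
          have a2 : ¬ t < k := by omega
          have a3 : ¬ t + 2 ≤ k := by omega
          have a4 : ¬ t + 2 = k + 1 := by omega
          have a5 : ¬ t + 2 = k + 2 := by omega
          simp only [a1, a2, a3, a4, a5, h2, if_false]
          congr 1
    have g2 : ∀ x, BB Φ p (ctx k f) k hk x (f (k + 3)) = HH Φ p e L k x := by
      intro x
      unfold HH
      refine BB_eq Φ p (ctx k f) k hk _ _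
        (fun t => if t < k then e t else if t = k then x else e (L + t - 1)) ?_ ?_ ?_
      · simp
      · rw [f3]
        have a1 : ¬ k + 1 < k := by omega
        have a2 : ¬ k + 1 = k := by omega
        simp only [a1, a2, if_false]
        congr 1
      · intro t ht h1 h2
        simp only [ctx, hf]
        rcases lt_or_gt_of_ne h1 with h | h
        · have a2 : t ≤ k := by omega
          simp [h, a2]
        · have a2 : ¬ t < k := by omega
          have a3 : ¬ t + 2 ≤ k := by omega
          have a4 : ¬ t + 2 = k + 1 := by omega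
          have a5 : ¬ t + 2 = k + 2 := by omega
          simp only [a2, a3, a4, a5, h1, if_false]
          congr 1
    rw [g1, g2, g1, g2, f1, f2] at h
    exact h
  obtain ⟨lam, hlam, hlam2⟩ := scaling d M hM ε hε hε1 (fun k r => HH Φ p e L k (e (d + r)))
    hHpos hcr
  -- the linear functionals
  set base : ℕ → Fin (d + 1) → (Fin (d + 1) → ℝ) :=
    fun k t => p (if (t : ℕ) < k then e t else e (L + t - 1)) with hbase
  set h : ℕ → ((Fin (d + 1) → ℝ) →ₗ[ℝ] ℝ) := fun k =>
    if hk : k < d + 1 then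
      lam k • Φ.toMultilinearMap.toLinearMap (base k) ⟨k, hk⟩ else 0 with hh
  have hval : ∀ k a, k ≤ d → h k (p a) = lam k * HH Φ p e L k a := by
    intro k a hk
    have hk' : k < d + 1 := by omega
    simp only [hh, hk', dif_pos, LinearMap.smul_apply, smul_eq_mul,
      MultilinearMap.toLinearMap_apply]
    congr 1
    unfold HH
    show Φ _ = Φ _
    congr 1
    funext t
    rcases eq_or_ne t ⟨k, hk'⟩ with h1 | h1
    · subst h1
      simp
    · rw [update_of_ne h1]
      have h2 : (t : ℕ) ≠ k := fun hh => h1 (Fin.ext hh)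
      simp only [hbase, h2, if_false]
  set G : ℕ → Finset (Fin d → ℝ) := fun j =>
    (Finset.Ico (j * M) ((j + 1) * M)).image (fun r => pts (e (d + r))) with hG
  have hbound : ∀ j r, j ≤ d → r < (j + 1) * M → r < (d + 1) * M := fun j r hj hr =>
    lt_of_lt_of_le hr (Nat.mul_le_mul_right _ (by omega))
  have hptinj : ∀ r r', r < (d + 1) * M → r' < (d + 1) * M →
      pts (e (d + r)) = pts (e (d + r')) → r = r' := by
    intro r r' hr hr' hrr
    have h1 := hinj _ _ (hZS (d + r) (by omega)) (hZS (d + r') (by omega)) hrr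
    rcases lt_trichotomy r r' with h | h | h
    · exact absurd h1 (he.1 (d + r) (d + r') (by omega) (by omega)).ne
    · exact h
    · exact absurd h1.symm (he.1 (d + r') (d + r) (by omega) (by omega)).ne
  refine ⟨G, h, ?_, ?_, ?_⟩
  · intro j hj
    constructor
    · intro x hx
      simp only [hG, Finset.mem_image, Finset.mem_Ico] at hx
      obtain ⟨r, ⟨_, hr⟩, rfl⟩ := hx
      apply hmem
      apply hZS
      have := hbound j r hj hr
      omega
    · simp only [hG]
      rw [Finset.card_image_of_injOn]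
      · rw [Nat.card_Ico, Nat.add_mul, one_mul]; omega
      · intro r hr r' hr' hrr
        simp only [Finset.coe_Ico, Set.mem_Ico] at hr hr'
        exact hptinj r r' (hbound j r hj hr.2) (hbound j r' hj hr'.2) hrr
  · intro i j hi hj hij
    rw [Finset.disjoint_left]
    intro x hx hx'
    simp only [hG, Finset.mem_image, Finset.mem_Ico] at hx hx'
    obtain ⟨r, ⟨hr1, hr2⟩, rfl⟩ := hx
    obtain ⟨r', ⟨hr1', hr2'⟩, hrr⟩ := hx'
    have := hptinj r' r (hbound j r' hj hr2') (hbound i r hi hr2) hrr
    subst this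
    rcases lt_or_gt_of_ne hij with h | h
    · have : (i + 1) * M ≤ j * M := Nat.mul_le_mul_right _ (by omega)
      omega
    · have : (j + 1) * M ≤ i * M := Nat.mul_le_mul_right _ (by omega)
      omega
  · intro j hj s hs
    simp only [hG, Finset.mem_image, Finset.mem_Ico] at hs
    obtain ⟨r, ⟨hr1, hr2⟩, rfl⟩ := hs
    have hr3 := hbound j r hj hr2
    have hv : ∀ i, i ≤ d → h i (hat (pts (e (d + r)))) = lam i * HH Φ p e L i (e (d + r)) :=
      fun i hi => hval i _ hi
    refine ⟨?_, ?_⟩
    · rw [hv j hj]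
      exact mul_pos (hlam j hj) (hHpos j r hj hr3)
    · intro i hi hij
      rw [hv i hi, hv j hj]
      exact ⟨(mul_pos (hlam i hi) (hHpos i r hi hr3)).le, hlam2 j hj r hr1 hr2 i hi hij⟩

end Pool.Agent.H1Tv
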