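import Mathlib

/-!
# Three-term Plücker relations for top-degree alternating maps
-/

namespace Pool.Agent.H1Tv

open Function

variable {n : ℕ}

/-- `Φ` evaluated at the tuple `c` whose entries at `i` and `j` are replaced by `x` and `y`. -/
noncomputable def Br (Φ : (Fin n → ℝ) [⋀^Fin n]→ₗ[ℝ] ℝ) (c : Fin n → (Fin n → ℝ)) (i j : Fin n)
    (x y : Fin n → ℝ) : ℝ :=
  Φ (update (update c i x) j y)

variable (Φ : (Fin n → ℝ) [⋀^Fin n]→ₗ[ℝ] ℝ) (c : Fin n → (Fin n → ℝ)) {i j : Fin n}

theorem Br_self (hij : i ≠ j) (x : Fin n → ℝ) : Br Φ c i j x x = 0 := by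
  unfold Br
  apply Φ.map_eq_zero_of_eq _ _ hij
  rw [update_self, update_of_ne hij, update_self]

/-- linear map in the first slot -/
noncomputable def BrL (i j : Fin n) (y : Fin n → ℝ) : (Fin n → ℝ) →ₗ[ℝ] ℝ :=
  Φ.toMultilinearMap.toLinearMap (update c j y) i

/-- linear map in the second slot -/
noncomputable def BrR (i j : Fin n) (x : Fin n → ℝ) : (Fin n → ℝ) →ₗ[ℝ] ℝ :=
  Φ.toMultilinearMap.toLinearMap (update c i x) j

theorem BrR_apply (x y : Fin n → ℝ) : BrR Φ c i j x y = Br Φ c i j x y := by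
  simp [BrR, Br, MultilinearMap.toLinearMap_apply]

theorem BrL_apply (hij : i ≠ j) (x y : Fin n → ℝ) : BrL Φ c i j y x = Br Φ c i j x y := by
  simp only [BrL, Br, MultilinearMap.toLinearMap_apply]
  rw [update_comm hij]
  rfl

theorem Br_add_left (hij : i ≠ j) (x x' y : Fin n → ℝ) :
    Br Φ c i j (x + x') y = Br Φ c i j x y + Br Φ c i j x' y := by
  rw [← BrL_apply Φ c hij, ← BrL_apply Φ c hij, ← BrL_apply Φ c hij, map_add]

theorem Br_add_right (x y y' : Fin n → ℝ) :
    Br Φ c i j x (y + y') = Br Φ c i j x y + Br Φ c i j x y' := by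
  rw [← BrR_apply, ← BrR_apply, ← BrR_apply, map_add]

theorem Br_swap (hij : i ≠ j) (x y : Fin n → ℝ) : Br Φ c i j y x = - Br Φ c i j x y := by
  have h := Br_self Φ c hij (x + y)
  rw [Br_add_left Φ c hij, Br_add_right, Br_add_right, Br_self Φ c hij, Br_self Φ c hij] at h
  linarith

theorem plucker (hij : i ≠ j) (p q r s : Fin n → ℝ) :
    Br Φ c i j p q * Br Φ c i j r s - Br Φ c i j p r * Br Φ c i j q s
      + Br Φ c i j p s * Br Φ c i j q r = 0 := by
  by_cases h0 : ∀ x y, Br Φ c i j x y = 0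
  · simp [h0]
  push Not at h0
  obtain ⟨p0, q0, hB⟩ := h0
  set t : Fin n → (Fin n → ℝ) := update (update c i p0) j q0 with ht
  have hli : LinearIndependent ℝ t := by
    by_contra hcon
    exact hB (Φ.map_linearDependent t hcon)
  set b := basisOfLinearIndependentOfCardEqFinrank' t hli (by simp) with hb
  have hbt : ∀ k, b k = t k := fun k => by simp [hb]
  have htj : t j = q0 := by simp [ht]
  have hti : t i = p0 := by rw [ht, update_of_ne hij, update_self]
  have htk : ∀ k, k ≠ i → k ≠ j → t k = c k := by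
    intro k hki hkj
    rw [ht, update_of_ne hkj, update_of_ne hki]
  have expL : ∀ x y, Br Φ c i j x y
      = b.repr x i * Br Φ c i j p0 y + b.repr x j * Br Φ c i j q0 y := by
    intro x y
    have hx : x = ∑ k, b.repr x k • b k := (b.sum_repr x).symm
    conv_lhs => rw [hx]
    rw [← BrL_apply Φ c hij, map_sum]
    rw [Finset.sum_eq_add i j hij]
    · rw [map_smul, map_smul, BrL_apply Φ c hij, BrL_apply Φ c hij, hbt, hbt, hti, htj]
      simp
    · intro k _ hk
      rw [map_smul, hbt, htk k hk.1 hk.2, BrL_apply Φ c hij]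
      have : Br Φ c i j (c k) y = 0 := by
        unfold Br
        apply Φ.map_eq_zero_of_eq _ _ hk.1
        rw [update_of_ne hk.2, update_of_ne hk.1, update_of_ne hij, update_self]
      rw [this, smul_zero]
    · intro h; exact absurd (Finset.mem_univ _) h
    · intro h; exact absurd (Finset.mem_univ _) h
  have formula : ∀ x y, Br Φ c i j x y
      = (b.repr x i * b.repr y j - b.repr x j * b.repr y i) * Br Φ c i j p0 q0 := by
    intro x y
    rw [expL x y]
    have h1 : Br Φ c i j p0 y = b.repr y j * Br Φ c i j p0 q0 := by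
      rw [Br_swap Φ c hij y p0, expL y p0, Br_self Φ c hij, Br_swap Φ c hij p0 q0]
      ring
    have h2 : Br Φ c i j q0 y = - b.repr y i * Br Φ c i j p0 q0 := by
      rw [Br_swap Φ c hij y q0, expL y q0, Br_self Φ c hij]
      ring
    rw [h1, h2]
    ring
  rw [formula p q, formula r s, formula p r, formula q s, formula p s, formula q r]
  ring

end Pool.Agent.H1Tv
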