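import Pool.Agent.H1Tv.Ramsey
import Pool.Agent.H1Tv.Chain
import Pool.Agent.H1Tv.Plucker

/-!
# Homogeneous sequences with large cross ratios
-/

namespace Pool.Agent.H1Tv

open Function

variable {d : ℕ}

/-- the bracket of the points number `x`, `y` put at the positions `k`, `k + 1` in the context `c` -/
noncomputable def BB (Φ : (Fin (d + 1) → ℝ) [⋀^Fin (d + 1)]→ₗ[ℝ] ℝ) (p : ℕ → (Fin (d + 1) → ℝ))
    (c : ℕ → ℕ) (k : ℕ) (hk : k < d) (x y : ℕ) : ℝ :=
  Br Φ (fun t : Fin (d + 1) => p (c t)) ⟨k, by omega⟩ ⟨k + 1, by omega⟩ (p x) (p y)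

theorem BB_eq (Φ : (Fin (d + 1) → ℝ) [⋀^Fin (d + 1)]→ₗ[ℝ] ℝ) (p : ℕ → (Fin (d + 1) → ℝ))
    (c : ℕ → ℕ) (k : ℕ) (hk : k < d) (x y : ℕ) (f : ℕ → ℕ)
    (hx : f k = x) (hy : f (k + 1) = y) (hf : ∀ t, t < d + 1 → t ≠ k → t ≠ k + 1 → f t = c t) :
    BB Φ p c k hk x y = Φ (fun t : Fin (d + 1) => p (f t)) := by
  unfold BB Br
  congr 1
  funext t
  rcases eq_or_ne t ⟨k + 1, by omega⟩ with h | h
  · subst h
    rw [update_self, hy]
  · rw [update_of_ne h]
    rcases eq_or_ne t ⟨k, by omega⟩ with h' | h'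
    · subst h'
      rw [update_self, hx]
    · rw [update_of_ne h']
      have h1 : (t : ℕ) ≠ k := fun hh => h' (Fin.ext hh)
      have h2 : (t : ℕ) ≠ k + 1 := fun hh => h (Fin.ext hh)
      rw [hf t t.2 h1 h2]

theorem BB_congr (Φ : (Fin (d + 1) → ℝ) [⋀^Fin (d + 1)]→ₗ[ℝ] ℝ) (p : ℕ → (Fin (d + 1) → ℝ))
    (c c' : ℕ → ℕ) (k : ℕ) (hk : k < d) (x y : ℕ)
    (h : ∀ t, t < d + 1 → t ≠ k → t ≠ k + 1 → c t = c' t) :
    BB Φ p c k hk x y = BB Φ p c' k hk x y := by
  rw [BB_eq Φ p c k hk x y (fun t => if t = k then x else if t = k + 1 then y else c t)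
    (by simp) (by simp) (fun t _ h1 h2 => by simp [h1, h2])]
  rw [BB_eq Φ p c' k hk x y (fun t => if t = k then x else if t = k + 1 then y else c t)
    (by simp) (by simp) (fun t h0 h1 h2 => by simp [h1, h2, h t h0 h1 h2])]

/-- the context defined by an increasing tuple of length `d + 3` -/
def ctx (k : ℕ) (f : ℕ → ℕ) : ℕ → ℕ := fun t => if t < k then f t else f (t + 2)

/-- the cross ratio condition at the position `k` -/
def QQ (C : ℝ) (Φ : (Fin (d + 1) → ℝ) [⋀^Fin (d + 1)]→ₗ[ℝ] ℝ) (p : ℕ → (Fin (d + 1) → ℝ))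
    (k : ℕ) (hk : k < d) (f : ℕ → ℕ) : Prop :=
  C * (BB Φ p (ctx k f) k hk (f k) (f (k + 1)) * BB Φ p (ctx k f) k hk (f (k + 2)) (f (k + 3))) ≤
    BB Φ p (ctx k f) k hk (f k) (f (k + 2)) * BB Φ p (ctx k f) k hk (f (k + 1)) (f (k + 3))

theorem QQ_local (C : ℝ) (Φ : (Fin (d + 1) → ℝ) [⋀^Fin (d + 1)]→ₗ[ℝ] ℝ)
    (p : ℕ → (Fin (d + 1) → ℝ)) (k : ℕ) (hk : k < d) (f g : ℕ → ℕ)
    (h : ∀ i, i < d + 3 → f i = g i) : QQ C Φ p k hk f ↔ QQ C Φ p k hk g := by
  have hc : ∀ x y, BB Φ p (ctx k f) k hk x y = BB Φ p (ctx k g) k hk x y := by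
    intro x y
    apply BB_congr
    intro t ht h1 h2
    unfold ctx
    split_ifs
    · exact h t (by omega)
    · exact h (t + 2) (by omega)
  unfold QQ
  rw [h k (by omega), h (k + 1) (by omega), h (k + 2) (by omega), h (k + 3) (by omega)]
  simp only [hc]

theorem no_bad (C : ℝ) (hC : 0 < C) (m : ℕ) (hm : 2 * C + 5 ≤ (m : ℝ))
    (Φ : (Fin (d + 1) → ℝ) [⋀^Fin (d + 1)]→ₗ[ℝ] ℝ)
    (p : ℕ → (Fin (d + 1) → ℝ)) (k : ℕ) (hk : k < d) (Z : Finset ℕ) (hZ : d + m + 1 ≤ Z.card)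
    (hpos : ∀ f, Inc (d + 1) Z f → 0 < Φ (fun t : Fin (d + 1) => p (f t)))
    (hbad : ∀ f, Inc (d + 3) Z f → ¬ QQ C Φ p k hk f) : False := by
  obtain ⟨e, he⟩ := exists_enum Z
  set c : ℕ → ℕ := fun t => if t < k then e t else e (t + m) with hc
  have key := bracket_chain C hC m (fun i j => BB Φ p c k hk (e (k + i)) (e (k + j))) ?_ ?_ ?_
  · linarith
  · intro i j l q _ _ _ _
    apply plucker
    intro h
    have := congrArg Fin.val h
    simp at this
  · intro i j hij hj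
    show 0 < BB Φ p c k hk (e (k + i)) (e (k + j))
    rw [BB_eq Φ p c k hk _ _ (fun t => if t = k then e (k + i) else if t = k + 1 then e (k + j)
      else c t) (by simp) (by simp) (fun t _ h1 h2 => by simp [h1, h2])]
    refine hpos (fun t => if t = k then e (k + i) else if t = k + 1 then e (k + j)
      else c t) ?_
    constructor
    · intro a b hab hb
      simp only [hc]
      split_ifs <;> first | omega | (apply he.1 <;> omega)
    · intro a ha
      simp only [hc]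
      split_ifs <;> (apply he.2; omega)
  · intro i j l q hij hjl hlq hq
    set f : ℕ → ℕ := fun t => if t < k then e t else if t = k then e (k + i)
      else if t = k + 1 then e (k + j) else if t = k + 2 then e (k + l)
      else if t = k + 3 then e (k + q) else e (t - 2 + m) with hf
    have hInc : Inc (d + 3) Z f := by
      constructor
      · intro a b hab hb
        simp only [hf]
        split_ifs <;> first | omega | (apply he.1 <;> omega)
      · intro a ha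
        simp only [hf]
        split_ifs <;> (apply he.2; omega)
    have hQ := hbad f hInc
    have hcc : ∀ x y, BB Φ p (ctx k f) k hk x y = BB Φ p c k hk x y := by
      intro x y
      apply BB_congr
      intro t ht h1 h2
      simp only [ctx, hc, hf]
      rcases lt_or_gt_of_ne h1 with h | h
      · simp [h]
      · have a1 : ¬ t < k := by omega
        have a2 : ¬ t + 2 < k := by omega
        have a3 : ¬ t + 2 = k := by omega
        have a4 : ¬ t + 2 = k + 1 := by omega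
        have a5 : ¬ t + 2 = k + 2 := by omega
        have a6 : ¬ t + 2 = k + 3 := by omega
        simp only [a1, a2, a3, a4, a5, a6, if_false]
        congr 1
    unfold QQ at hQ
    simp only [hcc] at hQ
    have f0 : f k = e (k + i) := by simp [hf]
    have f1 : f (k + 1) = e (k + j) := by simp [hf]
    have f2 : f (k + 2) = e (k + l) := by simp [hf]
    have f3 : f (k + 3) = e (k + q) := by simp [hf]
    rw [f0, f1, f2, f3] at hQ
    exact not_le.1 hQ

theorem homog (d : ℕ) (C : ℝ) (hC : 0 < C) (K : ℕ) : K ≤ d → ∀ M : ℕ, ∃ N : ℕ,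
    ∀ (Φ : (Fin (d + 1) → ℝ) [⋀^Fin (d + 1)]→ₗ[ℝ] ℝ) (p : ℕ → (Fin (d + 1) → ℝ)) (X : Finset ℕ),
      N ≤ X.card → (∀ f, Inc (d + 1) X f → 0 < Φ (fun t : Fin (d + 1) => p (f t))) →
      ∃ Z ⊆ X, Z.card = M ∧ ∀ k, k < K → ∀ (hk : k < d) (f : ℕ → ℕ), Inc (d + 3) Z f →
        QQ C Φ p k hk f := by
  induction K with
  | zero =>
    intro _ M
    refine ⟨M, fun Φ p X hX _ => ?_⟩
    obtain ⟨Z, hZ, hc⟩ := Finset.exists_subset_card_eq hX
    exact ⟨Z, hZ, hc, fun k hk => absurd hk (Nat.not_lt_zero k)⟩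
  | succ K ih =>
    intro hK M
    obtain ⟨m, hm⟩ := exists_nat_ge (2 * C + 5)
    obtain ⟨N1, hN1⟩ := ramsey_seq (d + 3) (max M (d + m + 1))
    obtain ⟨N2, hN2⟩ := ih (by omega) N1
    refine ⟨N2, fun Φ p X hX hpos => ?_⟩
    obtain ⟨Z1, hZ1, hc1, hq1⟩ := hN2 Φ p X hX hpos
    obtain ⟨Z2, hZ2, hc2, hq2⟩ := hN1 (fun f => QQ C Φ p K (by omega) f)
      (fun f g h => QQ_local C Φ p K (by omega) f g h) Z1 hc1.ge
    rcases hq2 with hq2 | hq2
    · obtain ⟨Z, hZ, hc⟩ := Finset.exists_subset_card_eq (show M ≤ Z2.card by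
        rw [hc2]; exact le_max_left _ _)
      refine ⟨Z, hZ.trans (hZ2.trans hZ1), hc, ?_⟩
      intro k hk hkd f hf
      rcases Nat.lt_succ_iff_lt_or_eq.1 hk with h | h
      · exact hq1 k h hkd f (hf.mono (hZ.trans hZ2))
      · subst h
        exact hq2 f (hf.mono hZ)
    · exfalso
      refine no_bad C hC m hm Φ p K (by omega) Z2 ?_ ?_ hq2
      · rw [hc2]; exact le_max_right _ _
      · intro f hf
        exact hpos f (hf.mono (hZ2.trans hZ1))

end Pool.Agent.H1Tv
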