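import Pool.Agent.H1Tv.Main

/-!
# Convex hulls of points on the moment curve and alternating sequences
-/

namespace Pool.Agent.H1Tv

open Polynomial

/-- the points of the moment curve -/
def gam (d : ℕ) (t : ℕ) : Fin d → ℝ := fun i => (t : ℝ) ^ ((i : ℕ) + 1)

/-- `X` and `Y` alternate along an increasing sequence of length `n`. -/
def Alt (X Y : Finset ℕ) (n : ℕ) : Prop :=
  ∃ z : ℕ → ℕ, ∀ i, i + 1 < n → z i < z (i + 1) ∧
    ((z i ∈ X ∧ z (i + 1) ∈ Y) ∨ (z i ∈ Y ∧ z (i + 1) ∈ X))

/-- a sign pattern is realised by a polynomial whose degree is the number of sign changes -/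
theorem exists_sign_poly (χ : ℕ → Bool) (T : Finset ℕ) : T.Nonempty →
    ∃ M ∈ T, (∀ t ∈ T, t ≤ M) ∧ ∃ (m : ℕ) (p : ℝ[X]) (z : ℕ → ℕ), p.natDegree ≤ m ∧
      (∀ i, i < m → z i < z (i + 1)) ∧ (∀ i, i ≤ m → z i ∈ T) ∧
      (∀ i, i < m → χ (z i) ≠ χ (z (i + 1))) ∧ χ (z m) = χ M ∧
      (∀ t ∈ T, (χ t = true → 0 < p.eval (t : ℝ)) ∧ (χ t = false → p.eval (t : ℝ) < 0)) ∧
      (∀ x : ℝ, (M : ℝ) ≤ x → (χ M = true → 0 < p.eval x) ∧ (χ M = false → p.eval x < 0)) := by
  induction T using Finset.induction_on_max with
  | empty => intro h; exact absurd h (by simp)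
  | insert a T' ha ih =>
    intro _
    rcases T'.eq_empty_or_nonempty with rfl | hT'
    · refine ⟨a, by simp, by simp, 0, C (if χ a then 1 else -1), fun _ => a, ?_, ?_, ?_, ?_, rfl,
        ?_, ?_⟩
      · simp
      · intro i hi; omega
      · intro i _; simp
      · intro i hi; omega
      · intro t ht
        simp only [insert_empty_eq, Finset.mem_singleton] at ht
        subst ht
        cases h : χ t <;> simp
      · intro x _
        cases h : χ a <;> simp
    · obtain ⟨M, hMT, hM, m, p, z, hp, hz, hzT, hzχ, hzM, hs, htail⟩ := ih hT'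
      have hMa : M < a := ha M hMT
      by_cases hχ : χ a = χ M
      · refine ⟨a, by simp, ?_, m, p, z, hp, hz, ?_, hzχ, ?_, ?_, ?_⟩
        · intro t ht
          rw [Finset.mem_insert] at ht
          rcases ht with rfl | ht
          · exact le_rfl
          · exact (ha t ht).le
        · intro i hi; exact Finset.mem_insert_of_mem (hzT i hi)
        · rw [hzM, hχ]
        · intro t ht
          rw [Finset.mem_insert] at ht
          rcases ht with rfl | ht
          · rw [hχ]
            exact htail t (by exact_mod_cast hMa.le)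
          · exact hs t ht
        · intro x hx
          rw [hχ]
          exact htail x (le_trans (by exact_mod_cast hMa.le) hx)
      · have hflip : ∀ x : ℝ, (a : ℝ) ≤ x → (χ a = true → 0 < (p * (C ((M : ℝ) + 1 / 2) - X)).eval x) ∧
            (χ a = false → (p * (C ((M : ℝ) + 1 / 2) - X)).eval x < 0) := by
          intro x hx
          have h1 : (M : ℝ) + 1 ≤ a := by exact_mod_cast hMa
          have h2 : (M : ℝ) + 1 / 2 - x < 0 := by linarith
          have h3 := htail x (by linarith)
          have he : (p * (C ((M : ℝ) + 1 / 2) - X)).eval x = p.eval x * ((M : ℝ) + 1 / 2 - x) := by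
            simp
          rw [he]
          constructor
          · intro h
            have : χ M = false := by
              cases hM' : χ M
              · rfl
              · rw [h, hM'] at hχ; exact absurd rfl hχ
            exact mul_pos_of_neg_of_neg (h3.2 this) h2
          · intro h
            have : χ M = true := by
              cases hM' : χ M
              · rw [h, hM'] at hχ; exact absurd rfl hχ
              · rfl
            exact mul_neg_of_pos_of_neg (h3.1 this) h2
        refine ⟨a, by simp, ?_, m + 1, p * (C ((M : ℝ) + 1 / 2) - X),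
          fun i => if i ≤ m then z i else a, ?_, ?_, ?_, ?_, ?_, ?_, hflip⟩
        · intro t ht
          rw [Finset.mem_insert] at ht
          rcases ht with rfl | ht
          · exact le_rfl
          · exact (ha t ht).le
        · refine (natDegree_mul_le).trans ?_
          have : (C ((M : ℝ) + 1 / 2) - X : ℝ[X]).natDegree ≤ 1 := by
            compute_degree
          omega
        · intro i hi
          by_cases h : i = m
          · subst h
            have h2 : ¬ i + 1 ≤ i := by omega
            simp only [le_refl, if_true, h2, if_false]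
            exact ha _ (hzT i le_rfl)
          · have h1 : i ≤ m := by omega
            have h2 : i + 1 ≤ m := by omega
            simp only [h1, h2, if_true]
            exact hz i (by omega)
        · intro i hi
          simp only
          split_ifs with h
          · exact Finset.mem_insert_of_mem (hzT i h)
          · exact Finset.mem_insert_self _ _
        · intro i hi
          by_cases h : i = m
          · subst h
            have h2 : ¬ i + 1 ≤ i := by omega
            simp only [le_refl, if_true, h2, if_false]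
            rw [hzM]
            exact fun h => hχ h.symm
          · have h1 : i ≤ m := by omega
            have h2 : i + 1 ≤ m := by omega
            simp only [h1, h2, if_true]
            exact hzχ i (by omega)
        · have h2 : ¬ m + 1 ≤ m := by omega
          simp only [h2, if_false]
        · intro t ht
          rw [Finset.mem_insert] at ht
          rcases ht with rfl | ht
          · exact hflip t le_rfl
          · have h1 : (t : ℝ) ≤ M := by exact_mod_cast hM t ht
            have h2 : 0 < (M : ℝ) + 1 / 2 - t := by linarith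
            have he : (p * (C ((M : ℝ) + 1 / 2) - X)).eval (t : ℝ)
                = p.eval (t : ℝ) * ((M : ℝ) + 1 / 2 - t) := by
              simp
            rw [he]
            exact ⟨fun h => mul_pos ((hs t ht).1 h) h2, fun h => mul_neg_of_neg_of_pos ((hs t ht).2 h) h2⟩

/-- the polynomial of an affine function on the moment curve -/
theorem exists_poly_of_linear (d : ℕ) (f : (Fin d → ℝ) →ₗ[ℝ] ℝ) (c : ℝ) :
    ∃ q : ℝ[X], q.natDegree ≤ d ∧ (∀ t : ℕ, q.eval (t : ℝ) = f (gam d t) - c) ∧
      (q = 0 → f = 0 ∧ c = 0) := by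
  refine ⟨∑ i : Fin d, C (f (Pi.single i 1)) * X ^ ((i : ℕ) + 1) - C c, ?_, ?_, ?_⟩
  · refine (natDegree_sub_le _ _).trans ?_
    rw [natDegree_C, max_le_iff]
    refine ⟨?_, by omega⟩
    apply natDegree_sum_le_of_forall_le
    intro i _
    refine (natDegree_C_mul_X_pow_le _ _).trans ?_
    have := i.2
    omega
  · intro t
    have h1 : gam d t = ∑ i : Fin d, ((t : ℝ) ^ ((i : ℕ) + 1)) • (Pi.single i (1 : ℝ) : Fin d → ℝ) := by
      funext j
      simp [gam, Finset.sum_apply, Pi.single_apply]
    rw [eval_sub, eval_C, eval_finsetSum, h1, map_sum]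
    congr 1
    apply Finset.sum_congr rfl
    intro i _
    rw [map_smul, eval_mul, eval_C, eval_pow, eval_X, smul_eq_mul, mul_comm]
  · intro hq
    have hcoef : ∀ j : Fin d, f (Pi.single j 1) = 0 := by
      intro j
      have := congrArg (fun q => q.coeff ((j : ℕ) + 1)) hq
      simp only [coeff_sub, finsetSum_coeff, coeff_C_mul, coeff_X_pow, coeff_zero] at this
      rw [coeff_C_of_ne_zero (by omega), sub_zero] at this
      rw [Finset.sum_eq_single j] at this
      · simpa using this
      · intro i _ hij
        have : (j : ℕ) + 1 ≠ (i : ℕ) + 1 := by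
          intro h
          apply hij
          apply Fin.ext
          omega
        rw [if_neg this, mul_zero]
      · simp
    have hf : f = 0 := by
      apply LinearMap.pi_ext'
      intro i
      ext
      simpa using hcoef i
    refine ⟨hf, ?_⟩
    have := congrArg (fun q => q.coeff 0) hq
    simpa [hf, finsetSum_coeff] using this

theorem not_disjoint_of_alt (d : ℕ) (X Y : Finset ℕ) (h : Alt X Y (d + 2)) :
    (convexHull ℝ (gam d '' (X : Set ℕ)) ∩ convexHull ℝ (gam d '' (Y : Set ℕ))).Nonempty := by
  by_contra hcon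
  rw [Set.not_nonempty_iff_eq_empty, ← Set.disjoint_iff_inter_eq_empty] at hcon
  obtain ⟨f, u, v, hf1, huv, hf2⟩ := geometric_hahn_banach_compact_closed
    (convex_convexHull ℝ (gam d '' (X : Set ℕ)))
    ((X.finite_toSet.image _).isCompact_convexHull ℝ)
    (convex_convexHull ℝ (gam d '' (Y : Set ℕ)))
    ((Y.finite_toSet.image _).isClosed_convexHull ℝ) hcon
  obtain ⟨q, hq, hqe, hq0⟩ := exists_poly_of_linear d (f : (Fin d → ℝ) →ₗ[ℝ] ℝ) u
  have hX : ∀ t ∈ X, q.eval (t : ℝ) < 0 := by
    intro t ht
    rw [hqe]
    have := hf1 (gam d t) (subset_convexHull ℝ _ ⟨t, ht, rfl⟩)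
    simpa using this
  have hY : ∀ t ∈ Y, 0 < q.eval (t : ℝ) := by
    intro t ht
    rw [hqe]
    have := hf2 (gam d t) (subset_convexHull ℝ _ ⟨t, ht, rfl⟩)
    have h2 : u < f (gam d t) := lt_trans huv this
    simpa using h2
  obtain ⟨z, hz⟩ := h
  have hroot : ∀ i : Fin (d + 1), ∃ r : ℝ, (z i : ℝ) < r ∧ r < (z (i + 1) : ℕ) ∧ q.eval r = 0 := by
    intro i
    obtain ⟨h1, h2⟩ := hz i (by have := i.2; omega)
    have hlt : (z i : ℝ) ≤ (z (i + 1) : ℕ) := by exact_mod_cast h1.le
    have hcont : ContinuousOn (fun x => q.eval x) (Set.Icc (z i : ℝ) (z (i + 1) : ℕ)) :=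
      q.continuous.continuousOn
    rcases h2 with ⟨ha, hb⟩ | ⟨ha, hb⟩
    · obtain ⟨r, hr, hr0⟩ := intermediate_value_Ioo hlt hcont ⟨hX _ ha, hY _ hb⟩
      exact ⟨r, hr.1, hr.2, hr0⟩
    · obtain ⟨r, hr, hr0⟩ := intermediate_value_Ioo' hlt hcont ⟨hX _ hb, hY _ ha⟩
      exact ⟨r, hr.1, hr.2, hr0⟩
  choose r hr1 hr2 hr0 using hroot
  have hmono : ∀ i j : Fin (d + 1), i < j → r i < r j := by
    have hzmono : ∀ a b : ℕ, a ≤ b → b < d + 2 → z a ≤ z b := by
      intro a b hab
      induction b, hab using Nat.le_induction with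
      | base => intro _; exact le_rfl
      | succ b _ ih =>
        intro hb
        exact (ih (by omega)).trans (hz b (by omega)).1.le
    intro i j hij
    have h1 := hr2 i
    have h2 := hr1 j
    have h3 : (z (i + 1) : ℝ) ≤ z j := by
      exact_mod_cast hzmono ((i : ℕ) + 1) j (by exact hij) (by have := j.2; omega)
    linarith
  have hinj : Function.Injective r := by
    intro i j hij
    rcases lt_trichotomy i j with h | h | h
    · exact absurd hij (hmono i j h).ne
    · exact h
    · exact absurd hij.symm (hmono j i h).ne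
  have hq00 : q = 0 := Polynomial.eq_zero_of_natDegree_lt_card_of_eval_eq_zero q hinj hr0
    (by simp; omega)
  obtain ⟨h1, h2⟩ := hz 0 (by omega)
  rcases h2 with ⟨ha, _⟩ | ⟨ha, _⟩
  · have := hX _ ha
    rw [hq00] at this
    simp at this
  · have := hY _ ha
    rw [hq00] at this
    simp at this

theorem exists_linear_of_poly (d : ℕ) (p : ℝ[X]) (hp : p.natDegree ≤ d) :
    ∃ f : (Fin d → ℝ) →ₗ[ℝ] ℝ, ∀ t : ℕ, p.eval (t : ℝ) = f (gam d t) + p.coeff 0 := by
  refine ⟨∑ i : Fin d, p.coeff ((i : ℕ) + 1) • LinearMap.proj i, fun t => ?_⟩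
  rw [eval_eq_sum_range' (Nat.lt_succ_of_le hp), Finset.sum_range_succ']
  congr 1
  · rw [Finset.sum_range]
    simp [gam]
  · simp

theorem alt_of_inter (d : ℕ) (X Y : Finset ℕ)
    (h : (convexHull ℝ (gam d '' (X : Set ℕ)) ∩ convexHull ℝ (gam d '' (Y : Set ℕ))).Nonempty)
    (hXY : Disjoint X Y) : Alt X Y (d + 2) := by
  classical
  by_contra hcon
  obtain ⟨x, hxX, hxY⟩ := h
  have hXne : (gam d '' (X : Set ℕ)).Nonempty := by
    rw [← convexHull_nonempty_iff (𝕜 := ℝ)]; exact ⟨x, hxX⟩
  obtain ⟨_, t0, ht0, _⟩ := hXne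
  obtain ⟨M, _, _, m, p, z, hp, hz, hzT, hzχ, _, hs, _⟩ :=
    exists_sign_poly (fun t => decide (t ∈ X)) (X ∪ Y) ⟨t0, Finset.mem_union_left _ ht0⟩
  have hm : m ≤ d := by
    by_contra hm
    apply hcon
    refine ⟨z, fun i hi => ⟨hz i (by omega), ?_⟩⟩
    have h1 := Finset.mem_union.1 (hzT i (by omega))
    have h2 := Finset.mem_union.1 (hzT (i + 1) (by omega))
    have h3 := hzχ i (by omega)
    by_cases a : z i ∈ X
    · have b : z (i + 1) ∉ X := by
        intro b; simp [a, b] at h3
      exact Or.inl ⟨a, h2.resolve_left b⟩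
    · have b : z (i + 1) ∈ X := by
        by_contra b; simp [a, b] at h3
      exact Or.inr ⟨h1.resolve_left a, b⟩
  obtain ⟨f, hf⟩ := exists_linear_of_poly d p (hp.trans hm)
  have h1 : convexHull ℝ (gam d '' (X : Set ℕ)) ⊆ {y | - p.coeff 0 < f y} := by
    apply convexHull_min
    · rintro _ ⟨t, ht, rfl⟩
      have ht' : t ∈ X := ht
      have := (hs t (Finset.mem_union_left _ ht')).1 (by simpa using ht')
      rw [hf] at this
      show - p.coeff 0 < f (gam d t)
      linarith
    · exact convex_halfSpace_gt f.isLinear _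
  have h2 : convexHull ℝ (gam d '' (Y : Set ℕ)) ⊆ {y | f y < - p.coeff 0} := by
    apply convexHull_min
    · rintro _ ⟨t, ht, rfl⟩
      have ht' : t ∈ Y := ht
      have hn : t ∉ X := Finset.disjoint_right.1 hXY ht'
      have := (hs t (Finset.mem_union_right _ ht')).2 (by simpa using hn)
      rw [hf] at this
      show f (gam d t) < - p.coeff 0
      linarith
    · exact convex_halfSpace_lt f.isLinear _
  have h3 : - p.coeff 0 < f x := h1 hxX
  have h4 : f x < - p.coeff 0 := h2 hxY
  linarith

theorem gam_injective (d : ℕ) (hd : 1 ≤ d) : Function.Injective (gam d) := by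
  intro a b hab
  have := congrFun hab ⟨0, hd⟩
  simp only [gam, zero_add, pow_one] at this
  exact_mod_cast this

/-- the first `N` points of the moment curve -/
noncomputable def mom (d N : ℕ) : Finset (Fin d → ℝ) := by
  classical exact (Finset.range N).image (gam d)

theorem mom_card (d N : ℕ) (hd : 1 ≤ d) : (mom d N).card = N := by
  classical
  unfold mom
  rw [Finset.card_image_of_injective _ (gam_injective d hd), Finset.card_range]

theorem mom_general (d N : ℕ) : GeneralPosition d (mom d N) := by
  classical
  rintro T hT hTc ⟨f, c, hf, hfc⟩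
  obtain ⟨q, hq, hqe, hq0⟩ := exists_poly_of_linear d f c
  -- times of the points
  have h1 : ∀ x : T, ∃ t : ℕ, gam d t = x := by
    intro x
    have := hT x.2
    unfold mom at this
    rw [Finset.mem_image] at this
    obtain ⟨t, _, ht⟩ := this
    exact ⟨t, ht⟩
  choose τ hτ using h1
  have hinj : Function.Injective (fun x : T => (τ x : ℝ)) := by
    intro x y hxy
    have : τ x = τ y := by simpa using hxy
    apply Subtype.ext
    rw [← hτ x, ← hτ y, this]
  have hzero : q = 0 := by
    apply Polynomial.eq_zero_of_natDegree_lt_card_of_eval_eq_zero q hinj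
    · intro x
      rw [hqe, hτ, hfc _ x.2, sub_self]
    · rw [Fintype.card_coe, hTc]; omega
  exact hf (hq0 hzero).1

end Pool.Agent.H1Tv
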