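import Pool.Agent.H1Tv.Main
import Pool.Agent.H1Tv.Moment

/-!
# Clique complexes of interval graphs are `d`-Tverberg for all `d`
-/

namespace Pool.Agent.H1Tv

open Function

/-- A linear functional which is injective on a finite set. -/
theorem exists_functional {d : ℕ} (S : Finset (Fin d → ℝ)) :
    ∃ φ : (Fin d → ℝ) →ₗ[ℝ] ℝ, ∀ x ∈ S, ∀ y ∈ S, φ x = φ y → x = y := by
  classical
  set P := (S ×ˢ S).filter (fun p => p.1 ≠ p.2) with hP
  obtain ⟨φ, hφ⟩ := Module.exists_dual_forall_apply_ne_zero (K := ℝ) (M := Fin d → ℝ)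
    (fun p : P => p.1.1 - p.1.2) (fun p => by
      have h1 : (p : (Fin d → ℝ) × (Fin d → ℝ)) ∈ (S ×ˢ S).filter (fun p => p.1 ≠ p.2) := p.2
      exact sub_ne_zero.2 (Finset.mem_filter.1 h1).2)
  refine ⟨φ, fun x hx y hy hxy => ?_⟩
  by_contra hne
  have hmem : (x, y) ∈ P := by
    rw [hP, Finset.mem_filter, Finset.mem_product]
    exact ⟨⟨hx, hy⟩, hne⟩
  apply hφ ⟨(x, y), hmem⟩
  simp [hxy]

/-- Cutting a finite set into `f` consecutive blocks with at least `M` elements each. -/
theorem exists_blocks {d : ℕ} (S : Finset (Fin d → ℝ)) (φ : (Fin d → ℝ) →ₗ[ℝ] ℝ)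
    (hφ : ∀ x ∈ S, ∀ y ∈ S, φ x = φ y → x = y) (f M : ℕ) (hf : 0 < f) (hM : 0 < M)
    (hS : f * M ≤ S.card) :
    ∃ κ : (Fin d → ℝ) → ℕ, (∀ x, κ x < f) ∧ (∀ x y, φ x ≤ φ y → κ x ≤ κ y) ∧
      ∀ k, k < f → M ≤ (S.filter (fun x => κ x = k)).card := by
  classical
  set rk : (Fin d → ℝ) → ℕ := fun x => (S.filter (fun y => φ y < φ x)).card with hrk
  have hmono : ∀ x y, φ x ≤ φ y → rk x ≤ rk y := by
    intro x y hxy
    apply Finset.card_le_card
    intro z hz
    rw [Finset.mem_filter] at hz ⊢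
    exact ⟨hz.1, hz.2.trans_le hxy⟩
  have hstrict : ∀ x ∈ S, ∀ y, φ x < φ y → rk x < rk y := by
    intro x hx y hxy
    apply Finset.card_lt_card
    rw [Finset.ssubset_iff_of_subset]
    · exact ⟨x, by rw [Finset.mem_filter]; exact ⟨hx, hxy⟩, by simp⟩
    · intro z hz
      rw [Finset.mem_filter] at hz ⊢
      exact ⟨hz.1, hz.2.trans hxy⟩
  have hlt : ∀ x ∈ S, rk x < S.card := by
    intro x hx
    apply Finset.card_lt_card
    rw [Finset.ssubset_iff_of_subset (Finset.filter_subset _ _)]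
    exact ⟨x, hx, by simp⟩
  have hinj : Set.InjOn rk (S : Set (Fin d → ℝ)) := by
    intro x hx y hy hxy
    apply hφ x hx y hy
    rcases lt_trichotomy (φ x) (φ y) with h | h | h
    · exact absurd hxy (hstrict x hx y h).ne
    · exact h
    · exact absurd hxy (hstrict y hy x h).ne'
  have himg : S.image rk = Finset.range S.card := by
    apply Finset.eq_of_subset_of_card_le
    · intro z hz
      rw [Finset.mem_image] at hz
      obtain ⟨x, hx, rfl⟩ := hz
      exact Finset.mem_range.2 (hlt x hx)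
    · rw [Finset.card_range, Finset.card_image_of_injOn hinj]
  refine ⟨fun x => min (rk x / M) (f - 1), fun x => ?_, fun x y hxy => ?_, fun k hk => ?_⟩
  · have := min_le_right (rk x / M) (f - 1)
    show min (rk x / M) (f - 1) < f
    omega
  · exact min_le_min_right _ (Nat.div_le_div_right (hmono x y hxy))
  · show M ≤ (S.filter (fun x => min (rk x / M) (f - 1) = k)).card
    have h1 : (Finset.Ico (k * M) ((k + 1) * M)) ⊆
        (S.filter (fun x => min (rk x / M) (f - 1) = k)).image rk := by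
      intro z hz
      rw [Finset.mem_Ico] at hz
      have hz1 : z < S.card := by
        have : (k + 1) * M ≤ f * M := Nat.mul_le_mul_right _ hk
        omega
      have hz2 : z ∈ S.image rk := by rw [himg]; exact Finset.mem_range.2 hz1
      rw [Finset.mem_image] at hz2
      obtain ⟨x, hx, hxz⟩ := hz2
      rw [Finset.mem_image]
      refine ⟨x, ?_, hxz⟩
      rw [Finset.mem_filter]
      refine ⟨hx, ?_⟩
      have h2 : rk x / M = k := by
        rw [hxz]
        exact Nat.div_eq_of_lt_le hz.1 hz.2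
      rw [h2]
      omega
    have h2 := (Finset.card_le_card h1).trans Finset.card_image_le
    rw [Nat.card_Ico] at h2
    have h3 : (k + 1) * M - k * M = M := by
      rw [add_mul, one_mul]
      omega
    omega

theorem interval_tverberg {V : Type} [Fintype V] [Nonempty V] (K : Set (Finset V)) (l r : V → ℝ)
    (hlr : ∀ v, l v ≤ r v)
    (hK : ∀ F : Finset V, F ∈ K ↔ ∃ x, ∀ v ∈ F, l v ≤ x ∧ x ≤ r v) (d : ℕ) : IsTverberg K d := by
  classical
  set T : Finset ℝ := Finset.univ.image l with hT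
  set f := T.card with hf
  have hf0 : 0 < f := by
    rw [hf, Finset.card_pos]
    exact Finset.univ_nonempty.image l
  set n := Fintype.card V with hn
  set M := (d + 1) * (n * (d + 1)) + 1 with hM
  refine ⟨f * M, fun S _ hSN => ?_⟩
  obtain ⟨φ, hφ⟩ := exists_functional S
  obtain ⟨κ, hκ1, hκ2, hκ3⟩ := exists_blocks S φ hφ f M hf0 (by omega) hSN.le
  set e : Fin f ↪o ℝ := T.orderEmbOfFin rfl with he
  have heT : ∀ k, e k ∈ T := fun k => Finset.orderEmbOfFin_mem T rfl k
  have hesurj : ∀ t ∈ T, ∃ k, e k = t := by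
    intro t ht
    have := Finset.range_orderEmbOfFin T (rfl : T.card = T.card)
    have h2 : t ∈ Set.range e := by rw [he, this]; exact ht
    exact h2
  -- Tverberg points
  have hTv : ∀ k : Fin f, ∃ (c : Fin d → ℝ) (Y : ℕ → Finset (Fin d → ℝ)),
      (∀ i, i < n → Y i ⊆ S.filter (fun x => κ x = k)) ∧
      (∀ i i', i < n → i' < n → i ≠ i' → Disjoint (Y i) (Y i')) ∧
      ∀ i, i < n → c ∈ convexHull ℝ (Y i : Set (Fin d → ℝ)) := by
    intro k
    refine weak_tverberg d n _ ?_
    have := hκ3 k k.2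
    omega
  choose cp Y hY1 hY2 hY3 using hTv
  set idx : V → ℕ := fun v => (Fintype.equivFin V v : ℕ) with hidx
  have hidxlt : ∀ v, idx v < n := fun v => (Fintype.equivFin V v).2
  have hidxinj : ∀ u v, idx u = idx v → u = v := by
    intro u v huv
    exact (Fintype.equivFin V).injective (Fin.ext huv)
  -- default vertices
  have hdef : ∀ k : Fin f, ∃ w : V, l w = e k := by
    intro k
    have := heT k
    rw [hT, Finset.mem_image] at this
    obtain ⟨w, _, hw⟩ := this
    exact ⟨w, hw⟩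
  choose w hw using hdef
  set κ' : (Fin d → ℝ) → Fin f := fun x => ⟨κ x, hκ1 x⟩ with hκ'
  set good : (Fin d → ℝ) → V → Prop := fun x v =>
    l v ≤ e (κ' x) ∧ e (κ' x) ≤ r v ∧ x ∈ Y (κ' x) (idx v) with hgood
  set c : (Fin d → ℝ) → V := fun x => if h : ∃ v, good x v then h.choose else w (κ' x) with hc
  have hcmem : ∀ x, l (c x) ≤ e (κ' x) ∧ e (κ' x) ≤ r (c x) := by
    intro x
    by_cases h : ∃ v, good x v
    · have h1 : c x = h.choose := by simp only [hc, dif_pos h]
      rw [h1]
      exact ⟨h.choose_spec.1, h.choose_spec.2.1⟩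
    · have h1 : c x = w (κ' x) := by simp only [hc, dif_neg h]
      rw [h1]
      exact ⟨(hw _).le, (hw _).symm.le.trans (hlr _)⟩
  have hcgood : ∀ x v, good x v → c x = v := by
    intro x v hv
    have h : ∃ v, good x v := ⟨v, hv⟩
    have h1 : c x = h.choose := by simp only [hc, dif_pos h]
    rw [h1]
    by_contra hne
    have h2 := hY2 (κ' x) (idx h.choose) (idx v) (hidxlt _) (hidxlt _)
      (fun h3 => hne (hidxinj _ _ h3))
    exact (Finset.disjoint_left.1 h2) h.choose_spec.2.2 hv.2.2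
  -- the parts of the Tverberg partition lie in the classes
  have hpart : ∀ (k : Fin f) (v : V), l v ≤ e k → e k ≤ r v →
      (Y k (idx v) : Set (Fin d → ℝ)) ⊆ {s | s ∈ S ∧ c s = v} := by
    intro k v h1 h2 x hx
    have h3 := hY1 k (idx v) (hidxlt v) hx
    rw [Finset.mem_filter] at h3
    have h4 : κ' x = k := Fin.ext h3.2
    refine ⟨h3.1, hcgood x v ⟨by rw [h4]; exact h1, by rw [h4]; exact h2, by rw [h4]; exact hx⟩⟩
  refine ⟨c, fun v => ?_, fun F => ?_⟩
  · obtain ⟨k, hk⟩ := hesurj (l v) (by rw [hT]; exact Finset.mem_image_of_mem l (Finset.mem_univ v))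
    have h1 := hY3 k (idx v) (hidxlt v)
    have h2 : (Y k (idx v) : Set (Fin d → ℝ)).Nonempty := by
      rw [← convexHull_nonempty_iff (𝕜 := ℝ)]
      exact ⟨_, h1⟩
    obtain ⟨x, hx⟩ := h2
    have h3 := hpart k v hk.symm.le (hk.le.trans (hlr v)) hx
    exact ⟨x, h3.1, h3.2⟩
  · constructor
    · intro hF
      obtain ⟨x, hx⟩ := (hK F).1 hF
      rcases F.eq_empty_or_nonempty with rfl | hne
      · simp
      · obtain ⟨m, hmF, hm⟩ := Finset.exists_max_image F l hne
        obtain ⟨k, hk⟩ := hesurj (l m)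
          (by rw [hT]; exact Finset.mem_image_of_mem l (Finset.mem_univ m))
        refine ⟨cp k, ?_⟩
        rw [Set.mem_iInter₂]
        intro v hv
        refine convexHull_mono (hpart k v ?_ ?_) (hY3 k (idx v) (hidxlt v))
        · rw [hk]; exact hm v hv
        · rw [hk]; exact (hx m hmF).1.trans (hx v hv).2
    · rintro ⟨z, hz⟩
      rw [hK]
      rcases F.eq_empty_or_nonempty with rfl | hne
      · exact ⟨0, by simp⟩
      · obtain ⟨m, hmF, hm⟩ := Finset.exists_max_image F l hne
        obtain ⟨u, huF, hu⟩ := Finset.exists_min_image F r hne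
        refine ⟨l m, fun v hv => ⟨hm v hv, ?_⟩⟩
        refine le_trans ?_ (hu v hv)
        by_contra hcon
        rw [not_le] at hcon
        rw [Set.mem_iInter₂] at hz
        have hzu := hz u huF
        have hzm := hz m hmF
        have hne' : (S.filter (fun s => c s = u)).Nonempty := by
          have h1 : ({s | s ∈ S ∧ c s = u} : Set (Fin d → ℝ)).Nonempty := by
            rw [← convexHull_nonempty_iff (𝕜 := ℝ)]
            exact ⟨_, hzu⟩
          obtain ⟨s, hs⟩ := h1
          exact ⟨s, by rw [Finset.mem_filter]; exact hs⟩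
        obtain ⟨s0, hs0, hmax⟩ := Finset.exists_max_image _ φ hne'
        rw [Finset.mem_filter] at hs0
        have hA : convexHull ℝ {s | s ∈ S ∧ c s = u} ⊆ {x | φ x ≤ φ s0} := by
          apply convexHull_min
          · intro s hs
            exact hmax s (by rw [Finset.mem_filter]; exact hs)
          · exact convex_halfSpace_le φ.isLinear _
        have hB : convexHull ℝ {s | s ∈ S ∧ c s = m} ⊆ {x | φ s0 < φ x} := by
          apply convexHull_min
          · intro s hs
            rw [Set.mem_ofPred_eq]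
            by_contra hcon2
            rw [not_lt] at hcon2
            have h1 : κ' s ≤ κ' s0 := hκ2 s s0 hcon2
            have h2 : e (κ' s) ≤ e (κ' s0) := e.monotone h1
            have h3 := (hcmem s).1
            rw [hs.2] at h3
            have h4 := (hcmem s0).2
            rw [hs0.2] at h4
            linarith
          · exact convex_halfSpace_gt φ.isLinear _
        have h1 := hA hzu
        have h2 := hB hzm
        rw [Set.mem_ofPred_eq] at h1 h2
        linarith

/-- Convex hulls on the line. -/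
theorem mem_hull_one (A : Finset (Fin 1 → ℝ)) (a b : Fin 1 → ℝ) (ha : a ∈ A) (hb : b ∈ A)
    (hmin : ∀ x ∈ A, a 0 ≤ x 0) (hmax : ∀ x ∈ A, x 0 ≤ b 0) (z : Fin 1 → ℝ) :
    z ∈ convexHull ℝ (A : Set (Fin 1 → ℝ)) ↔ a 0 ≤ z 0 ∧ z 0 ≤ b 0 := by
  constructor
  · intro hz
    have h1 : convexHull ℝ (A : Set (Fin 1 → ℝ)) ⊆ {x | a 0 ≤ x 0} := by
      apply convexHull_min
      · intro x hx; exact hmin x hx
      · exact convex_halfSpace_ge (LinearMap.proj (R := ℝ) (φ := fun _ : Fin 1 => ℝ) 0).isLinear _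
    have h2 : convexHull ℝ (A : Set (Fin 1 → ℝ)) ⊆ {x | x 0 ≤ b 0} := by
      apply convexHull_min
      · intro x hx; exact hmax x hx
      · exact convex_halfSpace_le (LinearMap.proj (R := ℝ) (φ := fun _ : Fin 1 => ℝ) 0).isLinear _
    exact ⟨h1 hz, h2 hz⟩
  · rintro ⟨h1, h2⟩
    have h3 : z 0 ∈ segment ℝ (a 0) (b 0) := by
      rw [segment_eq_Icc (h1.trans h2)]
      exact ⟨h1, h2⟩
    obtain ⟨p, q, hp, hq, hpq, hz⟩ := h3
    have h4 : z ∈ segment ℝ a b := by
      refine ⟨p, q, hp, hq, hpq, ?_⟩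
      funext t
      have : t = 0 := Subsingleton.elim _ _
      rw [this]
      exact hz
    exact segment_subset_convexHull (by exact_mod_cast ha) (by exact_mod_cast hb) h4

/-- Every `1`-Tverberg complex is the clique complex of an interval graph, given by intervals. -/
theorem intervals_of_one {V : Type} (K : Set (Finset V)) (h : IsTverberg K 1) :
    ∃ l r : V → ℝ, (∀ v, l v ≤ r v) ∧
      ∀ F : Finset V, F ∈ K ↔ ∃ x, ∀ v ∈ F, l v ≤ x ∧ x ≤ r v := by
  classical
  obtain ⟨N, hN⟩ := h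
  obtain ⟨c, hc, hF⟩ := hN (mom 1 (N + 1)) (mom_general 1 (N + 1))
    (by rw [mom_card 1 (N + 1) le_rfl]; omega)
  set S := mom 1 (N + 1) with hS
  have hne : ∀ v, (S.filter (fun s => c s = v)).Nonempty := by
    intro v
    obtain ⟨s, hs, hsv⟩ := hc v
    exact ⟨s, by rw [Finset.mem_filter]; exact ⟨hs, hsv⟩⟩
  have hmin : ∀ v, ∃ a ∈ S.filter (fun s => c s = v), ∀ x ∈ S.filter (fun s => c s = v),
      a 0 ≤ x 0 := fun v => Finset.exists_min_image _ (fun x : Fin 1 → ℝ => x 0) (hne v)
  have hmax : ∀ v, ∃ b ∈ S.filter (fun s => c s = v), ∀ x ∈ S.filter (fun s => c s = v),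
      x 0 ≤ b 0 := fun v => Finset.exists_max_image _ (fun x : Fin 1 → ℝ => x 0) (hne v)
  choose a ha1 ha2 using hmin
  choose b hb1 hb2 using hmax
  have hhull : ∀ v (z : Fin 1 → ℝ), z ∈ convexHull ℝ {s | s ∈ S ∧ c s = v} ↔
      a v 0 ≤ z 0 ∧ z 0 ≤ b v 0 := by
    intro v z
    have h1 : ({s | s ∈ S ∧ c s = v} : Set (Fin 1 → ℝ)) =
        ((S.filter (fun s => c s = v) : Finset (Fin 1 → ℝ)) : Set (Fin 1 → ℝ)) := by
      ext s; simp
    rw [h1]
    exact mem_hull_one _ (a v) (b v) (ha1 v) (hb1 v) (ha2 v) (hb2 v) z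
  refine ⟨fun v => a v 0, fun v => b v 0, fun v => ha2 v _ (hb1 v), fun F => ?_⟩
  rw [hF F]
  constructor
  · rintro ⟨z, hz⟩
    rw [Set.mem_iInter₂] at hz
    exact ⟨z 0, fun v hv => (hhull v z).1 (hz v hv)⟩
  · rintro ⟨x, hx⟩
    refine ⟨fun _ => x, ?_⟩
    rw [Set.mem_iInter₂]
    intro v hv
    exact (hhull v _).2 (hx v hv)

end Pool.Agent.H1Tv
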