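import Mathlib

/-!
# A weak form of Tverberg's theorem, from Helly's and Carathéodory's theorems
-/

namespace Pool.Agent.H1Tv

/-- Centerpoint theorem: for `N > d`-ish many points there is a point in the convex hull of
every subset that misses at most `K` points, when `(d + 1) * K < N`. -/
theorem centerpoint (d K : ℕ) (X : Finset (Fin d → ℝ)) (hX : (d + 1) * K < X.card) :
    ∃ c : Fin d → ℝ, ∀ Y ⊆ X, X.card ≤ Y.card + K → c ∈ convexHull ℝ (Y : Set (Fin d → ℝ)) := by
  classical
  set F : Finset (Finset (Fin d → ℝ)) := X.powerset.filter (fun Y => X.card ≤ Y.card + K) with hF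
  have key : (⋂ Y ∈ F, convexHull ℝ (Y : Set (Fin d → ℝ))).Nonempty := by
    apply Convex.helly_theorem' (𝕜 := ℝ)
    · intro Y _
      exact convex_convexHull ℝ _
    · intro I hI hIc
      rw [Module.finrank_fin_fun] at hIc
      -- a common point of the members of `I`
      have : ∃ x ∈ X, ∀ Y ∈ I, x ∈ Y := by
        by_contra hcon
        push Not at hcon
        have hsub : X ⊆ I.biUnion (fun Y => X \ Y) := by
          intro x hx
          obtain ⟨Y, hY, hxY⟩ := hcon x hx
          rw [Finset.mem_biUnion]
          exact ⟨Y, hY, Finset.mem_sdiff.2 ⟨hx, hxY⟩⟩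
        have h1 := Finset.card_le_card hsub
        have h2 : (I.biUnion (fun Y => X \ Y)).card ≤ I.card * K := by
          apply Finset.card_biUnion_le_card_mul
          intro Y hY
          have hYF := hI hY
          rw [hF, Finset.mem_filter, Finset.mem_powerset] at hYF
          rw [Finset.card_sdiff_of_subset hYF.1]
          omega
        have h3 : I.card * K ≤ (d + 1) * K := Nat.mul_le_mul_right _ hIc
        omega
      obtain ⟨x, _, hx⟩ := this
      refine ⟨x, ?_⟩
      rw [Set.mem_iInter₂]
      intro Y hY
      exact subset_convexHull ℝ _ (hx Y hY)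
  obtain ⟨c, hc⟩ := key
  refine ⟨c, fun Y hY hYc => ?_⟩
  rw [Set.mem_iInter₂] at hc
  exact hc Y (by rw [hF, Finset.mem_filter, Finset.mem_powerset]; exact ⟨hY, hYc⟩)

/-- Weak Tverberg theorem. -/
theorem weak_tverberg (d r : ℕ) (X : Finset (Fin d → ℝ))
    (hX : (d + 1) * (r * (d + 1)) < X.card) :
    ∃ (c : Fin d → ℝ) (Y : ℕ → Finset (Fin d → ℝ)), (∀ i, i < r → Y i ⊆ X) ∧
      (∀ i j, i < r → j < r → i ≠ j → Disjoint (Y i) (Y j)) ∧
      ∀ i, i < r → c ∈ convexHull ℝ (Y i : Set (Fin d → ℝ)) := by
  classical
  obtain ⟨c, hc⟩ := centerpoint d (r * (d + 1)) X hX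
  refine ⟨c, ?_⟩
  have : ∀ k, k ≤ r → ∃ Y : ℕ → Finset (Fin d → ℝ), (∀ i, i < k → Y i ⊆ X) ∧
      (∀ i j, i < k → j < k → i ≠ j → Disjoint (Y i) (Y j)) ∧
      (∀ i, i < k → c ∈ convexHull ℝ (Y i : Set (Fin d → ℝ))) ∧
      ∀ i, i < k → (Y i).card ≤ d + 1 := by
    intro k
    induction k with
    | zero => intro _; exact ⟨fun _ => ∅, by simp⟩
    | succ k ih =>
      intro hk
      obtain ⟨Y, hY1, hY2, hY3, hY4⟩ := ih (by omega)
      set R : Finset (Fin d → ℝ) := X \ (Finset.range k).biUnion Y with hR
      have hRc : X.card ≤ R.card + r * (d + 1) := by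
        have h1 : ((Finset.range k).biUnion Y).card ≤ k * (d + 1) := by
          have := Finset.card_biUnion_le_card_mul (Finset.range k) Y (d + 1)
            (fun i hi => hY4 i (Finset.mem_range.1 hi))
          simpa using this
        have h2 : X.card - ((Finset.range k).biUnion Y).card ≤ R.card :=
          Finset.le_card_sdiff _ _
        have h3 : k * (d + 1) ≤ r * (d + 1) := Nat.mul_le_mul_right _ (by omega)
        omega
      have hcR := hc R (Finset.sdiff_subset) hRc
      obtain ⟨T, hTR, hcT, hTi⟩ : ∃ T : Finset (Fin d → ℝ), (T : Set (Fin d → ℝ)) ⊆ R ∧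
          c ∈ convexHull ℝ (T : Set (Fin d → ℝ)) ∧
          AffineIndependent ℝ ((↑) : T → (Fin d → ℝ)) :=
        ⟨_, Caratheodory.minCardFinsetOfMemConvexHull_subseteq hcR,
          Caratheodory.mem_minCardFinsetOfMemConvexHull hcR,
          Caratheodory.affineIndependent_minCardFinsetOfMemConvexHull hcR⟩
      have hTc : T.card ≤ d + 1 := by
        have h1 := hTi.card_le_finrank_succ
        have h2 := Submodule.finrank_le (vectorSpan ℝ (Set.range ((↑) : T → (Fin d → ℝ))))
        rw [Module.finrank_fin_fun] at h2
        rw [Fintype.card_coe] at h1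
        exact h1.trans (Nat.add_le_add_right h2 1)
      have hTR' : T ⊆ R := by exact_mod_cast hTR
      have hTd : ∀ i, i < k → Disjoint (Y i) T := by
        intro i hi
        rw [Finset.disjoint_right]
        intro x hx hxi
        have := hTR' hx
        rw [hR, Finset.mem_sdiff, Finset.mem_biUnion] at this
        exact this.2 ⟨i, Finset.mem_range.2 hi, hxi⟩
      refine ⟨fun i => if i < k then Y i else T, ?_, ?_, ?_, ?_⟩
      · intro i hi
        by_cases h : i < k
        · simp only [h, if_true]; exact hY1 i h
        · simp only [h, if_false]; exact hTR'.trans Finset.sdiff_subset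
      · intro i j hi hj hij
        by_cases h : i < k
        · by_cases h' : j < k
          · simp only [h, h', if_true]; exact hY2 i j h h' hij
          · simp only [h, h', if_true, if_false]; exact hTd i h
        · by_cases h' : j < k
          · simp only [h, h', if_true, if_false]; exact (hTd j h').symm
          · omega
      · intro i hi
        by_cases h : i < k
        · simp only [h, if_true]; exact hY3 i h
        · simp only [h, if_false]; exact hcT
      · intro i hi
        by_cases h : i < k
        · simp only [h, if_true]; exact hY4 i h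
        · simp only [h, if_false]; exact hTc
  obtain ⟨Y, h1, h2, h3, _⟩ := this r le_rfl
  exact ⟨Y, h1, h2, h3⟩

end Pool.Agent.H1Tv
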