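import Pool.Agent.H1Tv.Clusters
import Pool.Agent.H1Tv.WeakTverberg

/-!
# Every finite simplicial complex is `d`-Tverberg for all large `d`
-/

namespace Pool.Agent.H1Tv

open Function Filter Topology

/-- `K` is (the set of faces of) an abstract simplicial complex with vertex set `V`. -/
structure IsComplex {V : Type} (K : Set (Finset V)) : Prop where
  singleton_mem : ∀ v : V, {v} ∈ K
  down_closed : ∀ A B : Finset V, A ⊆ B → B ∈ K → A ∈ K

/-- `K` is partition induced on `S`: there is a partition of `S` into nonempty classes `C v`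
(`v ∈ V`) such that for every set `F` of vertices the convex hulls of the classes `C v`, `v ∈ F`,
have a common point if and only if `F` is a face of `K`. -/
def PartitionInduced {V : Type} (K : Set (Finset V)) {d : ℕ} (S : Finset (Fin d → ℝ)) : Prop :=
  ∃ c : (Fin d → ℝ) → V, (∀ v, ∃ s ∈ S, c s = v) ∧
    ∀ F : Finset V, F ∈ K ↔ (⋂ v ∈ F, convexHull ℝ {s | s ∈ S ∧ c s = v}).Nonempty

/-- `K` is `d`-Tverberg. -/
def IsTverberg {V : Type} (K : Set (Finset V)) (d : ℕ) : Prop :=
  ∃ N : ℕ, ∀ S : Finset (Fin d → ℝ), GeneralPosition d S → N < S.card → PartitionInduced K S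

theorem convex_pos {d : ℕ} (l : (Fin (d + 1) → ℝ) →ₗ[ℝ] ℝ) :
    Convex ℝ {x : Fin d → ℝ | 0 < l (hat x)} := by
  intro x hx y hy a b ha hb hab
  simp only [Set.mem_ofPred_eq] at hx hy ⊢
  have h1 : hat (a • x + b • y) = a • hat x + b • hat y := by
    funext t
    refine Fin.cases ?_ ?_ t
    · simp [hat, hab]
    · intro i; simp [hat]
  rw [h1, map_add, map_smul, map_smul, smul_eq_mul, smul_eq_mul]
  rcases eq_or_lt_of_le ha with h | h
  · subst h
    have : b = 1 := by linarith
    subst this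
    simpa using hy
  · have := mul_pos h hx
    have := mul_nonneg hb hy.le
    linarith

theorem eventually_ne_pos (x : ℝ) : ∀ᶠ δ in 𝓝[>] (0 : ℝ), δ ≠ x := by
  rcases le_or_gt x 0 with h | h
  · filter_upwards [self_mem_nhdsWithin] with δ hδ
    exact (lt_of_le_of_lt h hδ).ne'
  · filter_upwards [Ioo_mem_nhdsGT h] with δ hδ
    exact hδ.2.ne

theorem eventually_affine_ne (a b : ℝ) (hb : b ≠ 0) : ∀ᶠ δ in 𝓝[>] (0 : ℝ), a + δ * b ≠ 0 := by
  filter_upwards [eventually_ne_pos (-a / b)] with δ hδ h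
  apply hδ
  rw [eq_div_iff hb]
  linarith

theorem eventually_affine_pos (a b : ℝ) (ha : 0 < a) : ∀ᶠ δ in 𝓝[>] (0 : ℝ), 0 < a + δ * b := by
  have h1 : Tendsto (fun δ : ℝ => a + δ * b) (𝓝 0) (𝓝 (a + 0 * b)) := by
    apply Continuous.tendsto
    fun_prop
  have h2 : 0 < a + 0 * b := by simpa using ha
  exact (h1.eventually (lt_mem_nhds h2)).filter_mono nhdsWithin_le_nhds

theorem core {V : Type} [Fintype V] [Nonempty V] (K : Set (Finset V)) (hK : IsComplex K) (d : ℕ)
    (Fj : ℕ → Finset V) (hF : ∀ j, j ≤ d → Fj j ∈ K)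
    (hcov : ∀ F ∈ K, ∃ j, j ≤ d ∧ F ⊆ Fj j) : IsTverberg K d := by
  classical
  set n := Fintype.card V with hn
  have hn0 : 0 < n := Fintype.card_pos
  set ε : ℝ := 1 / ((n : ℝ) * ((d : ℝ) + 1) + 1) with hε
  have hden : (0 : ℝ) < (n : ℝ) * ((d : ℝ) + 1) + 1 := by positivity
  have hεpos : 0 < ε := by rw [hε]; positivity
  have hε1 : ε ≤ 1 := by
    rw [hε, div_le_one hden]
    have : (0 : ℝ) ≤ (n : ℝ) * ((d : ℝ) + 1) := by positivity
    linarith
  have hεn : (n : ℝ) * ((d : ℝ) + 1) * ε < 1 := by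
    rw [hε, mul_one_div, div_lt_one hden]
    linarith
  obtain ⟨N, hN⟩ := clusters d ((d + 1) * (n * (d + 1)) + 1) (by omega) ε hεpos hε1
  refine ⟨N, fun S hS hSN => ?_⟩
  obtain ⟨G, h, hG, hGd, hh⟩ := hN S hS hSN.le
  -- Tverberg points
  have hT : ∀ j, ∃ (c : Fin d → ℝ) (Y : ℕ → Finset (Fin d → ℝ)), j ≤ d →
      (∀ i, i < n → Y i ⊆ G j) ∧ (∀ i i', i < n → i' < n → i ≠ i' → Disjoint (Y i) (Y i')) ∧
      ∀ i, i < n → c ∈ convexHull ℝ (Y i : Set (Fin d → ℝ)) := by
    intro j
    by_cases hj : j ≤ d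
    · obtain ⟨c, Y, h1, h2, h3⟩ := weak_tverberg d n (G j) (by rw [(hG j hj).2]; omega)
      exact ⟨c, Y, fun _ => ⟨h1, h2, h3⟩⟩
    · exact ⟨0, fun _ => ∅, fun h => absurd h hj⟩
  choose cp Y hY using hT
  set idx : V → ℕ := fun v => (Fintype.equivFin V v : ℕ) with hidx
  have hidxlt : ∀ v, idx v < n := fun v => (Fintype.equivFin V v).2
  have hidxinj : ∀ u v, idx u = idx v → u = v := by
    intro u v huv
    exact (Fintype.equivFin V).injective (Fin.ext huv)
  -- the unperturbed functionals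
  set X : V → ((Fin (d + 1) → ℝ) →ₗ[ℝ] ℝ) := fun v =>
    ∑ j ∈ Finset.range (d + 1), if v ∈ Fj j then h j else 0 with hX
  have hXv : ∀ v s, X v s = ∑ j ∈ Finset.range (d + 1), if v ∈ Fj j then h j s else 0 := by
    intro v s
    simp only [hX, LinearMap.sum_apply]
    apply Finset.sum_congr rfl
    intro j _
    split_ifs <;> simp
  have hempty : (∅ : Finset V) ∈ K :=
    hK.down_closed ∅ {Classical.arbitrary V} (Finset.empty_subset _) (hK.singleton_mem _)
  -- key inequality on the groups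
  have hkey : ∀ j, j ≤ d → ∀ s ∈ G j, ∀ v ∈ Fj j, ∀ F : Finset V, F ∉ K → v ∈ F →
      0 < (F.card : ℝ) * X v (hat s) - ∑ u ∈ F, X u (hat s) := by
    intro j hj s hs v hv F hFK hvF
    obtain ⟨ha, hi⟩ := hh j hj s hs
    set a := h j (hat s) with hadef
    have hlow : a ≤ X v (hat s) := by
      rw [hXv]
      have hmem : j ∈ Finset.range (d + 1) := Finset.mem_range.2 (by omega)
      have := Finset.single_le_sum (f := fun j => if v ∈ Fj j then h j (hat s) else 0)
        (s := Finset.range (d + 1)) (fun i hi' => by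
          rw [Finset.mem_range] at hi'
          by_cases hij : i = j
          · subst hij; split_ifs <;> first | exact ha.le | exact le_rfl
          · split_ifs <;> first | exact (hi i (by omega) hij).1 | exact le_rfl) hmem
      simpa [hv] using this
    have hup : ∀ u, X u (hat s) ≤ (if u ∈ Fj j then a else 0) + (d : ℝ) * (ε * a) := by
      intro u
      rw [hXv]
      have hmem : j ∈ Finset.range (d + 1) := Finset.mem_range.2 (by omega)
      rw [← Finset.add_sum_erase _ _ hmem]
      apply add_le_add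
      · exact le_rfl
      · have hc : ((Finset.range (d + 1)).erase j).card = d := by
          rw [Finset.card_erase_of_mem hmem, Finset.card_range]; rfl
        calc ∑ i ∈ (Finset.range (d + 1)).erase j, (if u ∈ Fj i then h i (hat s) else 0)
            ≤ ∑ i ∈ (Finset.range (d + 1)).erase j, ε * a := by
              apply Finset.sum_le_sum
              intro i hi'
              rw [Finset.mem_erase, Finset.mem_range] at hi'
              have h1 := hi i (by omega) hi'.1
              split_ifs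
              · exact h1.2
              · positivity
          _ = (d : ℝ) * (ε * a) := by rw [Finset.sum_const, hc, nsmul_eq_mul]
    obtain ⟨u0, hu0F, hu0⟩ : ∃ u0 ∈ F, u0 ∉ Fj j := by
      by_contra hcon
      push Not at hcon
      exact hFK (hK.down_closed F (Fj j) hcon (hF j hj))
    have hsum : ∑ u ∈ F, X u (hat s) ≤ ((F.card : ℝ) - 1) * a + (F.card : ℝ) * ((d : ℝ) * (ε * a)) := by
      calc ∑ u ∈ F, X u (hat s) ≤ ∑ u ∈ F, ((if u ∈ Fj j then a else 0) + (d : ℝ) * (ε * a)) :=
            Finset.sum_le_sum fun u _ => hup u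
        _ = (∑ u ∈ F, if u ∈ Fj j then a else 0) + (F.card : ℝ) * ((d : ℝ) * (ε * a)) := by
            rw [Finset.sum_add_distrib, Finset.sum_const, nsmul_eq_mul]
        _ ≤ ((F.card : ℝ) - 1) * a + (F.card : ℝ) * ((d : ℝ) * (ε * a)) := by
            apply add_le_add _ le_rfl
            rw [← Finset.add_sum_erase _ _ hu0F, if_neg hu0, zero_add]
            calc ∑ u ∈ F.erase u0, (if u ∈ Fj j then a else 0) ≤ ∑ u ∈ F.erase u0, a := by
                  apply Finset.sum_le_sum
                  intro u _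
                  split_ifs
                  · exact le_rfl
                  · exact ha.le
              _ = ((F.card : ℝ) - 1) * a := by
                  rw [Finset.sum_const, Finset.card_erase_of_mem hu0F, nsmul_eq_mul,
                    Nat.cast_sub (Finset.card_pos.2 ⟨u0, hu0F⟩)]
                  norm_num
    have hFn : (F.card : ℝ) ≤ n := by exact_mod_cast Finset.card_le_univ F
    have hFc0 : (0 : ℝ) ≤ F.card := by positivity
    have h1 : (F.card : ℝ) * ((d : ℝ) * (ε * a)) < a := by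
      have h2 : (F.card : ℝ) * (d : ℝ) * ε ≤ (n : ℝ) * ((d : ℝ) + 1) * ε := by
        apply mul_le_mul_of_nonneg_right _ hεpos.le
        apply mul_le_mul hFn _ (by positivity) (by positivity)
        linarith
      have h3 : (F.card : ℝ) * (d : ℝ) * ε < 1 := lt_of_le_of_lt h2 hεn
      calc (F.card : ℝ) * ((d : ℝ) * (ε * a)) = (F.card : ℝ) * (d : ℝ) * ε * a := by ring
        _ < 1 * a := mul_lt_mul_of_pos_right h3 ha
        _ = a := one_mul a
    have h4 : (F.card : ℝ) * a ≤ (F.card : ℝ) * X v (hat s) := mul_le_mul_of_nonneg_left hlow hFc0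
    linarith
  -- perturbation
  have hpert : ∀ᶠ δ in 𝓝[>] (0 : ℝ),
      (∀ s ∈ S, ∀ u v : V, u ≠ v →
        (X u (hat s) - X v (hat s)) + δ * ((idx u : ℝ) - idx v) ≠ 0) ∧
      (∀ s ∈ S, ∀ (v : V) (F : Finset V),
        0 < (F.card : ℝ) * X v (hat s) - ∑ u ∈ F, X u (hat s) →
        0 < ((F.card : ℝ) * X v (hat s) - ∑ u ∈ F, X u (hat s)) +
          δ * ((F.card : ℝ) * idx v - ∑ u ∈ F, (idx u : ℝ))) := by
    rw [eventually_and]
    constructor
    · rw [Filter.eventually_all_finset]
      intro s _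
      rw [Filter.eventually_all]
      intro u
      rw [Filter.eventually_all]
      intro v
      by_cases huv : u = v
      · exact Eventually.of_forall fun δ h => absurd huv h
      · have : ((idx u : ℝ) - idx v) ≠ 0 := by
          rw [sub_ne_zero]
          intro h
          exact huv (hidxinj u v (by exact_mod_cast h))
        filter_upwards [eventually_affine_ne (X u (hat s) - X v (hat s)) _ this] with δ hδ _
        exact hδ
    · rw [Filter.eventually_all_finset]
      intro s _
      rw [Filter.eventually_all]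
      intro v
      rw [Filter.eventually_all]
      intro F
      by_cases hp : 0 < (F.card : ℝ) * X v (hat s) - ∑ u ∈ F, X u (hat s)
      · filter_upwards [eventually_affine_pos _
          ((F.card : ℝ) * idx v - ∑ u ∈ F, (idx u : ℝ)) hp] with δ hδ _
        exact hδ
      · exact Eventually.of_forall fun δ h => absurd h hp
  obtain ⟨δ, hδ1, hδ2⟩ := hpert.exists
  set X' : V → ((Fin (d + 1) → ℝ) →ₗ[ℝ] ℝ) := fun v =>
    X v + (δ * (idx v : ℝ)) • LinearMap.proj 0 with hX'
  have hX'v : ∀ v (s : Fin d → ℝ), X' v (hat s) = X v (hat s) + δ * idx v := by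
    intro v s
    simp [hX', hat]
  have hX'ne : ∀ s ∈ S, ∀ u v : V, u ≠ v → X' u (hat s) ≠ X' v (hat s) := by
    intro s hs u v huv heq
    rw [hX'v, hX'v] at heq
    apply hδ1 s hs u v huv
    linarith
  -- the functional which must be positive
  set ℓ : V → Finset V → ((Fin (d + 1) → ℝ) →ₗ[ℝ] ℝ) := fun v F =>
    (F.card : ℝ) • X' v - ∑ u ∈ F, X' u with hℓ
  have hℓv : ∀ v F s, ℓ v F s = (F.card : ℝ) * X' v s - ∑ u ∈ F, X' u s := by
    intro v F s
    simp [hℓ, LinearMap.sum_apply]
  have hgroup : ∀ j, j ≤ d → ∀ s ∈ G j, ∀ v ∈ Fj j, ∀ F : Finset V, F ∉ K → v ∈ F →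
      0 < ℓ v F (hat s) := by
    intro j hj s hs v hv F hFK hvF
    have h1 := hδ2 s ((hG j hj).1 hs) v F (hkey j hj s hs v hv F hFK hvF)
    rw [hℓv, hX'v]
    simp only [hX'v]
    rw [Finset.sum_add_distrib, ← Finset.mul_sum]
    linarith
  -- the vertex with the maximal value
  have hmax : ∀ s : Fin d → ℝ, ∃ v : V, ∀ u, X' u (hat s) ≤ X' v (hat s) := fun s =>
    Finite.exists_max (fun v => X' v (hat s))
  choose mx hmx using hmax
  set col : (Fin d → ℝ) → V := fun s =>
    if hs : ∃ q : ℕ × V, q.1 ≤ d ∧ q.2 ∈ Fj q.1 ∧ s ∈ Y q.1 (idx q.2) then hs.choose.2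
    else mx s with hcol
  have hcolY : ∀ j, j ≤ d → ∀ v ∈ Fj j, ∀ s ∈ Y j (idx v), col s = v := by
    intro j hj v hv s hs
    have hex : ∃ q : ℕ × V, q.1 ≤ d ∧ q.2 ∈ Fj q.1 ∧ s ∈ Y q.1 (idx q.2) := ⟨(j, v), hj, hv, hs⟩
    simp only [hcol, hex, dif_pos]
    obtain ⟨h1, h2, h3⟩ := hex.choose_spec
    have hj' : hex.choose.1 = j := by
      by_contra hne
      have a1 := (hY _ h1).1 _ (hidxlt _) h3
      have a2 := (hY _ hj).1 _ (hidxlt _) hs
      exact Finset.disjoint_left.1 (hGd _ _ h1 hj hne) a1 a2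
    rw [hj'] at h3
    by_contra hne
    have hne' : idx hex.choose.2 ≠ idx v := fun h => hne (hidxinj _ _ h)
    exact Finset.disjoint_left.1 ((hY j hj).2.1 _ _ (hidxlt _) (hidxlt _) hne') h3 hs
  have hprop : ∀ s ∈ S, ∀ F : Finset V, F ∉ K → col s ∈ F → 0 < ℓ (col s) F (hat s) := by
    intro s hs F hFK hcF
    by_cases hex : ∃ q : ℕ × V, q.1 ≤ d ∧ q.2 ∈ Fj q.1 ∧ s ∈ Y q.1 (idx q.2)
    · obtain ⟨⟨j, v⟩, h1, h2, h3⟩ := hex
      have hc := hcolY j h1 v h2 s h3
      rw [hc] at hcF ⊢
      exact hgroup j h1 s ((hY j h1).1 _ (hidxlt _) h3) v h2 F hFK hcF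
    · have hc : col s = mx s := by simp only [hcol, hex, dif_neg, not_false_eq_true]
      rw [hc] at hcF ⊢
      rw [hℓv]
      have hex2 : ∃ u ∈ F, u ≠ mx s := by
        by_contra hcon
        push Not at hcon
        apply hFK
        exact hK.down_closed F {mx s} (fun u hu => Finset.mem_singleton.2 (hcon u hu))
          (hK.singleton_mem _)
      obtain ⟨u, huF, hu⟩ := hex2
      have : ∑ u ∈ F, X' u (hat s) < ∑ u ∈ F, X' (mx s) (hat s) := by
        apply Finset.sum_lt_sum
        · intro w _; exact hmx s w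
        · exact ⟨u, huF, lt_of_le_of_ne (hmx s u) (hX'ne s hs u _ hu)⟩
      rw [Finset.sum_const, nsmul_eq_mul] at this
      linarith
  refine ⟨col, ?_, ?_⟩
  · intro v
    obtain ⟨j, hj, hvj⟩ := hcov {v} (hK.singleton_mem v)
    have hv : v ∈ Fj j := hvj (Finset.mem_singleton_self v)
    have hne : (Y j (idx v) : Set (Fin d → ℝ)).Nonempty := by
      rw [← convexHull_nonempty_iff (𝕜 := ℝ)]
      exact ⟨_, (hY j hj).2.2 _ (hidxlt v)⟩
    obtain ⟨s, hs⟩ := hne
    exact ⟨s, (hG j hj).1 ((hY j hj).1 _ (hidxlt v) hs), hcolY j hj v hv s hs⟩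
  · intro F
    constructor
    · intro hFK
      obtain ⟨j, hj, hFj⟩ := hcov F hFK
      refine ⟨cp j, ?_⟩
      rw [Set.mem_iInter₂]
      intro v hv
      refine convexHull_mono ?_ ((hY j hj).2.2 _ (hidxlt v))
      intro s hs
      exact ⟨(hG j hj).1 ((hY j hj).1 _ (hidxlt v) hs), hcolY j hj v (hFj hv) s hs⟩
    · rintro ⟨p, hp⟩
      by_contra hFK
      rw [Set.mem_iInter₂] at hp
      have hpos : ∀ v ∈ F, 0 < ℓ v F (hat p) := by
        intro v hv
        have hsub : {s | s ∈ S ∧ col s = v} ⊆ {x : Fin d → ℝ | 0 < ℓ v F (hat x)} := by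
          rintro s ⟨hs, hc⟩
          have := hprop s hs F hFK (by rw [hc]; exact hv)
          rw [hc] at this
          exact this
        exact convexHull_min hsub (convex_pos _) (hp v hv)
      have hFne : F.Nonempty := by
        rw [Finset.nonempty_iff_ne_empty]
        rintro rfl
        exact hFK hempty
      have h1 : 0 < ∑ v ∈ F, ℓ v F (hat p) := Finset.sum_pos hpos hFne
      have h2 : ∑ v ∈ F, ℓ v F (hat p) = 0 := by
        simp only [hℓv]
        rw [Finset.sum_sub_distrib, ← Finset.mul_sum, Finset.sum_const, nsmul_eq_mul, sub_self]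
      linarith

end Pool.Agent.H1Tv
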