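import Mathlib

/-!
# Finite Ramsey theorem for increasing tuples
-/

namespace Pool.Agent.H1Tv

/-- Finite Ramsey for k-subsets, two colours. -/
theorem ramsey_aux (k : ℕ) :
    ∀ a b : ℕ, ∃ N : ℕ, ∀ (α : Type) [DecidableEq α] (X : Finset α) (p : Finset α → Prop),
      N ≤ X.card →
      (∃ Z ⊆ X, Z.card = a ∧ ∀ S ∈ Z.powersetCard k, p S) ∨
      (∃ Z ⊆ X, Z.card = b ∧ ∀ S ∈ Z.powersetCard k, ¬ p S) := by
  induction k with
  | zero =>
    intro a b
    refine ⟨max a b, fun α _ X p hX => ?_⟩
    by_cases hp : p ∅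
    · left
      obtain ⟨Z, hZ, hc⟩ := Finset.exists_subset_card_eq ((le_max_left a b).trans hX)
      refine ⟨Z, hZ, hc, fun S hS => ?_⟩
      simp at hS
      subst hS; exact hp
    · right
      obtain ⟨Z, hZ, hc⟩ := Finset.exists_subset_card_eq ((le_max_right a b).trans hX)
      refine ⟨Z, hZ, hc, fun S hS => ?_⟩
      simp at hS
      subst hS; exact hp
  | succ k ih =>
    intro a
    induction a with
    | zero =>
      intro b
      refine ⟨0, fun α _ X p _ => Or.inl ⟨∅, by simp, by simp, ?_⟩⟩
      intro S hS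
      simp [Finset.mem_powersetCard] at hS
      obtain ⟨h1, h2⟩ := hS
      subst h1
      simp at h2
    | succ a iha =>
      intro b
      induction b with
      | zero =>
        refine ⟨0, fun α _ X p _ => Or.inr ⟨∅, by simp, by simp, ?_⟩⟩
        intro S hS
        simp [Finset.mem_powersetCard] at hS
        obtain ⟨h1, h2⟩ := hS
        subst h1
        simp at h2
      | succ b ihb =>
        obtain ⟨N1, h1⟩ := iha (b + 1)
        obtain ⟨N2, h2⟩ := ihb
        obtain ⟨N3, h3⟩ := ih N1 N2
        refine ⟨N3 + 1, fun α _ X p hX => ?_⟩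
        have hne : X.Nonempty := by
          rw [← Finset.card_pos]; omega
        obtain ⟨x, hx⟩ := hne
        have hcard : N3 ≤ (X.erase x).card := by
          rw [Finset.card_erase_of_mem hx]; omega
        have key : ∀ (Y Z : Finset α) (q : Finset α → Prop), Y ⊆ X.erase x → Z ⊆ Y →
            (∀ S ∈ Y.powersetCard k, q (insert x S)) → (∀ S ∈ Z.powersetCard (k+1), q S) →
            (∀ S ∈ (insert x Z).powersetCard (k+1), q S) := by
          intro Y Z q hY hZ hq1 hq2 S hS
          have hxZ : x ∉ Z := fun h => by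
            have := hY (hZ h); simp at this
          rw [Finset.powersetCard_succ_insert hxZ] at hS
          rw [Finset.mem_union] at hS
          rcases hS with hS | hS
          · exact hq2 S hS
          · rw [Finset.mem_image] at hS
            obtain ⟨S', hS', rfl⟩ := hS
            exact hq1 S' (Finset.powersetCard_mono hZ hS')
        rcases h3 α (X.erase x) (fun S => p (insert x S)) hcard with ⟨Y, hY, hYc, hYp⟩ | ⟨Y, hY, hYc, hYp⟩
        · rcases h1 α Y p hYc.ge with ⟨Z, hZ, hZc, hZp⟩ | ⟨Z, hZ, hZc, hZp⟩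
          · left
            have hxZ : x ∉ Z := fun h => by
              have := hY (hZ h); simp at this
            refine ⟨insert x Z, ?_, ?_, key Y Z p hY hZ hYp hZp⟩
            · intro y hy
              rcases Finset.mem_insert.1 hy with rfl | hy
              · exact hx
              · exact Finset.mem_of_mem_erase (hY (hZ hy))
            · rw [Finset.card_insert_of_notMem hxZ, hZc]
          · right
            exact ⟨Z, hZ.trans (hY.trans (Finset.erase_subset _ _)), hZc, hZp⟩
        · rcases h2 α Y p hYc.ge with ⟨Z, hZ, hZc, hZp⟩ | ⟨Z, hZ, hZc, hZp⟩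
          · left
            exact ⟨Z, hZ.trans (hY.trans (Finset.erase_subset _ _)), hZc, hZp⟩
          · right
            have hxZ : x ∉ Z := fun h => by
              have := hY (hZ h); simp at this
            refine ⟨insert x Z, ?_, ?_, key Y Z (fun S => ¬ p S) hY hZ hYp hZp⟩
            · intro y hy
              rcases Finset.mem_insert.1 hy with rfl | hy
              · exact hx
              · exact Finset.mem_of_mem_erase (hY (hZ hy))
            · rw [Finset.card_insert_of_notMem hxZ, hZc]

/-- `f` is increasing on `{0, ..., K-1}` with values in `Z`. -/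
def Inc (K : ℕ) (Z : Finset ℕ) (f : ℕ → ℕ) : Prop :=
  (∀ i j, i < j → j < K → f i < f j) ∧ ∀ i, i < K → f i ∈ Z

theorem Inc.mono {K : ℕ} {Z Z' : Finset ℕ} (h : Z ⊆ Z') {f : ℕ → ℕ} (hf : Inc K Z f) :
    Inc K Z' f := ⟨hf.1, fun i hi => h (hf.2 i hi)⟩

/-- every finset of naturals of cardinality `M` is enumerated increasingly -/
theorem exists_enum (Z : Finset ℕ) : ∃ e : ℕ → ℕ, Inc Z.card Z e := by
  refine ⟨fun i => if h : i < Z.card then Z.orderEmbOfFin rfl ⟨i, h⟩ else 0, ?_, ?_⟩
  · intro i j hij hj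
    have hi : i < Z.card := lt_trans hij hj
    simp only [hi, hj, dif_pos]
    exact (Z.orderEmbOfFin rfl).strictMono (by simpa using hij)
  · intro i hi
    simp only [hi, dif_pos]
    exact Finset.orderEmbOfFin_mem _ _ _

theorem ramsey_seq (K M : ℕ) : ∃ N : ℕ, ∀ (Q : (ℕ → ℕ) → Prop),
    (∀ f g : ℕ → ℕ, (∀ i, i < K → f i = g i) → (Q f ↔ Q g)) →
    ∀ X : Finset ℕ, N ≤ X.card →
    ∃ Z ⊆ X, Z.card = M ∧ ((∀ f, Inc K Z f → Q f) ∨ (∀ f, Inc K Z f → ¬ Q f)) := by
  classical
  obtain ⟨N, hN⟩ := ramsey_aux K M M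
  refine ⟨N, fun Q hQ X hX => ?_⟩
  have huniq : ∀ f g : ℕ → ℕ, (∀ i j, i < j → j < K → f i < f j) →
      (∀ i j, i < j → j < K → g i < g j) →
      (Finset.range K).image f = (Finset.range K).image g → ∀ i, i < K → f i = g i := by
    intro f g hf hg hfg
    have h1 : StrictMono (fun i : Fin K => f i) := fun a b hab => hf a b hab b.2
    have h2 : StrictMono (fun i : Fin K => g i) := fun a b hab => hg a b hab b.2
    have h3 : Set.range (fun i : Fin K => f i) = Set.range (fun i : Fin K => g i) := by
      ext x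
      have : x ∈ (Finset.range K).image f ↔ x ∈ (Finset.range K).image g := by rw [hfg]
      simp only [Finset.mem_image, Finset.mem_range] at this
      simp only [Set.mem_range]
      constructor
      · rintro ⟨i, hi⟩
        obtain ⟨j, hj, hj'⟩ := this.1 ⟨i, i.2, hi⟩
        exact ⟨⟨j, hj⟩, hj'⟩
      · rintro ⟨i, hi⟩
        obtain ⟨j, hj, hj'⟩ := this.2 ⟨i, i.2, hi⟩
        exact ⟨⟨j, hj⟩, hj'⟩
    have h4 := (StrictMono.range_inj h1 h2).1 h3
    intro i hi
    exact congrFun h4 ⟨i, hi⟩
  have himg : ∀ (Z : Finset ℕ) (f : ℕ → ℕ), Inc K Z f →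
      (Finset.range K).image f ∈ Z.powersetCard K := by
    intro Z f hf
    rw [Finset.mem_powersetCard]
    refine ⟨?_, ?_⟩
    · intro x hx
      rw [Finset.mem_image] at hx
      obtain ⟨i, hi, rfl⟩ := hx
      exact hf.2 i (Finset.mem_range.1 hi)
    · rw [Finset.card_image_of_injOn, Finset.card_range]
      intro a ha b hb hab
      simp only [Finset.coe_range, Set.mem_Iio] at ha hb
      rcases lt_trichotomy a b with h | h | h
      · exact absurd hab (hf.1 a b h hb).ne
      · exact h
      · exact absurd hab.symm (hf.1 b a h ha).ne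
  rcases hN ℕ X (fun A => ∀ f, (∀ i j, i < j → j < K → f i < f j) →
      (Finset.range K).image f = A → Q f) hX with ⟨Z, hZ, hc, hp⟩ | ⟨Z, hZ, hc, hp⟩
  · refine ⟨Z, hZ, hc, Or.inl fun f hf => hp _ (himg Z f hf) f hf.1 rfl⟩
  · refine ⟨Z, hZ, hc, Or.inr fun f hf hQf => hp _ (himg Z f hf) ?_⟩
    intro g hg hgf
    exact (hQ f g (fun i hi => (huniq g f hg hf.1 hgf i hi).symm)).1 hQf

end Pool.Agent.H1Tv
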