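import Pool.Agent.H1Tv.Main

/-!
# Ham-sandwich cuts for two separated finite point sets
-/

namespace Pool.Agent.H1Tv

/-- Generic position of a finite set with respect to two linear functionals. -/
def Gen {d : ℕ} (f g : (Fin d → ℝ) →ₗ[ℝ] ℝ) (X : Finset (Fin d → ℝ)) : Prop :=
  (∀ x ∈ X, ∀ y ∈ X, f x = f y → x = y) ∧
    ∀ x ∈ X, ∀ y ∈ X, ∀ z ∈ X, x ≠ y → x ≠ z → y ≠ z →
      (f y - f x) * (g z - g x) - (f z - f x) * (g y - g x) ≠ 0

theorem Gen.mono {d : ℕ} {f g : (Fin d → ℝ) →ₗ[ℝ] ℝ} {X Y : Finset (Fin d → ℝ)}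
    (h : Gen f g X) (hY : Y ⊆ X) : Gen f g Y :=
  ⟨fun x hx y hy => h.1 x (hY hx) y (hY hy),
    fun x hx y hy z hz => h.2 x (hY hx) y (hY hy) z (hY hz)⟩

/-- Sets which are separated by a linear functional have disjoint convex hulls. -/
theorem disj_of_lt {d : ℕ} (f : (Fin d → ℝ) →ₗ[ℝ] ℝ) (X Y : Set (Fin d → ℝ)) (hY : Y.Finite)
    (h : ∀ x ∈ X, ∀ y ∈ Y, f x < f y) : Disjoint (convexHull ℝ X) (convexHull ℝ Y) := by
  rw [Set.disjoint_left]
  intro z hz1 hz2
  have hne : Y.Nonempty := by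
    rw [← convexHull_nonempty_iff (𝕜 := ℝ)]
    exact ⟨z, hz2⟩
  obtain ⟨y, hy, hmin⟩ := Set.exists_min_image Y f hY hne
  have h1 : convexHull ℝ X ⊆ {x | f x < f y} :=
    convexHull_min (fun x hx => h x hx y hy) (convex_halfSpace_lt f.isLinear _)
  have h2 : convexHull ℝ Y ⊆ {x | f y ≤ f x} :=
    convexHull_min (fun x hx => hmin x hx) (convex_halfSpace_ge f.isLinear _)
  have h3 := h1 hz1
  have h4 := h2 hz2
  simp only [Set.mem_ofPred_eq] at h3 h4
  linarith

/-- Strict left halfspace and closed right halfspace. -/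
theorem disj_of_cut {d : ℕ} (f : (Fin d → ℝ) →ₗ[ℝ] ℝ) (c : ℝ) (X Y : Set (Fin d → ℝ))
    (hX : ∀ x ∈ X, f x < c) (hY : ∀ y ∈ Y, c ≤ f y) :
    Disjoint (convexHull ℝ X) (convexHull ℝ Y) := by
  rw [Set.disjoint_left]
  intro z hz1 hz2
  have h1 : convexHull ℝ X ⊆ {x | f x < c} :=
    convexHull_min (fun x hx => hX x hx) (convex_halfSpace_lt f.isLinear _)
  have h2 : convexHull ℝ Y ⊆ {x | c ≤ f x} :=
    convexHull_min (fun x hx => hY x hx) (convex_halfSpace_ge f.isLinear _)
  have h3 := h1 hz1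
  have h4 := h2 hz2
  simp only [Set.mem_ofPred_eq] at h3 h4
  linarith

/-- One-dimensional threshold. -/
theorem threshold {d : ℕ} (f : (Fin d → ℝ) →ₗ[ℝ] ℝ) (X : Finset (Fin d → ℝ))
    (hf : ∀ x ∈ X, ∀ y ∈ X, f x = f y → x = y) (p : ℕ) (hp : p ≤ X.card) :
    ∃ X1 ⊆ X, X1.card = p ∧ ∀ x ∈ X1, ∀ y ∈ X \ X1, f x < f y := by
  classical
  induction p with
  | zero => exact ⟨∅, Finset.empty_subset _, rfl, fun x hx => absurd hx (Finset.notMem_empty x)⟩
  | succ p ih =>
    obtain ⟨X1, h1, h2, h3⟩ := ih (by omega)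
    have hne : (X \ X1).Nonempty := by
      rw [← Finset.card_pos, Finset.card_sdiff_of_subset h1]
      omega
    obtain ⟨m, hm, hmin⟩ := Finset.exists_min_image (X \ X1) f hne
    rw [Finset.mem_sdiff] at hm
    refine ⟨insert m X1, Finset.insert_subset hm.1 h1, ?_, ?_⟩
    · rw [Finset.card_insert_of_notMem hm.2, h2]
    · intro x hx y hy
      rw [Finset.mem_sdiff, Finset.mem_insert, not_or] at hy
      have hy' : y ∈ X \ X1 := Finset.mem_sdiff.2 ⟨hy.1, hy.2.2⟩
      rw [Finset.mem_insert] at hx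
      rcases hx with rfl | hx
      · rcases (hmin y hy').lt_or_eq with h | h
        · exact h
        · exact absurd (hf _ hm.1 _ hy.1 h) (Ne.symm hy.2.1)
      · exact h3 x hx y hy'

/-- The line through `a` and `b`: slope. -/
noncomputable def lam {d : ℕ} (f g : (Fin d → ℝ) →ₗ[ℝ] ℝ) (a b : Fin d → ℝ) : ℝ :=
  (g a - g b) / (f a - f b)

theorem count_lt {d : ℕ} (f g : (Fin d → ℝ) →ₗ[ℝ] ℝ) (A : Finset (Fin d → ℝ)) (l c l' c' : ℝ)
    (a : Fin d → ℝ) (ha : a ∈ A) (hac : g a - l * f a = c)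
    (h : ∀ x ∈ A, 0 < (l' - l) * f x + (c' - c)) :
    (A.filter (fun x => g x - l * f x < c)).card < (A.filter (fun x => g x - l' * f x < c')).card
    := by
  apply Finset.card_lt_card
  rw [Finset.ssubset_iff_of_subset]
  · refine ⟨a, ?_, ?_⟩
    · rw [Finset.mem_filter]
      refine ⟨ha, ?_⟩
      have := h a ha
      nlinarith
    · rw [Finset.mem_filter, not_and]
      intro _
      rw [hac]
      exact lt_irrefl _
  · intro x hx
    rw [Finset.mem_filter] at hx ⊢
    refine ⟨hx.1, ?_⟩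
    have := h x hx.1
    nlinarith [hx.2]

/-- Two points with the same counts determine the same line. -/
theorem cut_inj {d : ℕ} (f g : (Fin d → ℝ) →ₗ[ℝ] ℝ) (A B : Finset (Fin d → ℝ))
    (hG : Gen f g (A ∪ B)) (hAB : ∀ a ∈ A, ∀ b ∈ B, f b < f a) (l c l' c' : ℝ)
    (a b a' b' : Fin d → ℝ) (ha : a ∈ A) (hb : b ∈ B) (ha' : a' ∈ A) (hb' : b' ∈ B)
    (h1 : g a - l * f a = c) (h2 : g b - l * f b = c)
    (h1' : g a' - l' * f a' = c') (h2' : g b' - l' * f b' = c')
    (hA : (A.filter (fun x => g x - l * f x < c)).card =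
      (A.filter (fun x => g x - l' * f x < c')).card)
    (hB : (B.filter (fun x => g x - l * f x < c)).card =
      (B.filter (fun x => g x - l' * f x < c')).card) : a = a' ∧ b = b' := by
  classical
  have e1 : ¬ ∀ x ∈ A, 0 < (l' - l) * f x + (c' - c) := fun h =>
    absurd hA (count_lt f g A l c l' c' a ha h1 h).ne
  have e2 : ¬ ∀ x ∈ A, 0 < (l - l') * f x + (c - c') := fun h =>
    absurd hA (count_lt f g A l' c' l c a' ha' h1' h).ne'
  have e3 : ¬ ∀ x ∈ B, 0 < (l' - l) * f x + (c' - c) := fun h =>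
    absurd hB (count_lt f g B l c l' c' b hb h2 h).ne
  have e4 : ¬ ∀ x ∈ B, 0 < (l - l') * f x + (c - c') := fun h =>
    absurd hB (count_lt f g B l' c' l c b' hb' h2' h).ne'
  push Not at e1 e2 e3 e4
  obtain ⟨x1, hx1, k1⟩ := e1
  obtain ⟨x2, hx2, k2⟩ := e2
  obtain ⟨x3, hx3, k3⟩ := e3
  obtain ⟨x4, hx4, k4⟩ := e4
  have hl : l' = l := by
    rcases lt_trichotomy l l' with h | h | h
    · exfalso
      have := hAB x1 hx1 x4 hx4
      nlinarith [mul_pos (sub_pos.2 h) (sub_pos.2 this)]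
    · exact h.symm
    · exfalso
      have := hAB x2 hx2 x3 hx3
      nlinarith [mul_pos (sub_pos.2 h) (sub_pos.2 this)]
  subst hl
  have hc : c' = c := by
    have k1' : c' - c ≤ 0 := by simpa using k1
    have k2' : c - c' ≤ 0 := by simpa using k2
    linarith
  subst hc
  have hmA : ∀ x ∈ A, x ∈ A ∪ B := fun x hx => Finset.mem_union_left _ hx
  have hmB : ∀ x ∈ B, x ∈ A ∪ B := fun x hx => Finset.mem_union_right _ hx
  have hne : ∀ x ∈ A, ∀ y ∈ B, x ≠ y := by
    intro x hx y hy hxy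
    have := hAB x hx y hy
    rw [hxy] at this
    exact lt_irrefl _ this
  constructor
  · by_contra hcon
    refine hG.2 a (hmA a ha) a' (hmA a' ha') b (hmB b hb) hcon (hne a ha b hb) (hne a' ha' b hb) ?_
    have q1 : g a = c' + l' * f a := by linarith
    have q2 : g b = c' + l' * f b := by linarith
    have q3 : g a' = c' + l' * f a' := by linarith
    rw [q1, q2, q3]
    ring
  · by_contra hcon
    refine hG.2 b (hmB b hb) b' (hmB b' hb') a (hmA a ha) hcon (hne a ha b hb).symm
      (hne a ha b' hb').symm ?_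
    have q1 : g a = c' + l' * f a := by linarith
    have q2 : g b = c' + l' * f b := by linarith
    have q3 : g b' = c' + l' * f b' := by linarith
    rw [q1, q2, q3]
    ring

/-- The generalised ham-sandwich cut for two separated sets. -/
theorem cut1 {d : ℕ} (f g : (Fin d → ℝ) →ₗ[ℝ] ℝ) (A B : Finset (Fin d → ℝ))
    (hG : Gen f g (A ∪ B)) (hAB : ∀ a ∈ A, ∀ b ∈ B, f b < f a) (p q : ℕ)
    (hp : p < A.card) (hq : q < B.card) :
    ∃ l c : ℝ, (A.filter (fun x => g x - l * f x < c)).card = p ∧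
      (B.filter (fun x => g x - l * f x < c)).card = q := by
  classical
  set L : (Fin d → ℝ) × (Fin d → ℝ) → ℝ := fun z => lam f g z.1 z.2 with hL
  set C : (Fin d → ℝ) × (Fin d → ℝ) → ℝ := fun z => g z.1 - L z * f z.1 with hC
  set F : (Fin d → ℝ) × (Fin d → ℝ) → ℕ × ℕ := fun z =>
    ((A.filter (fun x => g x - L z * f x < C z)).card,
      (B.filter (fun x => g x - L z * f x < C z)).card) with hF
  have hline : ∀ z ∈ A ×ˢ B, g z.2 - L z * f z.2 = C z := by
    intro z hz
    rw [Finset.mem_product] at hz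
    have h1 := hAB z.1 hz.1 z.2 hz.2
    have h2 : f z.1 - f z.2 ≠ 0 := (sub_pos.2 h1).ne'
    have h3 : L z * (f z.1 - f z.2) = g z.1 - g z.2 := by
      simp only [hL, lam]
      exact div_mul_cancel₀ _ h2
    simp only [hC]
    linarith
  have hinj : Set.InjOn F ((A ×ˢ B : Finset _) : Set ((Fin d → ℝ) × (Fin d → ℝ))) := by
    intro z hz w hw hzw
    have hz' := Finset.mem_product.1 (Finset.mem_coe.1 hz)
    have hw' := Finset.mem_product.1 (Finset.mem_coe.1 hw)
    have h1 : (F z).1 = (F w).1 := by rw [hzw]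
    have h2 : (F z).2 = (F w).2 := by rw [hzw]
    obtain ⟨r1, r2⟩ := cut_inj f g A B hG hAB (L z) (C z) (L w) (C w) z.1 z.2 w.1 w.2 hz'.1 hz'.2
      hw'.1 hw'.2 rfl (hline z hz) rfl (hline w hw) h1 h2
    exact Prod.ext r1 r2
  have himg : (A ×ˢ B).image F ⊆ Finset.range A.card ×ˢ Finset.range B.card := by
    intro y hy
    rw [Finset.mem_image] at hy
    obtain ⟨z, hz, rfl⟩ := hy
    have hz' := Finset.mem_product.1 hz
    rw [Finset.mem_product, Finset.mem_range, Finset.mem_range]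
    constructor
    · apply Finset.card_lt_card
      rw [Finset.ssubset_iff_of_subset (Finset.filter_subset _ _)]
      refine ⟨z.1, hz'.1, ?_⟩
      rw [Finset.mem_filter, not_and]
      intro _
      exact lt_irrefl _
    · apply Finset.card_lt_card
      rw [Finset.ssubset_iff_of_subset (Finset.filter_subset _ _)]
      refine ⟨z.2, hz'.2, ?_⟩
      rw [Finset.mem_filter, not_and]
      intro _
      rw [hline z hz]
      exact lt_irrefl _
  have heq : (A ×ˢ B).image F = Finset.range A.card ×ˢ Finset.range B.card := by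
    apply Finset.eq_of_subset_of_card_le himg
    rw [Finset.card_image_of_injOn hinj, Finset.card_product, Finset.card_product,
      Finset.card_range, Finset.card_range]
  have hmem : (p, q) ∈ (A ×ˢ B).image F := by
    rw [heq, Finset.mem_product, Finset.mem_range, Finset.mem_range]
    exact ⟨hp, hq⟩
  rw [Finset.mem_image] at hmem
  obtain ⟨z, _, hz⟩ := hmem
  exact ⟨L z, C z, congrArg Prod.fst hz, congrArg Prod.snd hz⟩

/-- The cut lemma in the form used below. -/
theorem cut {d : ℕ} (f g : (Fin d → ℝ) →ₗ[ℝ] ℝ) (A B : Finset (Fin d → ℝ))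
    (hG : Gen f g (A ∪ B)) (hAB : ∀ a ∈ A, ∀ b ∈ B, f b < f a) (p q : ℕ)
    (hp : p ≤ A.card) (hq : q ≤ B.card) :
    ∃ A1 ⊆ A, ∃ B1 ⊆ B, A1.card = p ∧ B1.card = q ∧
      Disjoint (convexHull ℝ ((A1 : Set (Fin d → ℝ)) ∪ B1))
        (convexHull ℝ (((A \ A1 : Finset _) : Set (Fin d → ℝ)) ∪ (B \ B1 : Finset _))) := by
  classical
  -- the generic case
  have key : ∀ p q : ℕ, p < A.card → q < B.card → ∃ A1 ⊆ A, ∃ B1 ⊆ B, A1.card = p ∧ B1.card = q ∧
      Disjoint (convexHull ℝ ((A1 : Set (Fin d → ℝ)) ∪ B1))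
        (convexHull ℝ (((A \ A1 : Finset _) : Set (Fin d → ℝ)) ∪ (B \ B1 : Finset _))) := by
    intro p q hp hq
    obtain ⟨l, c, h1, h2⟩ := cut1 f g A B hG hAB p q hp hq
    refine ⟨_, Finset.filter_subset _ _, _, Finset.filter_subset _ _, h1, h2, ?_⟩
    refine disj_of_cut (g - l • f) c _ _ ?_ ?_
    · intro x hx
      rcases hx with hx | hx
      · rw [Finset.mem_coe, Finset.mem_filter] at hx
        simpa using hx.2
      · rw [Finset.mem_coe, Finset.mem_filter] at hx
        simpa using hx.2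
    · intro x hx
      rcases hx with hx | hx
      · rw [Finset.mem_coe, Finset.mem_sdiff, Finset.mem_filter, not_and, not_lt] at hx
        simpa using hx.2 hx.1
      · rw [Finset.mem_coe, Finset.mem_sdiff, Finset.mem_filter, not_and, not_lt] at hx
        simpa using hx.2 hx.1
  by_cases c1 : p < A.card ∧ q < B.card
  · exact key p q c1.1 c1.2
  by_cases c2 : 0 < p ∧ 0 < q
  · obtain ⟨A1, hA1, B1, hB1, h1, h2, h3⟩ := key (A.card - p) (B.card - q) (by omega) (by omega)
    refine ⟨A \ A1, Finset.sdiff_subset, B \ B1, Finset.sdiff_subset, ?_, ?_, ?_⟩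
    · rw [Finset.card_sdiff_of_subset hA1]; omega
    · rw [Finset.card_sdiff_of_subset hB1]; omega
    · rw [Finset.sdiff_sdiff_eq_self hA1, Finset.sdiff_sdiff_eq_self hB1]
      exact h3.symm
  have hf : ∀ x ∈ A ∪ B, ∀ y ∈ A ∪ B, f x = f y → x = y := hG.1
  rcases Nat.eq_zero_or_pos A.card with hA0 | hA0
  · -- `A` is empty
    have hA : A = ∅ := Finset.card_eq_zero.1 hA0
    obtain ⟨B1, h1, h2, h3⟩ := threshold f B (fun x hx y hy => hf x (Finset.mem_union_right _ hx) y
      (Finset.mem_union_right _ hy)) q hq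
    refine ⟨∅, Finset.empty_subset _, B1, h1, by simp; omega, h2, ?_⟩
    refine disj_of_lt f _ _ ?_ ?_
    · exact Set.Finite.union (Finset.finite_toSet _) (Finset.finite_toSet _)
    · intro x hx y hy
      have hx' : x ∈ B1 := by simpa using hx
      have hy' : y ∈ B \ B1 := by
        rcases hy with hy | hy
        · rw [hA] at hy; simp at hy
        · exact hy
      exact h3 x hx' y hy'
  rcases Nat.eq_zero_or_pos B.card with hB0 | hB0
  · have hB : B = ∅ := Finset.card_eq_zero.1 hB0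
    obtain ⟨A1, h1, h2, h3⟩ := threshold f A (fun x hx y hy => hf x (Finset.mem_union_left _ hx) y
      (Finset.mem_union_left _ hy)) p hp
    refine ⟨A1, h1, ∅, Finset.empty_subset _, h2, by simp; omega, ?_⟩
    refine disj_of_lt f _ _ ?_ ?_
    · exact Set.Finite.union (Finset.finite_toSet _) (Finset.finite_toSet _)
    · intro x hx y hy
      have hx' : x ∈ A1 := by simpa using hx
      have hy' : y ∈ A \ A1 := by
        rcases hy with hy | hy
        · exact hy
        · rw [hB] at hy; simp at hy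
      exact h3 x hx' y hy'
  rcases Nat.eq_zero_or_pos p with hp0 | hp0
  · -- p = 0, q = |B|
    have hq' : q = B.card := by omega
    refine ⟨∅, Finset.empty_subset _, B, subset_rfl, by simp; omega, hq'.symm, ?_⟩
    refine disj_of_lt f _ _ ?_ ?_
    · exact Set.Finite.union (Finset.finite_toSet _) (Finset.finite_toSet _)
    · intro x hx y hy
      have hx' : x ∈ B := by simpa using hx
      have hy' : y ∈ A := by simpa using hy
      exact hAB y hy' x hx'
  · -- p = |A|, q = 0
    have hq' : q = 0 := by omega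
    have hp' : p = A.card := by omega
    refine ⟨A, subset_rfl, ∅, Finset.empty_subset _, hp'.symm, by simp; omega, ?_⟩
    refine (disj_of_lt f _ _ ?_ ?_).symm
    · exact Set.Finite.union (Finset.finite_toSet _) (Finset.finite_toSet _)
    · intro x hx y hy
      have hx' : x ∈ B := by simpa using hx
      have hy' : y ∈ A := by simpa using hy
      exact hAB y hy' x hx'

/-- Radon's theorem with one marked point. -/
theorem radon_z {d : ℕ} (Q : Finset (Fin d → ℝ)) (hQ : Q.card = d + 1) (z : Fin d → ℝ) :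
    ∃ Q1 ⊆ Q, (convexHull ℝ (Q1 : Set (Fin d → ℝ)) ∩
      convexHull ℝ (insert z ((Q \ Q1 : Finset _) : Set (Fin d → ℝ)))).Nonempty := by
  classical
  set F : Option Q → (Fin d → ℝ) := fun o => o.elim z (fun q => (q : Fin d → ℝ)) with hF
  have hnot : ¬ AffineIndependent ℝ F := by
    intro h
    have h1 := h.card_le_finrank_succ
    have h2 : Module.finrank ℝ (vectorSpan ℝ (Set.range F)) ≤ d := by
      calc Module.finrank ℝ (vectorSpan ℝ (Set.range F)) ≤ Module.finrank ℝ (Fin d → ℝ) :=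
            Submodule.finrank_le _
        _ = d := by simp
    rw [Fintype.card_option, Fintype.card_coe, hQ] at h1
    omega
  obtain ⟨I, hI⟩ := Convex.radon_partition hnot
  have main : ∀ J : Set (Option Q), none ∈ J →
      (convexHull ℝ (F '' J) ∩ convexHull ℝ (F '' Jᶜ)).Nonempty →
      ∃ Q1 ⊆ Q, (convexHull ℝ (Q1 : Set (Fin d → ℝ)) ∩
      convexHull ℝ (insert z ((Q \ Q1 : Finset _) : Set (Fin d → ℝ)))).Nonempty := by
    intro J hJ hne
    refine ⟨Q.filter (fun q => ∃ h : q ∈ Q, some ⟨q, h⟩ ∉ J), Finset.filter_subset _ _, ?_⟩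
    obtain ⟨w, hw1, hw2⟩ := hne
    refine ⟨w, convexHull_mono ?_ hw2, convexHull_mono ?_ hw1⟩
    · rintro _ ⟨o, ho, rfl⟩
      rcases o with _ | q
      · exact absurd hJ ho
      · rw [Finset.mem_coe, Finset.mem_filter]
        exact ⟨q.2, q.2, ho⟩
    · rintro _ ⟨o, ho, rfl⟩
      rcases o with _ | q
      · exact Set.mem_insert _ _
      · refine Set.mem_insert_of_mem _ ?_
        rw [Finset.mem_coe, Finset.mem_sdiff, Finset.mem_filter]
        refine ⟨q.2, ?_⟩
        rintro ⟨_, _, h⟩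
        exact h ho
  by_cases h0 : none ∈ I
  · exact main I h0 hI
  · refine main Iᶜ h0 ?_
    rw [compl_compl, Set.inter_comm]
    exact hI

end Pool.Agent.H1Tv
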