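import Pool.Agent.H1Tv.Trees

/-!
# Trees as rooted trees, generic projections, and the final bound
-/

namespace Pool.Agent.H1Tv

/-- Parent function of a rooted tree. -/
theorem exists_parent {V : Type} [Fintype V] (G : SimpleGraph V)
    (hG : G.IsTree) (r : V) :
    ∃ p : V → V, p r = r ∧ (∀ x, x ≠ r → G.dist (p x) r + 1 = G.dist x r ∧ G.Adj x (p x)) ∧
      (∀ x y, G.Adj x y → (x ≠ r ∧ p x = y) ∨ (y ≠ r ∧ p y = x)) := by
  classical
  have hex : ∀ x, ∃ y, x ≠ r → G.dist y r + 1 = G.dist x r ∧ G.Adj x y := by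
    intro x
    by_cases hx : x = r
    · exact ⟨r, fun h => absurd hx h⟩
    · obtain ⟨w, hw⟩ := hG.1.exists_walk_length_eq_dist x r
      cases w with
      | nil => exact absurd rfl hx
      | @cons _ y _ hxy q =>
        refine ⟨y, fun _ => ⟨?_, hxy⟩⟩
        rw [SimpleGraph.Walk.length_cons] at hw
        have h1 : G.dist y r ≤ q.length := SimpleGraph.dist_le q
        obtain ⟨w', hw'⟩ := hG.1.exists_walk_length_eq_dist y r
        have h2 : G.dist x r ≤ (SimpleGraph.Walk.cons hxy w').length := SimpleGraph.dist_le _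
        rw [SimpleGraph.Walk.length_cons] at h2
        omega
  choose p0 hp0 using hex
  set p : V → V := fun x => if x = r then r else p0 x with hp
  have hpr : p r = r := by simp [hp]
  have hpx : ∀ x, x ≠ r → p x = p0 x := fun x hx => by simp [hp, hx]
  have hprop : ∀ x, x ≠ r → G.dist (p x) r + 1 = G.dist x r ∧ G.Adj x (p x) := by
    intro x hx
    rw [hpx x hx]
    exact hp0 x hx
  refine ⟨p, hpr, hprop, ?_⟩
  -- counting edges
  set E : Finset (Sym2 V) := (Finset.univ.erase r).image (fun x => s(x, p x)) with hE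
  have hinj : Set.InjOn (fun x => s(x, p x)) ((Finset.univ.erase r : Finset V) : Set V) := by
    intro x hx y hy hxy
    have hx' : x ≠ r := by simpa using hx
    have hy' : y ≠ r := by simpa using hy
    simp only [Sym2.eq_iff] at hxy
    rcases hxy with h | h
    · exact h.1
    · exfalso
      have e1 := (hprop x hx').1
      have e2 := (hprop y hy').1
      rw [h.2] at e1
      rw [← h.1] at e2
      omega
  have hEc : E.card = Fintype.card V - 1 := by
    rw [hE, Finset.card_image_of_injOn hinj, Finset.card_erase_of_mem (Finset.mem_univ r),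
      Finset.card_univ]
  have hsub : E ⊆ G.edgeFinset := by
    intro e he
    rw [hE, Finset.mem_image] at he
    obtain ⟨x, hx, rfl⟩ := he
    rw [SimpleGraph.mem_edgeFinset, SimpleGraph.mem_edgeSet]
    exact (hprop x (Finset.ne_of_mem_erase hx)).2
  have hcardE : G.edgeFinset.card + 1 = Fintype.card V := hG.card_edgeFinset
  have heq : E = G.edgeFinset := by
    apply Finset.eq_of_subset_of_card_le hsub
    omega
  intro x y hxy
  have hmem : s(x, y) ∈ E := by
    rw [heq, SimpleGraph.mem_edgeFinset, SimpleGraph.mem_edgeSet]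
    exact hxy
  rw [hE, Finset.mem_image] at hmem
  obtain ⟨u, hu, huv⟩ := hmem
  have hur : u ≠ r := Finset.ne_of_mem_erase hu
  rw [Sym2.eq_iff] at huv
  rcases huv with h | h
  · left; rw [← h.1]; exact ⟨hur, h.2⟩
  · right; rw [← h.1]; exact ⟨hur, h.2⟩

theorem rt_of_parent {V : Type} [Fintype V] [DecidableEq V] (G : SimpleGraph V) (r : V)
    (p : V → V) (hpr : p r = r)
    (hp : ∀ x, x ≠ r → G.dist (p x) r + 1 = G.dist x r ∧ G.Adj x (p x))
    (hadj : ∀ x y, G.Adj x y → (x ≠ r ∧ p x = y) ∨ (y ≠ r ∧ p y = x)) :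
    ∀ (m : ℕ) (U : Finset V) (t : V), U.card = m → t ∈ U →
      (∀ x ∈ U, x ≠ t → x ≠ r ∧ p x ∈ U) → ∃ k, RT G U t k := by
  classical
  intro m
  induction m using Nat.strong_induction_on with
  | _ m ih =>
    intro U t hU ht hcl
    by_cases hne : (U.erase t).Nonempty
    · obtain ⟨a, ha, hmin⟩ := Finset.exists_min_image (U.erase t) (fun x => G.dist x r) hne
      rw [Finset.mem_erase] at ha
      obtain ⟨har, hpaU⟩ := hcl a ha.2 ha.1
      have hda := (hp a har).1
      have hpat : p a = t := by
        by_contra hcon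
        have := hmin (p a) (Finset.mem_erase.2 ⟨hcon, hpaU⟩)
        omega
      have hle1 : ∀ y, G.dist (p y) r ≤ G.dist y r := by
        intro y
        by_cases hy : y = r
        · rw [hy, hpr]
        · have := (hp y hy).1
          omega
      have hle : ∀ (i : ℕ) (y : V), G.dist (p^[i] y) r ≤ G.dist y r := by
        intro i
        induction i with
        | zero => intro y; exact le_rfl
        | succ i ihi =>
          intro y
          rw [Function.iterate_succ_apply]
          exact (ihi (p y)).trans (hle1 y)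
      set U' := U.filter (fun x => ∃ i : ℕ, p^[i] x = a) with hU'
      have hat : a ≠ t := ha.1
      have htd : ¬ ∃ i : ℕ, p^[i] t = a := by
        rintro ⟨i, hi⟩
        have h1 := hle i t
        rw [hi] at h1
        rw [hpat] at hda
        omega
      have haU' : a ∈ U' := by
        rw [hU', Finset.mem_filter]
        exact ⟨ha.2, 0, rfl⟩
      have htU' : t ∉ U' := by
        rw [hU', Finset.mem_filter]
        exact fun h => htd h.2
      have hlt1 : U'.card < m := by
        rw [← hU]
        apply Finset.card_lt_card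
        rw [Finset.ssubset_iff_of_subset (Finset.filter_subset _ _)]
        exact ⟨t, ht, htU'⟩
      have hlt2 : (U \ U').card < m := by
        rw [← hU]
        apply Finset.card_lt_card
        rw [Finset.ssubset_iff_of_subset Finset.sdiff_subset]
        exact ⟨a, ha.2, fun h => (Finset.mem_sdiff.1 h).2 haU'⟩
      have hstep : ∀ x, (∃ i : ℕ, p^[i] (p x) = a) → ∃ i : ℕ, p^[i] x = a := by
        rintro x ⟨i, hi⟩
        exact ⟨i + 1, by rw [Function.iterate_succ_apply]; exact hi⟩
      obtain ⟨k', hk'⟩ := ih _ hlt1 U' a rfl haU' (by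
        intro x hx hxa
        rw [hU', Finset.mem_filter] at hx
        obtain ⟨hxU, i, hi⟩ := hx
        have hxt : x ≠ t := by
          rintro rfl
          exact htd ⟨i, hi⟩
        obtain ⟨hxr, hpx⟩ := hcl x hxU hxt
        refine ⟨hxr, ?_⟩
        rw [hU', Finset.mem_filter]
        refine ⟨hpx, ?_⟩
        cases i with
        | zero => exact absurd hi hxa
        | succ i => exact ⟨i, by rw [Function.iterate_succ_apply] at hi; exact hi⟩)
      obtain ⟨k, hk⟩ := ih _ hlt2 (U \ U') t rfl (Finset.mem_sdiff.2 ⟨ht, htU'⟩) (by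
        intro x hx hxt
        rw [Finset.mem_sdiff] at hx
        obtain ⟨hxr, hpx⟩ := hcl x hx.1 hxt
        refine ⟨hxr, ?_⟩
        rw [Finset.mem_sdiff]
        refine ⟨hpx, fun h => hx.2 ?_⟩
        rw [hU', Finset.mem_filter] at h ⊢
        exact ⟨hx.1, hstep x h.2⟩)
      refine ⟨k + 1, ?_⟩
      have hUU : (U \ U') ∪ U' = U := Finset.sdiff_union_of_subset (Finset.filter_subset _ _)
      rw [← hUU]
      refine RT.join hk hk' Finset.sdiff_disjoint ?_
      intro x hx y hy
      rw [Finset.mem_sdiff] at hx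
      have hxd : ¬ ∃ i : ℕ, p^[i] x = a := by
        intro h
        exact hx.2 (by rw [hU', Finset.mem_filter]; exact ⟨hx.1, h⟩)
      rw [hU', Finset.mem_filter] at hy
      constructor
      · intro hxy
        rcases hadj x y hxy with h | h
        · exfalso
          apply hxd
          apply hstep
          rw [h.2]
          exact hy.2
        · have hya : y = a := by
            by_contra hcon
            obtain ⟨i, hi⟩ := hy.2
            cases i with
            | zero => exact hcon hi
            | succ i =>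
              apply hxd
              refine ⟨i, ?_⟩
              rw [Function.iterate_succ_apply] at hi
              rw [← h.2]
              exact hi
          refine ⟨?_, hya⟩
          rw [← h.2, hya, hpat]
      · rintro ⟨rfl, rfl⟩
        have := (hp y har).2
        rw [hpat] at this
        exact this.symm
    · refine ⟨0, ?_⟩
      rw [Finset.not_nonempty_iff_eq_empty] at hne
      have : U = {t} := by
        ext x
        rw [Finset.mem_singleton]
        constructor
        · intro hx
          by_contra hcon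
          have : x ∈ U.erase t := Finset.mem_erase.2 ⟨hcon, hx⟩
          rw [hne] at this
          exact Finset.notMem_empty x this
        · rintro rfl
          exact ht
      rw [this]
      exact RT.single t

/-- A hyperplane through `d` points. -/
theorem exists_hyperplane {d : ℕ} (T : Finset (Fin d → ℝ)) (hT : T.card = d) (x : Fin d → ℝ)
    (hx : x ∈ T) : ∃ (φ : (Fin d → ℝ) →ₗ[ℝ] ℝ), φ ≠ 0 ∧ ∀ y ∈ T, φ y = φ x := by
  classical
  set D : Finset (Fin d → ℝ) := (T.erase x).image (fun y => y - x) with hD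
  have hDc : D.card ≤ d - 1 := by
    calc D.card ≤ (T.erase x).card := Finset.card_image_le
      _ = d - 1 := by rw [Finset.card_erase_of_mem hx, hT]
  have hd : 0 < d := by
    rw [← hT]; exact Finset.card_pos.2 ⟨x, hx⟩
  have hlt : Submodule.span ℝ (D : Set (Fin d → ℝ)) < ⊤ := by
    rw [lt_top_iff_ne_top]
    intro h
    have h1 := finrank_span_finset_le_card (R := ℝ) D
    unfold Set.finrank at h1
    rw [h, finrank_top] at h1
    simp at h1
    omega
  obtain ⟨φ, hφ, hle⟩ := Submodule.exists_le_ker_of_lt_top _ hlt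
  refine ⟨φ, hφ, fun y hy => ?_⟩
  by_cases hyx : y = x
  · rw [hyx]
  · have h1 : y - x ∈ Submodule.span ℝ (D : Set (Fin d → ℝ)) := by
      apply Submodule.subset_span
      rw [Finset.mem_coe, hD, Finset.mem_image]
      exact ⟨y, Finset.mem_erase.2 ⟨hyx, hy⟩, rfl⟩
    have h2 := hle h1
    rw [LinearMap.mem_ker, map_sub, sub_eq_zero] at h2
    exact h2

/-- Two functionals in generic position with respect to a set in general position. -/
theorem exists_gen {d : ℕ} (hd : 2 ≤ d) (S : Finset (Fin d → ℝ)) (hS : GeneralPosition d S)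
    (hc : d + 1 ≤ S.card) : ∃ f g : (Fin d → ℝ) →ₗ[ℝ] ℝ, Gen f g S := by
  classical
  -- f
  have hf : ∃ φ : (Fin d → ℝ) →ₗ[ℝ] ℝ, ∀ x ∈ S, ∀ y ∈ S, φ x = φ y → x = y := by
    set P := (S ×ˢ S).filter (fun p => p.1 ≠ p.2) with hP
    obtain ⟨φ, hφ⟩ := Module.exists_dual_forall_apply_ne_zero (K := ℝ) (M := Fin d → ℝ)
      (fun p : P => p.1.1 - p.1.2) (fun p => by
        have h1 : (p : (Fin d → ℝ) × (Fin d → ℝ)) ∈ (S ×ˢ S).filter (fun p => p.1 ≠ p.2) := p.2
        exact sub_ne_zero.2 (Finset.mem_filter.1 h1).2)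
    refine ⟨φ, fun x hx y hy hxy => ?_⟩
    by_contra hne
    have hmem : (x, y) ∈ P := by
      rw [hP, Finset.mem_filter, Finset.mem_product]
      exact ⟨⟨hx, hy⟩, hne⟩
    apply hφ ⟨(x, y), hmem⟩
    simp [hxy]
  obtain ⟨f, hf⟩ := hf
  -- no three points are collinear
  have hcol : ∀ x ∈ S, ∀ y ∈ S, ∀ z ∈ S, x ≠ y → x ≠ z → y ≠ z →
      (f y - f x) • (z - x) - (f z - f x) • (y - x) ≠ 0 := by
    intro x hx y hy z hz hxy hxz hyz h0
    have hfy : f y - f x ≠ 0 := sub_ne_zero.2 (fun h => hxy (hf y hy x hx h).symm)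
    have hsub : ({x, y, z} : Finset (Fin d → ℝ)) ⊆ S := by
      intro w hw
      simp only [Finset.mem_insert, Finset.mem_singleton] at hw
      rcases hw with rfl | rfl | rfl
      · exact hx
      · exact hy
      · exact hz
    have hc3 : ({x, y, z} : Finset (Fin d → ℝ)).card = 3 := Finset.card_eq_three.2
      ⟨x, y, z, hxy, hxz, hyz, rfl⟩
    obtain ⟨T, hT1, hT2, hT3⟩ := Finset.exists_subsuperset_card_eq hsub
      (show ({x, y, z} : Finset (Fin d → ℝ)).card ≤ d + 1 by omega) hc
    have hzT : z ∈ T := hT1 (by simp)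
    have hxT : x ∈ T.erase z := Finset.mem_erase.2 ⟨hxz, hT1 (by simp)⟩
    have hyT : y ∈ T.erase z := Finset.mem_erase.2 ⟨hyz, hT1 (by simp)⟩
    obtain ⟨φ, hφ0, hφ⟩ := exists_hyperplane (T.erase z)
      (by rw [Finset.card_erase_of_mem hzT, hT3]; rfl) x hxT
    apply hS T hT2 hT3
    refine ⟨φ, φ x, hφ0, fun w hw => ?_⟩
    by_cases hwz : w = z
    · rw [hwz]
      have h1 := congrArg φ h0
      rw [map_sub, map_smul, map_smul, map_sub, map_sub, hφ y hyT, map_zero, sub_self,
        smul_zero, sub_zero, smul_eq_mul] at h1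
      rcases mul_eq_zero.1 h1 with h2 | h2
      · exact absurd h2 hfy
      · linarith
    · exact hφ w (Finset.mem_erase.2 ⟨hwz, hw⟩)
  set P := (S ×ˢ (S ×ˢ S)).filter (fun p => p.1 ≠ p.2.1 ∧ p.1 ≠ p.2.2 ∧ p.2.1 ≠ p.2.2) with hP
  obtain ⟨g, hg⟩ := Module.exists_dual_forall_apply_ne_zero (K := ℝ) (M := Fin d → ℝ)
    (fun p : P => (f p.1.2.1 - f p.1.1) • (p.1.2.2 - p.1.1) -
      (f p.1.2.2 - f p.1.1) • (p.1.2.1 - p.1.1)) (fun p => by
      have h1 : (p : (Fin d → ℝ) × (Fin d → ℝ) × (Fin d → ℝ)) ∈
        (S ×ˢ (S ×ˢ S)).filter (fun p => p.1 ≠ p.2.1 ∧ p.1 ≠ p.2.2 ∧ p.2.1 ≠ p.2.2) := p.2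
      rw [Finset.mem_filter, Finset.mem_product, Finset.mem_product] at h1
      exact hcol _ h1.1.1 _ h1.1.2.1 _ h1.1.2.2 h1.2.1 h1.2.2.1 h1.2.2.2)
  refine ⟨f, g, hf, fun x hx y hy z hz hxy hxz hyz h0 => ?_⟩
  have hmem : (x, y, z) ∈ P := by
    rw [hP, Finset.mem_filter, Finset.mem_product, Finset.mem_product]
    exact ⟨⟨hx, hy, hz⟩, hxy, hxz, hyz⟩
  apply hg ⟨(x, y, z), hmem⟩
  simp only [map_sub, map_smul, smul_eq_mul]
  exact h0

/-- A tree viewed as a complex of dimension at most one: the faces are the empty set, the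
nodes, and the edges. -/
def treeComplex {V : Type} [DecidableEq V] (T : SimpleGraph V) : Set (Finset V) :=
  {F | F = ∅ ∨ (∃ v, F = {v}) ∨ ∃ u v, T.Adj u v ∧ F = {u, v}}

theorem tree_induced {V : Type} [Fintype V] [DecidableEq V] (T : SimpleGraph V) (hT : T.IsTree)
    (d : ℕ) (hd : 2 ≤ d) (S : Finset (Fin d → ℝ)) (hS : GeneralPosition d S)
    (hc : (d + 1) * (Fintype.card V - 1) < S.card) : PartitionInduced (treeComplex T) S := by
  classical
  have hVne : Nonempty V := hT.1.nonempty
  obtain ⟨r⟩ := hVne
  obtain ⟨p, hpr, hp, hadj⟩ := exists_parent T hT r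
  obtain ⟨k, hk⟩ := rt_of_parent T r p hpr hp hadj _ Finset.univ r rfl (Finset.mem_univ r)
    (fun x _ hx => ⟨hx, Finset.mem_univ _⟩)
  have hkc := hk.root_mem.2
  rw [Finset.card_univ] at hkc
  -- no triangles
  have hrank : ∀ x y, T.Adj x y → T.dist x r = T.dist y r + 1 ∨ T.dist y r = T.dist x r + 1 := by
    intro x y hxy
    rcases hadj x y hxy with h | h
    · left
      have := (hp x h.1).1
      rw [h.2] at this
      exact this.symm
    · right
      have := (hp y h.1).1
      rw [h.2] at this
      exact this.symm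
  -- it suffices to check pairs
  have hfin : ∀ c : (Fin d → ℝ) → V, (∀ v, ∃ s ∈ S, c s = v) →
      (∀ x y, T.Adj x y → (convexHull ℝ {s | s ∈ S ∧ c s = x} ∩
        convexHull ℝ {s | s ∈ S ∧ c s = y}).Nonempty) →
      (∀ x y, x ≠ y → ¬ T.Adj x y → Disjoint (convexHull ℝ {s | s ∈ S ∧ c s = x})
        (convexHull ℝ {s | s ∈ S ∧ c s = y})) → PartitionInduced (treeComplex T) S := by
    intro c h1 h2 h3
    refine ⟨c, h1, fun F => ⟨?_, ?_⟩⟩
    · rintro (rfl | ⟨v, rfl⟩ | ⟨u, v, huv, rfl⟩)
      · simp
      · obtain ⟨s, hs, hsv⟩ := h1 v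
        refine ⟨s, ?_⟩
        rw [Set.mem_iInter₂]
        intro w hw
        rw [Finset.mem_singleton] at hw
        subst hw
        exact subset_convexHull ℝ _ ⟨hs, hsv⟩
      · obtain ⟨z, hz1, hz2⟩ := h2 u v huv
        refine ⟨z, ?_⟩
        rw [Set.mem_iInter₂]
        intro w hw
        rw [Finset.mem_insert, Finset.mem_singleton] at hw
        rcases hw with rfl | rfl
        · exact hz1
        · exact hz2
    · rintro ⟨z, hz⟩
      rw [Set.mem_iInter₂] at hz
      have hpair : ∀ x ∈ F, ∀ y ∈ F, x ≠ y → T.Adj x y := by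
        intro x hx y hy hxy
        by_contra hcon
        exact Set.disjoint_left.1 (h3 x y hxy hcon) (hz x hx) (hz y hy)
      have hcard : F.card ≤ 2 := by
        by_contra hcon
        push Not at hcon
        obtain ⟨x, hx, y, hy, w, hw, hxy, hxw, hyw⟩ := Finset.two_lt_card.1 hcon
        have e1 := hrank x y (hpair x hx y hy hxy)
        have e2 := hrank x w (hpair x hx w hw hxw)
        have e3 := hrank y w (hpair y hy w hw hyw)
        omega
      have : F.card = 0 ∨ F.card = 1 ∨ F.card = 2 := by omega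
      rcases this with h | h | h
      · left; exact Finset.card_eq_zero.1 h
      · right; left; exact Finset.card_eq_one.1 h
      · right; right
        obtain ⟨u, v, huv, rfl⟩ := Finset.card_eq_two.1 h
        exact ⟨u, v, hpair u (by simp) v (by simp) huv, rfl⟩
  rcases Nat.lt_or_ge (Fintype.card V) 2 with hn | hn
  · -- one node
    have hsub : Subsingleton V := by
      rw [← Fintype.card_le_one_iff_subsingleton]
      omega
    have hSne : S.Nonempty := by
      rw [← Finset.card_pos]; omega
    obtain ⟨s, hs⟩ := hSne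
    refine hfin (fun _ => r) (fun v => ⟨s, hs, Subsingleton.elim _ _⟩) ?_ ?_
    · intro x y hxy
      exact absurd (Subsingleton.elim x y) hxy.ne
    · intro x y hxy
      exact absurd (Subsingleton.elim x y) hxy
  · have hdc : d + 1 ≤ S.card := by
      have : (d + 1) * 1 ≤ (d + 1) * (Fintype.card V - 1) := Nat.mul_le_mul_left _ (by omega)
      omega
    obtain ⟨f, g, hG⟩ := exists_gen hd S hS hdc
    have hBle : (d + 1) * (Fintype.card V - 1 - k) ≤ S.card := by
      have : (d + 1) * (Fintype.card V - 1 - k) ≤ (d + 1) * (Fintype.card V - 1) :=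
        Nat.mul_le_mul_left _ (by omega)
      omega
    obtain ⟨B, hB1, hB2, hB3⟩ := threshold f S hG.1 _ hBle
    have hsum : (d + 1) * (Fintype.card V - 1) = (d + 1) * (Fintype.card V - 1 - k) + (d + 1) * k := by
      rw [← Nat.mul_add]
      congr 1
      omega
    have hA0c : (S \ B).card = S.card - (d + 1) * (Fintype.card V - 1 - k) := by
      rw [Finset.card_sdiff_of_subset hB1, hB2]
    have hA0 : (S \ B).Nonempty := by
      rw [← Finset.card_pos]; omega
    obtain ⟨z, hz⟩ := hA0
    set A := (S \ B).erase z with hA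
    have hAS : A ⊆ S := (Finset.erase_subset _ _).trans Finset.sdiff_subset
    have hAc : A.card = S.card - (d + 1) * (Fintype.card V - 1 - k) - 1 := by
      rw [hA, Finset.card_erase_of_mem hz, hA0c]
    obtain ⟨φ, c1, c2, c3, c4, c5⟩ := main_tree T f g hk A B z
      (hG.mono (Finset.union_subset hAS hB1))
      (fun x hx y hy => hB3 y hy x (Finset.mem_of_mem_erase hx))
      (by omega) (by rw [Finset.card_univ]; exact hB2)
    have hzS := (Finset.mem_sdiff.1 hz).1
    have hzB := (Finset.mem_sdiff.1 hz).2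
    have hzAB : z ∉ A ∪ B := by
      rw [Finset.mem_union]
      rintro (h | h)
      · exact (Finset.notMem_erase z _) h
      · exact hzB h
    have hSeq : ∀ s, s ∈ S ↔ s ∈ A ∪ B ∨ s = z := by
      intro s
      rw [Finset.mem_union, hA, Finset.mem_erase, Finset.mem_sdiff]
      constructor
      · intro hs
        by_cases e1 : s = z
        · exact Or.inr e1
        · by_cases e2 : s ∈ B
          · exact Or.inl (Or.inr e2)
          · exact Or.inl (Or.inl ⟨e1, hs, e2⟩)
      · rintro ((h | h) | h)
        · exact h.2.1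
        · exact hB1 h
        · rw [h]; exact hzS
    set c : (Fin d → ℝ) → V := fun s => if s = z then r else φ s with hcdef
    have hcz : c z = r := by simp [hcdef]
    have hcs : ∀ s, s ≠ z → c s = φ s := fun s hs => by simp [hcdef, hs]
    have hpart : ∀ x, {s | s ∈ S ∧ c s = x} = part φ (A ∪ B) z r x := by
      intro x
      ext s
      constructor
      · rintro ⟨hs, hsx⟩
        rcases (hSeq s).1 hs with h | h
        · left
          have hne : s ≠ z := fun e => hzAB (e ▸ h)
          rw [hcs s hne] at hsx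
          exact ⟨h, hsx⟩
        · right
          rw [h, hcz] at hsx
          exact ⟨hsx.symm, h⟩
      · rintro (⟨hs, hsx⟩ | ⟨hs, hsz⟩)
        · have hne : s ≠ z := fun e => hzAB (e ▸ hs)
          exact ⟨(hSeq s).2 (Or.inl hs), by rw [hcs s hne]; exact hsx⟩
        · rw [hsz]
          exact ⟨hzS, by rw [hcz]; exact hs.symm⟩
    have hnbr : ∀ x, ∃ y, T.Adj x y := by
      intro x
      have : Nontrivial V := Fintype.one_lt_card_iff_nontrivial.1 (by omega)
      obtain ⟨y, hy⟩ := exists_ne x
      obtain ⟨w⟩ := hT.1.preconnected x y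
      cases w with
      | nil => exact absurd rfl hy
      | @cons _ b _ h _ => exact ⟨b, h⟩
    have hedge : ∀ x y, T.Adj x y → (convexHull ℝ {s | s ∈ S ∧ c s = x} ∩
        convexHull ℝ {s | s ∈ S ∧ c s = y}).Nonempty := by
      intro x y hxy
      rw [hpart, hpart]
      exact c4 x (Finset.mem_univ _) y (Finset.mem_univ _) hxy
    have hroot : ∀ y, y ≠ r → ¬ T.Adj r y → Disjoint (convexHull ℝ {s | s ∈ S ∧ c s = y})
        (convexHull ℝ {s | s ∈ S ∧ c s = r}) := by
      intro y hyr hny
      refine disj_of_lt f _ _ (S.finite_toSet.subset (fun s hs => hs.1)) ?_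
      intro s hs t ht
      rw [hpart] at hs ht
      have hs' : s ∈ B := by
        rcases hs with ⟨e1, e2⟩ | ⟨e1, _⟩
        · by_contra hcon
          have hsA : s ∈ A := by
            rcases Finset.mem_union.1 e1 with h | h
            · exact h
            · exact absurd h hcon
          rcases c3 s hsA with h | h
          · exact hyr (e2.symm.trans h)
          · rw [e2] at h; exact hny h
        · exact absurd e1 hyr
      have ht' : t ∈ S \ B := by
        rcases ht with ⟨e1, e2⟩ | ⟨_, e2⟩
        · have htB : t ∉ B := fun h => c2 t h e2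
          have htA : t ∈ A := by
            rcases Finset.mem_union.1 e1 with h | h
            · exact h
            · exact absurd h htB
          exact Finset.mem_of_mem_erase htA
        · rw [e2]; exact hz
      exact hB3 s hs' t ht'
    refine hfin c ?_ hedge ?_
    · intro v
      obtain ⟨y, hy⟩ := hnbr v
      obtain ⟨w, hw, _⟩ := hedge v y hy
      have h1 : ({s | s ∈ S ∧ c s = v} : Set (Fin d → ℝ)).Nonempty := by
        rw [← convexHull_nonempty_iff (𝕜 := ℝ)]
        exact ⟨w, hw⟩
      obtain ⟨s, hs⟩ := h1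
      exact ⟨s, hs.1, hs.2⟩
    · intro x y hxy hnadj
      by_cases e1 : x = r
      · subst e1
        exact (hroot y (Ne.symm hxy) hnadj).symm
      · by_cases e2 : y = r
        · subst e2
          exact hroot x e1 (fun h => hnadj h.symm)
        · rw [hpart, hpart]
          exact c5 x (Finset.mem_univ _) y (Finset.mem_univ _) hxy hnadj e1 e2

end Pool.Agent.H1Tv
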