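import Pool.Agent.H1Tv.TreeFinal
import Pool.Agent.H1Tv.Moment

/-!
# Lower bounds for Tverberg numbers from the moment curve
-/

namespace Pool.Agent.H1Tv

/-- Sizes of two disjoint sets which alternate along a sequence of length `n`. -/
theorem alt_card {X Y : Finset ℕ} {n : ℕ} (hXY : Disjoint X Y) (hn : 2 ≤ n) (h : Alt X Y n) :
    n / 2 ≤ X.card ∧ n ≤ X.card + Y.card := by
  classical
  obtain ⟨z, hz⟩ := h
  have hmono : ∀ k i : ℕ, i + k + 1 < n → z i < z (i + k + 1) := by
    intro k
    induction k with
    | zero => intro i hi; exact (hz i hi).1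
    | succ k ih =>
      intro i hi
      have h1 := ih i (by omega)
      have h2 := (hz (i + k + 1) (by omega)).1
      have h3 : i + (k + 1) + 1 = i + k + 1 + 1 := by ring
      rw [h3]
      exact h1.trans h2
  have hlt : ∀ i j : ℕ, i < j → j < n → z i < z j := by
    intro i j hij hj
    have h1 := hmono (j - i - 1) i (by omega)
    have h2 : i + (j - i - 1) + 1 = j := by omega
    rwa [h2] at h1
  have hle : ∀ i j : ℕ, i ≤ j → j < n → z i ≤ z j := by
    intro i j hij hj
    rcases hij.lt_or_eq with h | h
    · exact (hlt i j h hj).le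
    · rw [h]
  have hinj : ∀ i j : ℕ, i < n → j < n → z i = z j → i = j := by
    intro i j hi hj hij
    rcases lt_trichotomy i j with h | h | h
    · exact absurd hij (hlt i j h hj).ne
    · exact h
    · exact absurd hij (hlt j i h hi).ne'
  have hmem : ∀ i, i < n → z i ∈ X ∪ Y := by
    intro i hi
    rw [Finset.mem_union]
    by_cases h1 : i + 1 < n
    · rcases (hz i h1).2 with h | h
      · exact Or.inl h.1
      · exact Or.inr h.1
    · have h2 : i - 1 + 1 = i := by omega
      have h3 := (hz (i - 1) (by omega)).2
      rw [h2] at h3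
      rcases h3 with h | h
      · exact Or.inr h.2
      · exact Or.inl h.2
  constructor
  · have h1 : (Finset.range (n / 2)).card ≤ X.card := by
      apply Finset.card_le_card_of_injOn
        (fun j => if z (2 * j) ∈ X then z (2 * j) else z (2 * j + 1))
      · intro j hj
        have hj' : j < n / 2 := by simpa using hj
        have h2 := (hz (2 * j) (by omega)).2
        show (if z (2 * j) ∈ X then z (2 * j) else z (2 * j + 1)) ∈ (X : Set ℕ)
        split_ifs with h
        · exact h
        · rcases h2 with h3 | h3
          · exact absurd h3.1 h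
          · exact h3.2
      · have hb : ∀ j, j < n / 2 →
            z (2 * j) ≤ (if z (2 * j) ∈ X then z (2 * j) else z (2 * j + 1)) ∧
            (if z (2 * j) ∈ X then z (2 * j) else z (2 * j + 1)) ≤ z (2 * j + 1) := by
          intro j hj
          have h2 := hle (2 * j) (2 * j + 1) (by omega) (by omega)
          split_ifs with h
          · exact ⟨le_rfl, h2⟩
          · exact ⟨h2, le_rfl⟩
        intro i hi j hj hij
        have hi' : i < n / 2 := by simpa using hi
        have hj' : j < n / 2 := by simpa using hj
        have hij' : (if z (2 * i) ∈ X then z (2 * i) else z (2 * i + 1)) =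
          (if z (2 * j) ∈ X then z (2 * j) else z (2 * j + 1)) := hij
        have hbi := hb i hi'
        have hbj := hb j hj'
        rcases lt_trichotomy i j with h | h | h
        · have h3 := hlt (2 * i + 1) (2 * j) (by omega) (by omega)
          omega
        · exact h
        · have h3 := hlt (2 * j + 1) (2 * i) (by omega) (by omega)
          omega
    rwa [Finset.card_range] at h1
  · rw [← Finset.card_union_of_disjoint hXY]
    have h1 : (Finset.range n).card ≤ (X ∪ Y).card := by
      apply Finset.card_le_card_of_injOn z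
      · intro i hi
        have hi' : i < n := by simpa using hi
        exact hmem i hi'
      · intro i hi j hj hij
        have hi' : i < n := by simpa using hi
        have hj' : j < n := by simpa using hj
        exact hinj i j hi' hj' hij
    rwa [Finset.card_range] at h1

theorem alt_symm {X Y : Finset ℕ} {n : ℕ} (h : Alt X Y n) : Alt Y X n := by
  obtain ⟨z, hz⟩ := h
  exact ⟨z, fun i hi => ⟨(hz i hi).1, (hz i hi).2.symm⟩⟩

/-- A partition of points of the moment curve which induces a complex containing the edges of a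
graph without isolated vertices has at least `n (⌊d / 2⌋ + 1)` points, and more if `d` is odd. -/
theorem moment_lower {V : Type} [Fintype V] [DecidableEq V] (T : SimpleGraph V)
    (hT : ∀ v, ∃ w, T.Adj v w) (d N : ℕ) (hd : 1 ≤ d) (c : (Fin d → ℝ) → V)
    (hc : ∀ v w, T.Adj v w → (convexHull ℝ {s | s ∈ mom d N ∧ c s = v} ∩
      convexHull ℝ {s | s ∈ mom d N ∧ c s = w}).Nonempty) :
    ∃ C : Finset V, (∀ v w, T.Adj v w → v ∈ C ∨ w ∈ C) ∧
      Fintype.card V * (d / 2 + 1) + (d % 2) * C.card ≤ N := by
  classical
  set X : V → Finset ℕ := fun v => (Finset.range N).filter (fun t => c (gam d t) = v) with hX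
  have himg : ∀ v, gam d '' (X v : Set ℕ) = {s | s ∈ mom d N ∧ c s = v} := by
    intro v
    ext s
    constructor
    · rintro ⟨t, ht, rfl⟩
      rw [Finset.mem_coe, hX, Finset.mem_filter] at ht
      refine ⟨?_, ht.2⟩
      unfold mom
      rw [Finset.mem_image]
      exact ⟨t, ht.1, rfl⟩
    · rintro ⟨hs, hsv⟩
      unfold mom at hs
      rw [Finset.mem_image] at hs
      obtain ⟨t, ht, rfl⟩ := hs
      refine ⟨t, ?_, rfl⟩
      rw [Finset.mem_coe, hX, Finset.mem_filter]
      exact ⟨ht, hsv⟩
  have hdisj : ∀ v w, v ≠ w → Disjoint (X v) (X w) := by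
    intro v w hvw
    rw [Finset.disjoint_left]
    intro t ht ht'
    rw [hX, Finset.mem_filter] at ht ht'
    exact hvw (ht.2.symm.trans ht'.2)
  have hkey : ∀ v w, T.Adj v w → (d + 2) / 2 ≤ (X v).card ∧ d + 2 ≤ (X v).card + (X w).card := by
    intro v w hvw
    have h1 := hc v w hvw
    rw [← himg, ← himg] at h1
    exact alt_card (hdisj v w hvw.ne) (by omega) (alt_of_inter d (X v) (X w) h1
      (hdisj v w hvw.ne))
  have hone : ∀ v, d / 2 + 1 ≤ (X v).card := by
    intro v
    obtain ⟨w, hw⟩ := hT v
    have := (hkey v w hw).1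
    omega
  have hsum : ∑ v : V, (X v).card = N := by
    have h1 : (Finset.range N).card = ∑ v ∈ (Finset.univ : Finset V),
        ((Finset.range N).filter (fun t => c (gam d t) = v)).card :=
      Finset.card_eq_sum_card_fiberwise (fun t _ => Finset.mem_univ _)
    rw [Finset.card_range] at h1
    exact h1.symm
  rcases Nat.even_or_odd d with he | ho
  · refine ⟨Finset.univ, fun v w _ => Or.inl (Finset.mem_univ v), ?_⟩
    have h2 : d % 2 = 0 := Nat.even_iff.1 he
    rw [h2, zero_mul, add_zero]
    calc Fintype.card V * (d / 2 + 1) = ∑ _v : V, (d / 2 + 1) := by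
          rw [Finset.sum_const, Finset.card_univ, smul_eq_mul]
      _ ≤ ∑ v : V, (X v).card := Finset.sum_le_sum (fun v _ => hone v)
      _ = N := hsum
  · have h2 : d % 2 = 1 := Nat.odd_iff.1 ho
    refine ⟨Finset.univ.filter (fun v => d / 2 + 2 ≤ (X v).card), ?_, ?_⟩
    · intro v w hvw
      by_contra hcon
      push Not at hcon
      rw [Finset.mem_filter, Finset.mem_filter] at hcon
      have h3 : ¬ d / 2 + 2 ≤ (X v).card := fun h => hcon.1 ⟨Finset.mem_univ v, h⟩
      have h4 : ¬ d / 2 + 2 ≤ (X w).card := fun h => hcon.2 ⟨Finset.mem_univ w, h⟩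
      have h5 := (hkey v w hvw).2
      omega
    · rw [h2, one_mul]
      calc Fintype.card V * (d / 2 + 1) +
            (Finset.univ.filter (fun v => d / 2 + 2 ≤ (X v).card)).card
          = ∑ v : V, ((d / 2 + 1) + if d / 2 + 2 ≤ (X v).card then 1 else 0) := by
            rw [Finset.sum_add_distrib, Finset.sum_const, Finset.card_univ, smul_eq_mul,
              Finset.card_filter]
        _ ≤ ∑ v : V, (X v).card := by
            apply Finset.sum_le_sum
            intro v _
            have := hone v
            split_ifs with h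
            · omega
            · omega
        _ = N := hsum

/-- The lower bound for trees. -/
theorem tree_lower {V : Type} [Fintype V] [DecidableEq V] (T : SimpleGraph V) (hT : T.IsTree)
    (hV : 2 ≤ Fintype.card V) (d : ℕ) (hd : 1 ≤ d) (m : ℕ)
    (hm : ∀ S : Finset (Fin d → ℝ), GeneralPosition d S → m < S.card →
      PartitionInduced (treeComplex T) S) :
    ∃ C : Finset V, (∀ v w, T.Adj v w → v ∈ C ∨ w ∈ C) ∧
      Fintype.card V * (d / 2 + 1) + (d % 2) * C.card ≤ m + 1 := by
  classical
  obtain ⟨c, _, hF⟩ := hm (mom d (m + 1)) (mom_general d (m + 1))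
    (by rw [mom_card d (m + 1) hd]; omega)
  have hnbr : ∀ x, ∃ y, T.Adj x y := by
    intro x
    have : Nontrivial V := Fintype.one_lt_card_iff_nontrivial.1 (by omega)
    obtain ⟨y, hy⟩ := exists_ne x
    obtain ⟨w⟩ := hT.1.preconnected x y
    cases w with
    | nil => exact absurd rfl hy
    | @cons _ b _ h _ => exact ⟨b, h⟩
  refine moment_lower T hnbr d (m + 1) hd c ?_
  intro v w hvw
  have h1 : ({v, w} : Finset V) ∈ treeComplex T := Or.inr (Or.inr ⟨v, w, hvw, rfl⟩)
  obtain ⟨z, hz⟩ := (hF {v, w}).1 h1
  rw [Set.mem_iInter₂] at hz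
  exact ⟨z, hz v (by simp), hz w (by simp)⟩

end Pool.Agent.H1Tv
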