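import Pool.Agent.H1Tv.TreeCut

/-!
# The inductive construction for trees
-/

namespace Pool.Agent.H1Tv

/-- Rooted subtrees of a graph, built by attaching at the root a new child with its subtree. The
last index is the number of children of the root. -/
inductive RT {V : Type} [DecidableEq V] (G : SimpleGraph V) : Finset V → V → ℕ → Prop
  | single (v : V) : RT G {v} v 0
  | join {U U' : Finset V} {r a : V} {k k' : ℕ} : RT G U r k → RT G U' a k' → Disjoint U U' →
      (∀ x ∈ U, ∀ y ∈ U', G.Adj x y ↔ (x = r ∧ y = a)) → RT G (U ∪ U') r (k + 1)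

theorem RT.root_mem {V : Type} [DecidableEq V] {G : SimpleGraph V} {U : Finset V} {r : V} {k : ℕ}
    (h : RT G U r k) : r ∈ U ∧ k + 1 ≤ U.card := by
  induction h with
  | single v => simp
  | join h1 h2 h3 h4 ih1 ih2 =>
    refine ⟨Finset.mem_union_left _ ih1.1, ?_⟩
    rw [Finset.card_union_of_disjoint h3]
    omega

/-- The class of `x` for the assignment `φ` of the points of `X`; the root also gets `z`. -/
def part {d : ℕ} {V : Type} (φ : (Fin d → ℝ) → V) (X : Finset (Fin d → ℝ)) (z : Fin d → ℝ)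
    (r x : V) : Set (Fin d → ℝ) :=
  {s | s ∈ X ∧ φ s = x} ∪ {s | x = r ∧ s = z}

theorem part_finite {d : ℕ} {V : Type} (φ : (Fin d → ℝ) → V) (X : Finset (Fin d → ℝ))
    (z : Fin d → ℝ) (r x : V) : (part φ X z r x).Finite := by
  refine Set.Finite.union ?_ ?_
  · exact X.finite_toSet.subset (fun s hs => hs.1)
  · exact (Set.finite_singleton z).subset (fun s hs => hs.2)

theorem main_tree {d : ℕ} {V : Type} [DecidableEq V] (G : SimpleGraph V)
    (f g : (Fin d → ℝ) →ₗ[ℝ] ℝ) {U : Finset V} {r : V} {k : ℕ} (h : RT G U r k) :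
    ∀ (A B : Finset (Fin d → ℝ)) (z : Fin d → ℝ), Gen f g (A ∪ B) →
      (∀ a ∈ A, ∀ b ∈ B, f b < f a) → (d + 1) * k ≤ A.card →
      B.card = (d + 1) * (U.card - 1 - k) →
      ∃ φ : (Fin d → ℝ) → V, (∀ s ∈ A ∪ B, φ s ∈ U) ∧ (∀ s ∈ B, φ s ≠ r) ∧
        (∀ s ∈ A, φ s = r ∨ G.Adj r (φ s)) ∧
        (∀ x ∈ U, ∀ y ∈ U, G.Adj x y → (convexHull ℝ (part φ (A ∪ B) z r x) ∩
          convexHull ℝ (part φ (A ∪ B) z r y)).Nonempty) ∧
        (∀ x ∈ U, ∀ y ∈ U, x ≠ y → ¬ G.Adj x y → x ≠ r → y ≠ r →
          Disjoint (convexHull ℝ (part φ (A ∪ B) z r x))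
            (convexHull ℝ (part φ (A ∪ B) z r y))) := by
  classical
  induction h with
  | single v =>
    intro A B z _ _ _ hB
    have hB0 : B = ∅ := by
      rw [← Finset.card_eq_zero, hB]
      simp
    subst hB0
    refine ⟨fun _ => v, fun s _ => by simp, fun s hs => absurd hs (Finset.notMem_empty s),
      fun s _ => Or.inl rfl, ?_, ?_⟩
    · intro x hx y hy hxy
      rw [Finset.mem_singleton] at hx hy
      subst hx; subst hy
      exact absurd hxy (G.irrefl)
    · intro x hx y hy hxy
      rw [Finset.mem_singleton] at hx hy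
      exact absurd (hx.trans hy.symm) hxy
  | @join U U' r a k k' h1 h2 hdis hadj ih1 ih2 =>
    intro A B z hG hAB hA hB
    obtain ⟨hrU, hkU⟩ := h1.root_mem
    obtain ⟨haU', hkU'⟩ := h2.root_mem
    have hra : G.Adj r a := (hadj r hrU a haU').2 ⟨rfl, rfl⟩
    have hcard : (U ∪ U').card = U.card + U'.card := Finset.card_union_of_disjoint hdis
    have hB' : B.card = (d + 1) * (U.card - 1 - k) + (d + 1) * (U'.card - 1) := by
      rw [hB, hcard, ← Nat.mul_add]
      congr 1
      omega
    have hA' : (d + 1) * k + (d + 1) ≤ A.card := by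
      have : (d + 1) * (k + 1) = (d + 1) * k + (d + 1) := by ring
      omega
    obtain ⟨A1, hA1, B1, hB1, hA1c, hB1c, hcut⟩ := cut f g A B hG hAB (d + 1)
      ((d + 1) * (U'.card - 1)) (by omega) (by omega)
    have hABd : Disjoint A B := by
      rw [Finset.disjoint_left]
      intro x hx hx'
      exact lt_irrefl _ (hAB x hx x hx')
    -- first induction hypothesis
    obtain ⟨φ1, a1, a2, a3, a4, a5⟩ := ih1 (A \ A1) (B \ B1) z
      (hG.mono (Finset.union_subset_union Finset.sdiff_subset Finset.sdiff_subset))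
      (fun x hx y hy => hAB x (Finset.sdiff_subset hx) y (Finset.sdiff_subset hy))
      (by rw [Finset.card_sdiff_of_subset hA1]; omega)
      (by rw [Finset.card_sdiff_of_subset hB1]; omega)
    -- Radon
    obtain ⟨Q1, hQ1, hrad⟩ := radon_z A1 hA1c z
    have hQne : (Q1 : Set (Fin d → ℝ)).Nonempty := by
      rw [← convexHull_nonempty_iff (𝕜 := ℝ)]
      exact ⟨_, hrad.choose_spec.1⟩
    obtain ⟨z', hz'⟩ := hQne
    -- threshold
    have hfB1 : ∀ x ∈ B1, ∀ y ∈ B1, f x = f y → x = y := fun x hx y hy =>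
      hG.1 x (Finset.mem_union_right _ (hB1 hx)) y (Finset.mem_union_right _ (hB1 hy))
    have hle : (d + 1) * (U'.card - 1 - k') ≤ B1.card := by
      rw [hB1c]
      exact Nat.mul_le_mul_left _ (by omega)
    obtain ⟨B2, hB2, hB2c, hB2lt⟩ := threshold f B1 hfB1 _ hle
    have hA2c : (B1 \ B2).card = (d + 1) * k' := by
      rw [Finset.card_sdiff_of_subset hB2, hB1c, hB2c, ← Nat.mul_sub]
      congr 1
      omega
    have hunion : (B1 \ B2) ∪ B2 = B1 := Finset.sdiff_union_of_subset hB2
    obtain ⟨φ2, b1, b2, b3, b4, b5⟩ := ih2 (B1 \ B2) B2 z'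
      (hG.mono (by rw [hunion]; exact fun x hx => Finset.mem_union_right _ (hB1 hx)))
      (fun x hx y hy => hB2lt y hy x hx) (by omega) hB2c
    rw [hunion] at b1 b4 b5
    set φ : (Fin d → ℝ) → V := fun s => if s ∈ A1 then (if s ∈ Q1 then a else r) else
      if s ∈ B1 then φ2 s else φ1 s with hφ
    have hφQ : ∀ s ∈ Q1, φ s = a := by
      intro s hs
      simp only [hφ, if_pos (hQ1 hs), if_pos hs]
    have hφA : ∀ s ∈ A1 \ Q1, φ s = r := by
      intro s hs
      rw [Finset.mem_sdiff] at hs
      simp only [hφ, if_pos hs.1, if_neg hs.2]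
    have hφB : ∀ s ∈ B1, φ s = φ2 s := by
      intro s hs
      have : s ∉ A1 := fun h => Finset.disjoint_left.1 hABd (hA1 h) (hB1 hs)
      simp only [hφ, if_neg this, if_pos hs]
    have hφ1 : ∀ s, s ∉ A1 → s ∉ B1 → φ s = φ1 s := by
      intro s h1 h2
      simp only [hφ, if_neg h1, if_neg h2]
    have hrU' : r ∉ U' := fun h => Finset.disjoint_left.1 hdis hrU h
    have haU : a ∉ U := fun h => Finset.disjoint_left.1 hdis h haU'
    have har : a ≠ r := fun h => haU (h ▸ hrU)
    -- classification of points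
    have hcases : ∀ s ∈ A ∪ B, (s ∈ Q1) ∨ (s ∈ A1 \ Q1) ∨ (s ∈ B1) ∨
        (s ∉ A1 ∧ s ∉ B1 ∧ s ∈ (A \ A1) ∪ (B \ B1)) := by
      intro s hs
      by_cases e1 : s ∈ Q1
      · exact Or.inl e1
      by_cases e2 : s ∈ A1
      · exact Or.inr (Or.inl (Finset.mem_sdiff.2 ⟨e2, e1⟩))
      by_cases e3 : s ∈ B1
      · exact Or.inr (Or.inr (Or.inl e3))
      refine Or.inr (Or.inr (Or.inr ⟨e2, e3, ?_⟩))
      rw [Finset.mem_union] at hs ⊢
      rcases hs with hs | hs
      · exact Or.inl (Finset.mem_sdiff.2 ⟨hs, e2⟩)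
      · exact Or.inr (Finset.mem_sdiff.2 ⟨hs, e3⟩)
    -- inclusions between classes
    have inc1 : ∀ x ∈ U, part φ1 ((A \ A1) ∪ (B \ B1)) z r x ⊆ part φ (A ∪ B) z r x := by
      intro x hx s hs
      rcases hs with ⟨hs, hsx⟩ | hs
      · left
        rw [Finset.mem_union, Finset.mem_sdiff, Finset.mem_sdiff] at hs
        have e1 : s ∉ A1 := by
          rcases hs with hs | hs
          · exact hs.2
          · exact fun h => Finset.disjoint_left.1 hABd (hA1 h) hs.1
        have e2 : s ∉ B1 := by
          rcases hs with hs | hs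
          · exact fun h => Finset.disjoint_left.1 hABd hs.1 (hB1 h)
          · exact hs.2
        refine ⟨?_, by rw [hφ1 s e1 e2]; exact hsx⟩
        rw [Finset.mem_union]
        rcases hs with hs | hs
        · exact Or.inl hs.1
        · exact Or.inr hs.1
      · right; exact hs
    have inc2 : ∀ x ∈ U', part φ2 B1 z' a x ⊆ part φ (A ∪ B) z r x := by
      intro x hx s hs
      rcases hs with ⟨hs, hsx⟩ | ⟨hs, hsz⟩
      · left
        exact ⟨Finset.mem_union_right _ (hB1 hs), by rw [hφB s hs]; exact hsx⟩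
      · left
        subst hsz
        refine ⟨Finset.mem_union_left _ (hA1 (hQ1 hz')), ?_⟩
        rw [hφQ s hz', hs]
    have inc3 : ∀ x ∈ U, x ≠ r → part φ (A ∪ B) z r x ⊆ part φ1 ((A \ A1) ∪ (B \ B1)) z r x := by
      intro x hx hxr s hs
      rcases hs with ⟨hs, hsx⟩ | hs
      · rcases hcases s hs with e | e | e | ⟨e1, e2, e3⟩
        · rw [hφQ s e] at hsx
          exact absurd (hsx ▸ hx) haU
        · rw [hφA s e] at hsx
          exact absurd hsx.symm hxr
        · rw [hφB s e] at hsx
          have := b1 s e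
          rw [hsx] at this
          exact absurd this (Finset.disjoint_left.1 hdis hx)
        · left
          exact ⟨e3, by rw [← hφ1 s e1 e2]; exact hsx⟩
      · exact absurd hs.1 hxr
    have inc4 : ∀ y ∈ U', ∀ s ∈ part φ (A ∪ B) z r y, (s ∈ Q1 ∧ y = a) ∨ (s ∈ B1 ∧ φ2 s = y) := by
      intro y hy s hs
      rcases hs with ⟨hs, hsx⟩ | hs
      · rcases hcases s hs with e | e | e | ⟨e1, e2, e3⟩
        · rw [hφQ s e] at hsx
          exact Or.inl ⟨e, hsx.symm⟩
        · rw [hφA s e] at hsx
          exact absurd (hsx ▸ hy) hrU'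
        · rw [hφB s e] at hsx
          exact Or.inr ⟨e, hsx⟩
        · rw [hφ1 s e1 e2] at hsx
          have := a1 s e3
          rw [hsx] at this
          exact absurd hy (Finset.disjoint_left.1 hdis this)
      · exact absurd (hs.1 ▸ hy) hrU'
    refine ⟨φ, ?_, ?_, ?_, ?_, ?_⟩
    · intro s hs
      rcases hcases s hs with e | e | e | ⟨e1, e2, e3⟩
      · rw [hφQ s e]; exact Finset.mem_union_right _ haU'
      · rw [hφA s e]; exact Finset.mem_union_left _ hrU
      · rw [hφB s e]; exact Finset.mem_union_right _ (b1 s e)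
      · rw [hφ1 s e1 e2]; exact Finset.mem_union_left _ (a1 s e3)
    · intro s hs
      have hsA : s ∉ A1 := fun h => Finset.disjoint_left.1 hABd (hA1 h) hs
      by_cases e : s ∈ B1
      · rw [hφB s e]
        intro h
        have := b1 s e
        rw [h] at this
        exact hrU' this
      · rw [hφ1 s hsA e]
        exact a2 s (Finset.mem_sdiff.2 ⟨hs, e⟩)
    · intro s hs
      have hsB : s ∉ B1 := fun h => Finset.disjoint_left.1 hABd hs (hB1 h)
      by_cases e : s ∈ A1
      · by_cases e2 : s ∈ Q1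
        · right; rw [hφQ s e2]; exact hra
        · left; exact hφA s (Finset.mem_sdiff.2 ⟨e, e2⟩)
      · rw [hφ1 s e hsB]
        exact a3 s (Finset.mem_sdiff.2 ⟨hs, e⟩)
    · -- adjacent nodes
      have cross : (convexHull ℝ (part φ (A ∪ B) z r r) ∩
          convexHull ℝ (part φ (A ∪ B) z r a)).Nonempty := by
        obtain ⟨w, hw1, hw2⟩ := hrad
        refine ⟨w, convexHull_mono ?_ hw2, convexHull_mono ?_ hw1⟩
        · intro s hs
          rcases hs with rfl | hs
          · right; exact ⟨rfl, rfl⟩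
          · left
            rw [Finset.mem_coe] at hs
            exact ⟨Finset.mem_union_left _ (hA1 (Finset.mem_sdiff.1 hs).1), hφA s hs⟩
        · intro s hs
          left
          exact ⟨Finset.mem_union_left _ (hA1 (hQ1 hs)), hφQ s hs⟩
      intro x hx y hy hxy
      rw [Finset.mem_union] at hx hy
      rcases hx with hx | hx <;> rcases hy with hy | hy
      · obtain ⟨w, hw1, hw2⟩ := a4 x hx y hy hxy
        exact ⟨w, convexHull_mono (inc1 x hx) hw1, convexHull_mono (inc1 y hy) hw2⟩
      · obtain ⟨rfl, rfl⟩ := (hadj x hx y hy).1 hxy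
        exact cross
      · obtain ⟨rfl, rfl⟩ := (hadj y hy x hx).1 hxy.symm
        rw [Set.inter_comm]
        exact cross
      · obtain ⟨w, hw1, hw2⟩ := b4 x hx y hy hxy
        exact ⟨w, convexHull_mono (inc2 x hx) hw1, convexHull_mono (inc2 y hy) hw2⟩
    · -- nonadjacent nodes
      have hsep : ∀ y ∈ U', y ≠ a → ¬ G.Adj a y →
          Disjoint (convexHull ℝ (part φ (A ∪ B) z r y))
            (convexHull ℝ (part φ (A ∪ B) z r a)) := by
        intro y hy hya hnadj
        refine disj_of_lt f _ _ (part_finite _ _ _ _ _) ?_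
        intro s hs t ht
        have hs' : s ∈ B2 := by
          rcases inc4 y hy s hs with ⟨_, e⟩ | ⟨e1, e2⟩
          · exact absurd e hya
          · by_contra hcon
            rcases b3 s (Finset.mem_sdiff.2 ⟨e1, hcon⟩) with e3 | e3
            · exact hya (e2.symm.trans e3)
            · rw [e2] at e3; exact hnadj e3
        rcases inc4 a haU' t ht with ⟨e1, _⟩ | ⟨e1, e2⟩
        · exact hAB t (hA1 (hQ1 e1)) s (hB1 (hB2 hs'))
        · have : t ∉ B2 := fun h => b2 t h e2
          exact hB2lt s hs' t (Finset.mem_sdiff.2 ⟨e1, this⟩)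
      have hsep2 : ∀ x ∈ U, ∀ y ∈ U', x ≠ r →
          Disjoint (convexHull ℝ (part φ (A ∪ B) z r x))
            (convexHull ℝ (part φ (A ∪ B) z r y)) := by
        intro x hx y hy hxr
        refine (Disjoint.mono (convexHull_mono ?_) (convexHull_mono ?_) hcut).symm
        · intro s hs
          rcases inc4 y hy s hs with ⟨e, _⟩ | ⟨e, _⟩
          · left; exact hQ1 e
          · right; exact e
        · intro s hs
          rcases inc3 x hx hxr hs with ⟨e, _⟩ | e
          · rw [Finset.mem_union] at e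
            exact e
          · exact absurd e.1 hxr
      intro x hx y hy hxy hnadj hxr hyr
      rw [Finset.mem_union] at hx hy
      rcases hx with hx | hx <;> rcases hy with hy | hy
      · exact (a5 x hx y hy hxy hnadj hxr hyr).mono (convexHull_mono (inc3 x hx hxr))
          (convexHull_mono (inc3 y hy hyr))
      · exact hsep2 x hx y hy hxr
      · exact (hsep2 y hy x hx hyr).symm
      · by_cases e1 : x = a
        · subst e1
          exact (hsep y hy (Ne.symm hxy) hnadj).symm
        · by_cases e2 : y = a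
          · subst e2
            exact hsep x hx e1 (fun h => hnadj h.symm)
          · refine (b5 x hx y hy hxy hnadj e1 e2).mono (convexHull_mono ?_) (convexHull_mono ?_)
            · intro s hs
              rcases inc4 x hx s hs with ⟨_, e⟩ | ⟨e, e'⟩
              · exact absurd e e1
              · left; exact ⟨e, e'⟩
            · intro s hs
              rcases inc4 y hy s hs with ⟨_, e⟩ | ⟨e, e'⟩
              · exact absurd e e2
              · left; exact ⟨e, e'⟩

end Pool.Agent.H1Tv
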