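import Pool.Agent.H1Tv.Moment

/-!
# Words whose alternations encode the power set graph
-/

namespace Pool.Agent.H1Tv

/-- the vertices of the power set graph -/
abbrev PV (k : ℕ) : Type := Fin k ⊕ Finset (Fin k)

/-- the positions of the letter `x` -/
def pos {V : Type} [DecidableEq V] (ω : ℕ → V) (N : ℕ) (x : V) : Finset ℕ :=
  (Finset.range N).filter (fun t => ω t = x)

theorem mem_pos {V : Type} [DecidableEq V] {ω : ℕ → V} {N : ℕ} {x : V} {t : ℕ} :
    t ∈ pos ω N x ↔ t < N ∧ ω t = x := by
  simp [pos]

theorem alt_of_lt {X Y : Finset ℕ} {n : ℕ} (z : ℕ → ℕ)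
    (hz : ∀ i, i + 1 < n → z i < z (i + 1))
    (hX : ∀ i, i < n → Even i → z i ∈ X) (hY : ∀ i, i < n → ¬ Even i → z i ∈ Y) : Alt X Y n := by
  refine ⟨z, fun i hi => ⟨hz i hi, ?_⟩⟩
  by_cases h : Even i
  · have h' : ¬ Even (i + 1) := by rw [Nat.even_add_one]; simpa using h
    exact Or.inl ⟨hX i (by omega) h, hY (i + 1) hi h'⟩
  · have h' : Even (i + 1) := by rw [Nat.even_add_one]; exact h
    exact Or.inr ⟨hY i (by omega) h, hX (i + 1) hi h'⟩

/-- a labelled set of small size is encoded by a function -/
theorem exists_code (n m : ℕ) (s : Finset ℕ) (hs : ∀ x ∈ s, x < m) (hc : s.card ≤ n)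
    (q : ℕ → Prop) : ∃ c : Fin n → Fin (m + 1) × Bool,
      (∀ x, x < m → (x ∈ s ↔ ∃ i, ((c i).1 : ℕ) = x)) ∧
      (∀ x ∈ s, (q x ↔ ∃ i, ((c i).1 : ℕ) = x ∧ (c i).2 = true)) := by
  classical
  obtain ⟨e, he⟩ := exists_enum s
  have hsurj : ∀ x ∈ s, ∃ i, i < s.card ∧ e i = x := by
    intro x hx
    have himg : (Finset.range s.card).image e = s := by
      apply Finset.eq_of_subset_of_card_le
      · intro y hy
        rw [Finset.mem_image] at hy
        obtain ⟨i, hi, rfl⟩ := hy
        exact he.2 i (Finset.mem_range.1 hi)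
      · rw [Finset.card_image_of_injOn, Finset.card_range]
        intro a ha b hb hab
        simp only [Finset.coe_range, Set.mem_Iio] at ha hb
        rcases lt_trichotomy a b with h | h | h
        · exact absurd hab (he.1 a b h hb).ne
        · exact h
        · exact absurd hab.symm (he.1 b a h ha).ne
    rw [← himg, Finset.mem_image] at hx
    obtain ⟨i, hi, rfl⟩ := hx
    exact ⟨i, Finset.mem_range.1 hi, rfl⟩
  refine ⟨fun i => if h : (i : ℕ) < s.card then
    (⟨e i, Nat.lt_succ_of_lt (hs _ (he.2 i h))⟩, decide (q (e i))) else (Fin.last m, false), ?_, ?_⟩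
  · intro x hx
    constructor
    · intro hxs
      obtain ⟨i, hi, rfl⟩ := hsurj x hxs
      refine ⟨⟨i, lt_of_lt_of_le hi hc⟩, ?_⟩
      simp [hi]
    · rintro ⟨i, hi⟩
      by_cases h : (i : ℕ) < s.card
      · simp only [h, dif_pos] at hi
        rw [← hi]
        exact he.2 i h
      · simp only [h, dif_neg, not_false_eq_true, Fin.val_last] at hi
        omega
  · intro x hx
    obtain ⟨i, hi, rfl⟩ := hsurj x hx
    constructor
    · intro hq
      refine ⟨⟨i, lt_of_lt_of_le hi hc⟩, ?_⟩
      simp [hi, hq]
    · rintro ⟨j, hj1, hj2⟩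
      by_cases h : (j : ℕ) < s.card
      · simp only [h, dif_pos] at hj1 hj2
        rw [hj1] at hj2
        simpa using hj2
      · simp only [h, dif_neg, not_false_eq_true] at hj2
        exact absurd hj2 (by simp)

/-- The combinatorial core: in a word over `PV k` in which alternation of length `D ≥ 1` holds
exactly for the adjacent pairs of the power set graph, `k` is small. -/
theorem words_bound (D k N : ℕ) (hD : 2 ≤ D) (hk : 1 ≤ k) (ω : ℕ → PV k)
    (hww : ∀ a b : Fin k, a ≠ b → ¬ Alt (pos ω N (Sum.inl a)) (pos ω N (Sum.inl b)) D)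
    (huu : ∀ u v : Finset (Fin k), u ≠ v → ¬ Alt (pos ω N (Sum.inr u)) (pos ω N (Sum.inr v)) D)
    (huw : ∀ (u : Finset (Fin k)) (a : Fin k),
      Alt (pos ω N (Sum.inr u)) (pos ω N (Sum.inl a)) D ↔ a ∈ u) :
    2 ^ k ≤ ((k * k * D + 2) * 2) ^ D := by
  classical
  -- breakpoints
  set Bab : Fin k → Fin k → Finset ℕ := fun a b => (Finset.range N).filter (fun t =>
    a ≠ b ∧ ω t = Sum.inl b ∧ ∃ s < t, ω s = Sum.inl a ∧
      ∀ r, s < r → r < t → ∀ c, ω r ≠ Sum.inl c) with hBab
  have hBab_card : ∀ a b, (Bab a b).card ≤ D := by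
    intro a b
    by_contra hcon
    push Not at hcon
    have hab : a ≠ b := by
      have : (Bab a b).Nonempty := by
        rw [← Finset.card_pos]; omega
      obtain ⟨t, ht⟩ := this
      simp only [hBab, Finset.mem_filter] at ht
      exact ht.2.1
    apply hww a b hab
    obtain ⟨e, he⟩ := exists_enum (Bab a b)
    -- previous times
    have hprev : ∀ i, i < (Bab a b).card → ∃ s < e i, ω s = Sum.inl a ∧
        ∀ r, s < r → r < e i → ∀ c, ω r ≠ Sum.inl c := by
      intro i hi
      have := he.2 i hi
      simp only [hBab, Finset.mem_filter] at this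
      exact this.2.2.2
    have hb : ∀ i, i < (Bab a b).card → e i < N ∧ ω (e i) = Sum.inl b := by
      intro i hi
      have := he.2 i hi
      simp only [hBab, Finset.mem_filter, Finset.mem_range] at this
      exact ⟨this.1, this.2.2.1⟩
    have hprev' : ∀ i, ∃ s, i < (Bab a b).card → s < e i ∧ ω s = Sum.inl a ∧
        ∀ r, s < r → r < e i → ∀ c, ω r ≠ Sum.inl c := by
      intro i
      by_cases hi : i < (Bab a b).card
      · obtain ⟨s, hs⟩ := hprev i hi
        exact ⟨s, fun _ => hs⟩
      · exact ⟨0, fun h => absurd h hi⟩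
    choose σ hσ using hprev'
    have hes : ∀ i, i + 1 < (Bab a b).card → e i < σ (i + 1) := by
      intro i hi
      obtain ⟨h1, h2, h3⟩ := hσ (i + 1) hi
      rcases lt_trichotomy (e i) (σ (i + 1)) with h | h | h
      · exact h
      · exfalso
        have := (hb i (by omega)).2
        rw [h, h2] at this
        exact hab (Sum.inl.inj this)
      · exfalso
        exact h3 (e i) h (he.1 i (i + 1) (by omega) hi) b (hb i (by omega)).2
    refine alt_of_lt (fun i => if Even i then σ i else e i) ?_ ?_ ?_
    · intro i hi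
      by_cases h : Even i
      · have h' : ¬ Even (i + 1) := by rw [Nat.even_add_one]; simpa using h
        simp only [h, h', if_true, if_false]
        exact lt_trans (hσ i (by omega)).1 (he.1 i (i + 1) (by omega) (by omega))
      · have h' : Even (i + 1) := by rw [Nat.even_add_one]; exact h
        simp only [h, h', if_true, if_false]
        exact hes i (by omega)
    · intro i hi h
      simp only [h, if_true]
      obtain ⟨h1, h2, h3⟩ := hσ i (by omega)
      rw [mem_pos]
      exact ⟨lt_trans h1 (hb i (by omega)).1, h2⟩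
    · intro i hi h
      simp only [h, if_false]
      rw [mem_pos]
      exact hb i (by omega)
  set B : Finset ℕ := Finset.univ.biUnion (fun q : Fin k × Fin k => Bab q.1 q.2) with hB
  have hBcard : B.card ≤ k * k * D := by
    have := Finset.card_biUnion_le_card_mul (Finset.univ : Finset (Fin k × Fin k))
      (fun q : Fin k × Fin k => Bab q.1 q.2) D (fun q _ => hBab_card q.1 q.2)
    simpa using this
  -- region index
  set ρ : ℕ → ℕ := fun t => (B.filter (fun b => b ≤ t)).card with hρ
  have hρmono : ∀ s t, s ≤ t → ρ s ≤ ρ t := by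
    intro s t hst
    apply Finset.card_le_card
    intro b hb
    rw [Finset.mem_filter] at hb ⊢
    exact ⟨hb.1, hb.2.trans hst⟩
  have hρle : ∀ t, ρ t ≤ B.card := fun t => Finset.card_le_card (Finset.filter_subset _ _)
  have hρlt : ∀ s t, ρ s < ρ t → s < t := by
    intro s t h
    by_contra hcon
    push Not at hcon
    exact absurd (hρmono t s hcon) (by omega)
  -- letters of `W` in the same region agree
  have hsame : ∀ s t, s < t → t < N → ρ s = ρ t → ∀ a b : Fin k, ω s = Sum.inl a → ω t = Sum.inl b →
      a = b := by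
    intro s t hst htN hρst a b hsa htb
    by_contra hne
    -- the first W-time after s with a letter different from a
    have hex : ∃ t', s < t' ∧ ∃ b', ω t' = Sum.inl b' ∧ b' ≠ a := ⟨t, hst, b, htb, fun h => hne h.symm⟩
    obtain ⟨b', hb', hb'a⟩ := (Nat.find_spec hex).2
    have hst' := (Nat.find_spec hex).1
    have ht't : Nat.find hex ≤ t := Nat.find_min' hex ⟨hst, b, htb, fun h => hne h.symm⟩
    set t' := Nat.find hex with ht'
    have hmin : ∀ r, r < t' → s < r → ∀ c, ω r = Sum.inl c → c = a := by
      intro r hr hsr c hc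
      by_contra hca
      exact Nat.find_min hex hr ⟨hsr, c, hc, hca⟩
    -- the last time before t' with a W letter
    set P : Finset ℕ := (Finset.range t').filter (fun r => ∃ c : Fin k, ω r = Sum.inl c) with hP
    have hPmem : ∀ r, r ∈ P ↔ r < t' ∧ ∃ c : Fin k, ω r = Sum.inl c := by
      intro r
      simp only [hP, Finset.mem_filter, Finset.mem_range]
    have hsPm : s ∈ P := (hPmem s).2 ⟨hst', a, hsa⟩
    obtain ⟨mm, hmm, hmax⟩ := P.exists_max_image (fun r => r) ⟨s, hsPm⟩
    obtain ⟨h1, c, hc⟩ := (hPmem mm).1 hmm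
    have hsP : s ≤ mm := hmax s hsPm
    have hca : c = a := by
      rcases Nat.eq_or_lt_of_le hsP with h | h
      · rw [← h, hsa] at hc
        exact (Sum.inl.inj hc).symm
      · exact hmin _ h1 h c hc
    have hbr : t' ∈ Bab a b' := by
      simp only [hBab, Finset.mem_filter, Finset.mem_range]
      refine ⟨by omega, fun h => hb'a h.symm, hb', mm, h1, by rw [hc, hca], ?_⟩
      intro r hr1 hr2 c' hc'
      have : r ≤ mm := hmax r ((hPmem r).2 ⟨hr2, c', hc'⟩)
      omega
    have hbrB : t' ∈ B := by
      rw [hB, Finset.mem_biUnion]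
      exact ⟨(a, b'), Finset.mem_univ _, hbr⟩
    have : ρ s < ρ t := by
      apply Finset.card_lt_card
      rw [Finset.ssubset_iff_of_subset]
      · refine ⟨t', ?_, ?_⟩
        · rw [Finset.mem_filter]; exact ⟨hbrB, ht't⟩
        · rw [Finset.mem_filter]; rintro ⟨_, h⟩; omega
      · intro b hb
        rw [Finset.mem_filter] at hb ⊢
        exact ⟨hb.1, hb.2.trans hst.le⟩
    omega
  -- the letter of a region
  have hlam : ∀ r, ∃ a : Fin k, ∀ t, t < N → ρ t = r → ∀ b, ω t = Sum.inl b → b = a := by
    intro r
    by_cases h : ∃ t, t < N ∧ ρ t = r ∧ ∃ b, ω t = Sum.inl b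
    · obtain ⟨t, ht, htr, b, hb⟩ := h
      refine ⟨b, fun t' ht' ht'r b' hb' => ?_⟩
      rcases lt_trichotomy t t' with h | h | h
      · exact (hsame t t' h ht' (by omega) b b' hb hb').symm
      · subst h
        rw [hb] at hb'
        exact (Sum.inl.inj hb').symm
      · exact hsame t' t h ht (by omega) b' b hb' hb
    · push Not at h
      exact ⟨⟨0, hk⟩, fun t ht htr b hb => absurd hb (h t ht htr b)⟩
  choose lam hlam using hlam
  -- the regions of a letter
  set A : Finset (Fin k) → Finset ℕ := fun u =>
    (pos ω N (Sum.inr u)).image ρ with hA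
  have hAlt : ∀ u, ∀ x ∈ A u, x < B.card + 1 := by
    intro u x hx
    simp only [hA, Finset.mem_image] at hx
    obtain ⟨t, _, rfl⟩ := hx
    exact Nat.lt_succ_of_le (hρle t)
  have hAmem : ∀ u x, x ∈ A u → ∃ t, t ∈ pos ω N (Sum.inr u) ∧ ρ t = x := by
    intro u x hx
    simpa only [hA, Finset.mem_image] using hx
  have hcommon : ∀ u v, u ≠ v → (A u ∩ A v).card < D := by
    intro u v huv
    by_contra hcon
    push Not at hcon
    apply huu u v huv
    obtain ⟨e, he⟩ := exists_enum (A u ∩ A v)
    have hu : ∀ i, ∃ t, i < (A u ∩ A v).card → t ∈ pos ω N (Sum.inr u) ∧ ρ t = e i := by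
      intro i
      by_cases hi : i < (A u ∩ A v).card
      · obtain ⟨t, ht⟩ := hAmem u _ (Finset.mem_inter.1 (he.2 i hi)).1
        exact ⟨t, fun _ => ht⟩
      · exact ⟨0, fun h => absurd h hi⟩
    have hv : ∀ i, ∃ t, i < (A u ∩ A v).card → t ∈ pos ω N (Sum.inr v) ∧ ρ t = e i := by
      intro i
      by_cases hi : i < (A u ∩ A v).card
      · obtain ⟨t, ht⟩ := hAmem v _ (Finset.mem_inter.1 (he.2 i hi)).2
        exact ⟨t, fun _ => ht⟩
      · exact ⟨0, fun h => absurd h hi⟩
    choose τ hτ using hu
    choose υ hυ using hv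
    refine alt_of_lt (fun i => if Even i then τ i else υ i) ?_ ?_ ?_
    · intro i hi
      have hei := he.1 i (i + 1) (by omega) (by omega)
      apply hρlt
      by_cases h : Even i
      · have h' : ¬ Even (i + 1) := by rw [Nat.even_add_one]; simpa using h
        simp only [h, h', if_true, if_false]
        rw [(hτ i (by omega)).2, (hυ (i + 1) (by omega)).2]
        exact hei
      · have h' : Even (i + 1) := by rw [Nat.even_add_one]; exact h
        simp only [h, h', if_true, if_false]
        rw [(hυ i (by omega)).2, (hτ (i + 1) (by omega)).2]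
        exact hei
    · intro i hi h
      simp only [h, if_true]
      exact (hτ i (by omega)).1
    · intro i hi h
      simp only [h, if_false]
      exact (hυ i (by omega)).1
  -- truncated region sets
  have hA' : ∀ u, ∃ s ⊆ A u, s.card = min (A u).card D := fun u =>
    Finset.exists_subset_card_eq (min_le_left _ _)
  choose A' hA'sub hA'card using hA'
  have hcode : ∀ u, ∃ c : Fin D → Fin (B.card + 1 + 1) × Bool,
      (∀ x, x < B.card + 1 → (x ∈ A' u ↔ ∃ i, ((c i).1 : ℕ) = x)) ∧
      (∀ x ∈ A' u, (lam x ∈ u ↔ ∃ i, ((c i).1 : ℕ) = x ∧ (c i).2 = true)) := fun u =>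
    exists_code D (B.card + 1) (A' u) (fun x hx => hAlt u x (hA'sub u hx))
      (by rw [hA'card]; exact min_le_right _ _) (fun x => lam x ∈ u)
  choose c hc1 hc2 using hcode
  have hinj : Function.Injective c := by
    intro u v huv
    have hAA : A' u = A' v := by
      ext x
      constructor
      · intro hx
        have hxlt := hAlt u x (hA'sub u hx)
        rw [hc1 v x hxlt, ← huv, ← hc1 u x hxlt]
        exact hx
      · intro hx
        have hxlt := hAlt v x (hA'sub v hx)
        rw [hc1 u x hxlt, huv, ← hc1 v x hxlt]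
        exact hx
    have hlab : ∀ x ∈ A' u, (lam x ∈ u ↔ lam x ∈ v) := by
      intro x hx
      rw [hc2 u x hx, hc2 v x (hAA ▸ hx), huv]
    by_contra hne
    -- the truncated set is the whole set
    have hlt : (A' u).card < D := by
      refine lt_of_le_of_lt ?_ (hcommon u v hne)
      apply Finset.card_le_card
      intro x hx
      exact Finset.mem_inter.2 ⟨hA'sub u hx, hA'sub v (hAA ▸ hx)⟩
    have hfull : ∀ w, A' w = A' u → A' w = A w := by
      intro w hw
      apply Finset.eq_of_subset_of_card_le (hA'sub w)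
      have h1 := hA'card w
      rw [hw] at h1
      rw [hw]
      have : (A' u).card = min (A w).card D := h1
      omega
    have hu := hfull u rfl
    have hv := hfull v hAA.symm
    have hAuv : A u = A v := by rw [← hu, ← hv, hAA]
    -- one direction of the equality of the neighbourhoods
    have key : ∀ u v : Finset (Fin k), A u = A v → (∀ x ∈ A u, (lam x ∈ u ↔ lam x ∈ v)) →
        ∀ a, a ∈ u → a ∈ v := by
      intro u v hAuv hlab a hau
      by_cases hex : ∃ x ∈ A u, lam x = a
      · obtain ⟨x, hx, rfl⟩ := hex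
        exact (hlab x hx).1 hau
      · push Not at hex
        rw [← huw] at hau ⊢
        obtain ⟨z, hz⟩ := hau
        -- replacement times
        have hrep : ∀ t, ∃ t', t ∈ pos ω N (Sum.inr u) → t' ∈ pos ω N (Sum.inr v) ∧ ρ t' = ρ t := by
          intro t
          by_cases ht : t ∈ pos ω N (Sum.inr u)
          · have : ρ t ∈ A v := by
              rw [← hAuv]
              simp only [hA]
              exact Finset.mem_image_of_mem _ ht
            obtain ⟨t', ht'⟩ := hAmem v _ this
            exact ⟨t', fun _ => ht'⟩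
          · exact ⟨0, fun h => absurd h ht⟩
        choose g hg using hrep
        -- times of `u` and of `a` are in different regions
        have hdiff : ∀ s t, s ∈ pos ω N (Sum.inr u) → t ∈ pos ω N (Sum.inl a) → ρ s ≠ ρ t := by
          intro s t hs ht heq
          have h1 : ρ s ∈ A u := by
            simp only [hA]
            exact Finset.mem_image_of_mem _ hs
          rw [mem_pos] at ht
          have := hlam (ρ s) t ht.1 heq.symm a ht.2
          exact hex _ h1 this.symm
        have hdisj : ∀ t, t ∈ pos ω N (Sum.inr u) → t ∉ pos ω N (Sum.inl a) := by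
          intro t h1 h2
          exact hdiff t t h1 h2 rfl
        refine ⟨fun i => if z i ∈ pos ω N (Sum.inr u) then g (z i) else z i, ?_⟩
        intro i hi
        obtain ⟨h1, h2⟩ := hz i hi
        rcases h2 with ⟨h2, h3⟩ | ⟨h2, h3⟩
        · have h4 : z (i + 1) ∉ pos ω N (Sum.inr u) := fun h => hdisj _ h h3
          simp only [h2, h4, if_true, if_false]
          obtain ⟨h5, h6⟩ := hg _ h2
          refine ⟨?_, Or.inl ⟨h5, h3⟩⟩
          apply hρlt
          rw [h6]
          exact lt_of_le_of_ne (hρmono _ _ h1.le) (hdiff _ _ h2 h3)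
        · have h4 : z i ∉ pos ω N (Sum.inr u) := fun h => hdisj _ h h2
          simp only [h3, h4, if_true, if_false]
          obtain ⟨h5, h6⟩ := hg _ h3
          refine ⟨?_, Or.inr ⟨h2, h5⟩⟩
          apply hρlt
          rw [h6]
          exact lt_of_le_of_ne (hρmono _ _ h1.le) (hdiff _ _ h3 h2).symm
    apply hne
    rw [hu] at hlab
    ext a
    constructor
    · exact key u v hAuv hlab a
    · exact key v u hAuv.symm (fun x hx => (hlab x (hAuv ▸ hx)).symm) a
  have hcard := Fintype.card_le_of_injective c hinj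
  simp only [Fintype.card_finset, Fintype.card_fin, Fintype.card_fun, Fintype.card_prod,
    Fintype.card_bool] at hcard
  refine hcard.trans ?_
  apply Nat.pow_le_pow_left
  apply Nat.mul_le_mul_right
  omega

end Pool.Agent.H1Tv
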